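import Mathlib
import Pool.Agent.H55.QT.Xor
import Pool.Agent.H6.QL.Evc

set_option autoImplicit false

/-!
# THEOREM LD (depth d Frege with lines of linear size, random 3-CNFs): definitions

States: pairs `D x`, `D` a set of variables, `x : Fin n → Bool` a total assignment of which only the
values on `D` count. `Con D x`: the state is locally consistent (`Wld`: the rules). `Lt Con D x F b`
(locally true): the formula `F` has the value `b` at all consistent states above `D x` which give values
to all variables of `F`. `alt F b`: the number of alternations of `F` (if `b = true`) or of `¬ F` (if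
`b = false`), read as a conjunction. `cj F b`, `dj F b`: the conjuncts and disjuncts of `F` resp. `¬ F`
(a pair `(G, true)` stands for `G`, `(G, false)` for `¬ G`). `Tr Con thr D x F b i`: the syntactic truth of `F`
resp. `¬ F` at a state; `i = true`: inside of a larger disjunction. A disjunction with less than
`thr (alternations)` leaves which is not inside of a larger disjunction is true if it is locally true, any
other disjunction is true if one of its disjuncts is true; a conjunction is true if all conjuncts are.

Tests: finite sets of pairs `(V, β)`; `Hit U x t`: for some `(V, β)` in `t` the set `V` lies in `U` and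
`x = β` on `V`.
-/

namespace Pool.H6.LD

open Finset Classical Pool.Agent.H3.Frg Pool.Agent.H3.Frg2 Pool.Agent.H3.Frg4 Pool.Agent.H55.QT

/-- Alternation depth of `F` (`b = true`) or `¬ F` (`b = false`) read as a conjunction: the maximal
number of alternations of the conjuncts. -/
def alt {V : Type} : Fm V → Bool → ℕ
  | .var _, _ => 0
  | .neg A, b => alt A (!b)
  | .imp A B, false => max (alt A true) (alt B false)
  | .imp A B, true => max (alt A true) (alt B false) + 1

/-- The variables of a formula. -/
noncomputable def fv {V : Type} : Fm V → Finset V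
  | .var v => {v}
  | .neg A => fv A
  | .imp A B => fv A ∪ fv B

/-- The conjuncts of `F` (`b = true`) or `¬ F` (`b = false`). -/
def cj {V : Type} : Fm V → Bool → List (Fm V × Bool)
  | .var v, b => [(.var v, b)]
  | .neg A, b => cj A (!b)
  | .imp A B, false => cj A true ++ cj B false
  | .imp A B, true => [(.imp A B, true)]

/-- The disjuncts of `F` (`b = true`) or `¬ F` (`b = false`). -/
def dj {V : Type} : Fm V → Bool → List (Fm V × Bool)
  | .var v, b => [(.var v, b)]
  | .neg A, b => dj A (!b)
  | .imp A B, true => dj A false ++ dj B true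
  | .imp A B, false => [(.imp A B, false)]

section world

variable {n : ℕ} (Con : Finset (Fin n) → (Fin n → Bool) → Prop)

/-- Locally consistent states: `Con D x` depends only on `x` on `D`, is inherited by smaller sets, and
states with less than `K` variables extend to any further variable. -/
structure Wld (K : ℕ) : Prop where
  cong : ∀ D x y, (∀ v ∈ D, x v = y v) → Con D x → Con D y
  mono : ∀ D D' x, D ⊆ D' → Con D' x → Con D x
  ext : ∀ D x v, D.card < K → Con D x → ∃ y, (∀ w ∈ D, y w = x w) ∧ Con (insert v D) y
  emp : ∀ x, Con ∅ x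

/-- Locally true. -/
def Lt (D : Finset (Fin n)) (x : Fin n → Bool) (F : Fm (Fin n)) (b : Bool) : Prop :=
  ∀ y, (∀ v ∈ D, y v = x v) → Con (D ∪ fv F) y → F.eval y = b

/-- Truth at a state. -/
def Tr (thr : ℕ → ℕ) (D : Finset (Fin n)) (x : Fin n → Bool) : Fm (Fin n) → Bool → Bool → Prop
  | .var v, b, _ => Lt Con D x (.var v) b
  | .neg A, b, i => Tr thr D x A (!b) i
  | .imp A B, false, _ => Tr thr D x A true false ∧ Tr thr D x B false false
  | .imp A B, true, i =>
      if i = false ∧ (Fm.imp A B).leaves < thr (alt (Fm.imp A B) true) then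
        Lt Con D x (.imp A B) true
      else Tr thr D x A false true ∨ Tr thr D x B true true

/-- All signed formulas of the list are true. -/
def TrL (thr : ℕ → ℕ) (D : Finset (Fin n)) (x : Fin n → Bool) (l : List (Fm (Fin n) × Bool)) : Prop :=
  ∀ p ∈ l, Tr Con thr D x p.1 p.2 false

/-- The number of leaves of the formulas of a list. -/
def lvs {V : Type} (l : List (Fm V × Bool)) : ℕ := (l.map fun p => p.1.leaves).sum

/-- Tests. -/
abbrev Tst (n : ℕ) : Type := Finset (Finset (Fin n) × (Fin n → Bool))

/-- `(U, x)` hits the test `t`. -/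
def Hit (U : Finset (Fin n)) (x : Fin n → Bool) (t : Tst n) : Prop :=
  ∃ p ∈ t, p.1 ⊆ U ∧ ∀ v ∈ p.1, x v = p.2 v

/-- The weight of a test: a bound for the probability that a random state of density `1 / q` does not hit it. -/
noncomputable def wt (q : ℕ) (t : Tst n) : ℝ := ∏ p ∈ t, (1 - (1 / (2 * q : ℝ)) ^ p.1.card)

/-- Good tests: disjoint sets, consistent assignments, jointly independent. -/
structure GT (t : Tst n) : Prop where
  disj : ∀ p ∈ t, ∀ p' ∈ t, p ≠ p' → Disjoint p.1 p'.1
  con : ∀ p ∈ t, Con p.1 p.2
  ind : ∀ J, J ⊆ t → ∀ x, (∀ p ∈ J, Con p.1 x) → Con (J.biUnion Prod.fst) x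

/-- All sets of good tests of total weight less than `1 / 2` can be hit with a consistent state with at most `k`
variables. -/
def HitAll (q k : ℕ) : Prop :=
  ∀ T : Finset (Tst n), (∀ t ∈ T, GT Con t) → ∑ t ∈ T, wt q t < 1 / 2 →
    ∃ U x, U.card ≤ k ∧ Con U x ∧ ∀ t ∈ T, Hit U x t

/-- Every family of `ν n` disjoint consistent pairs with at most `A` variables contains a good test with
`ν' n` members. -/
def SubT (A : ℕ) (ν ν' : ℝ) : Prop :=
  ∀ F : Tst n, (∀ p ∈ F, ∀ p' ∈ F, p ≠ p' → Disjoint p.1 p'.1) →
    (∀ p ∈ F, p.1.card ≤ A ∧ p.1.Nonempty ∧ Con p.1 p.2) → ν * n ≤ F.card →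
    ∃ t ⊆ F, GT Con t ∧ ν' * n ≤ t.card

/-- Certificates: if `l` is true at a consistent state `U' x'` above `U x` with at most `K - k` variables then
it is true at a state `D y`, compatible with `U' x'`, with at most `k` variables. -/
def Crt (thr : ℕ → ℕ) (K k : ℕ) (U : Finset (Fin n)) (x : Fin n → Bool)
    (l : List (Fm (Fin n) × Bool)) : Prop :=
  ∀ U' x', U ⊆ U' → (∀ v ∈ U, x' v = x v) → Con U' x' → U'.card + k ≤ K → TrL Con thr U' x' l →
    ∃ D y, D.card ≤ k ∧ (∀ v ∈ U', y v = x' v) ∧ Con (U' ∪ D) y ∧ TrL Con thr D y l

/-- `Kll q K k l w`: there are good tests of total weight at most `w` such that all states which hit them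
have certificates for `l`. -/
def Kll (thr : ℕ → ℕ) (q K k : ℕ) (w : ℝ) (l : List (Fm (Fin n) × Bool)) : Prop :=
  ∃ T : Finset (Tst n), (∀ t ∈ T, GT Con t) ∧ ∑ t ∈ T, wt q t ≤ w ∧
    ∀ U x, (∀ t ∈ T, Hit U x t) → Crt Con thr K k U x l

end world

section xor

variable {n m : ℕ}

/-- Sum modulo 2. -/
noncomputable def sm {α : Type} (x : α → Bool) (S : Finset α) : ZMod 2 := ∑ v ∈ S, if x v = true then 1 else 0

/-- The world of a system of linear equations with supports `B j` and right sides `b j`: the equations of all
sets of at most `r` equations hold. -/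
def XCon (B : Fin m → Finset (Fin n)) (b : Fin m → Bool) (r : ℕ) (D : Finset (Fin n)) (x : Fin n → Bool) :
    Prop :=
  ∀ I : Finset (Fin m), I.card ≤ r → par B I ⊆ D → sm x (par B I) = sm b I

/-- The variables of `S` and the neighbours. -/
noncomputable def nb (B : Fin m → Finset (Fin n)) (S : Finset (Fin n)) : Finset (Fin n) :=
  S ∪ (univ.filter fun j => ¬ Disjoint (B j) S).biUnion B

/-- The balls of radius `R` have at most `L R * n` elements in total. -/
def Bls (L : ℕ → ℝ) (B : Fin m → Finset (Fin n)) : Prop :=
  ∀ R : ℕ, ((∑ v, ((nb B)^[R] {v}).card : ℕ) : ℝ) ≤ L R * n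

end xor

end Pool.H6.LD
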