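import Mathlib
import Pool.Agent.H6.LD.Defs

set_option autoImplicit false
set_option linter.unusedSectionVars false

/-!
# Module BSC (THEOREM LD): basic facts on states and truth

PROOFS (all short).
* `Wld.extS`: induction on `S` (Finset), `Wld.ext` for each new element (if `v ∈ D` then `insert v D = D`; the state before has at most
  `K - 1` variables because the final set has at most `K`), `Wld.mono`/`cong` for the bookkeeping.
* `ev_congr`: induction on `F`. `fv_card`: induction (`card_union_le`). `leaves_pos`.
* `Lt.mono`: a state above `D' ∪ fv F` is by `Wld.mono` one above `D ∪ fv F`.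
* `Tr.mono`: structural induction on `F` (all `b`, `i`); the condition of the `if` does not depend on the state.
* `Tr.lt`: structural induction; for `imp A B` use `fv A ⊆ fv (imp A B)` and `Wld.mono`: `Lt D x A b' ` at `y` because
  `D ∪ fv A ⊆ D ∪ fv (imp A B)`.
* `tr_full`: structural induction; in the `Lt` cases `y = x` on `D ⊇ fv F`, so `F.eval y = F.eval x` (`ev_congr`).
* `cj`/`dj` facts: structural induction on `F` for all `b`. `dj_alt`: `p ∈ dj (imp A B) true` gives by `cj_dj`
  `(p.1, !p.2) ∈ cj (imp A B) false`, so `alt p.1 (!p.2) ≤ alt (imp A B) false = alt (imp A B) true - 1`, and `alt p.1 p.2 ≤ alt p.1 (!p.2)` because `p.1` is a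
  variable or `p.1 = imp _ _`, `p.2 = false` (`dj_form`). `cj_alt1`: the same with `cj_form`.
* `tr_cj`, `tr_dj`: structural induction (`List.mem_append`); for `imp A B, true` in `tr_dj` the flag `i = true` makes the condition of the `if` false.
-/

namespace Pool.H6.LD

open Finset Classical Pool.Agent.H3.Frg Pool.Agent.H3.Frg2 Pool.Agent.H3.Frg4 Pool.Agent.H55.QT

variable {V : Type} {n K : ℕ} {Con : Finset (Fin n) → (Fin n → Bool) → Prop}

theorem Wld.extS (h : Wld Con K) {D S : Finset (Fin n)} {x : Fin n → Bool} (hc : (D ∪ S).card ≤ K)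
    (hx : Con D x) : ∃ y, (∀ w ∈ D, y w = x w) ∧ Con (D ∪ S) y := by
  induction S using Finset.induction_on with
  | empty => exact ⟨x, fun _ _ => rfl, by simpa using hx⟩
  | insert v S hv ih =>
    have hsub : D ∪ S ⊆ D ∪ insert v S := union_subset_union subset_rfl (subset_insert _ _)
    obtain ⟨y, hy, hy2⟩ := ih ((card_le_card hsub).trans hc)
    have he : D ∪ insert v S = insert v (D ∪ S) := by
      ext w
      simp only [mem_union, mem_insert]
      tauto
    rw [he] at hc ⊢
    by_cases hm : v ∈ D ∪ S
    · rw [insert_eq_of_mem hm]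
      exact ⟨y, hy, hy2⟩
    · rw [card_insert_of_notMem hm] at hc
      obtain ⟨z, hz, hz2⟩ := h.ext _ y v hc hy2
      exact ⟨z, fun w hw => (hz w (mem_union_left _ hw)).trans (hy w hw), hz2⟩

theorem ev_congr {F : Fm V} {x y : V → Bool} (h : ∀ v ∈ fv F, x v = y v) : F.eval x = F.eval y := by
  induction F with
  | var v => exact h v (by simp [fv])
  | neg A ih =>
    have h1 : A.eval x = A.eval y := ih h
    simp only [Fm.eval, h1]
  | imp A B ihA ihB =>
    have h1 : A.eval x = A.eval y := ihA fun v hv => h v (by simp [fv, hv])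
    have h2 : B.eval x = B.eval y := ihB fun v hv => h v (by simp [fv, hv])
    simp only [Fm.eval, h1, h2]

theorem leaves_pos (F : Fm V) : 1 ≤ F.leaves := by
  induction F with
  | var v => exact le_rfl
  | neg A ih => exact ih
  | imp A B ihA ihB => exact ihA.trans (Nat.le_add_right _ _)

theorem fv_card (F : Fm V) : (fv F).card ≤ F.leaves := by
  induction F with
  | var v => simp [fv, Fm.leaves]
  | neg A ih => exact ih
  | imp A B ihA ihB =>
    simp only [fv, Fm.leaves]
    exact (card_union_le _ _).trans (Nat.add_le_add ihA ihB)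

theorem Lt.mono (h : Wld Con K) {D D' : Finset (Fin n)} {x x' : Fin n → Bool} {F : Fm (Fin n)} {b : Bool}
    (hD : D ⊆ D') (hx : ∀ v ∈ D, x' v = x v) (hl : Lt Con D x F b) : Lt Con D' x' F b := by
  intro y hy hc
  exact hl y (fun v hv => (hy v (hD hv)).trans (hx v hv))
    (h.mono _ _ _ (union_subset_union hD subset_rfl) hc)

private theorem tr_neg {thr : ℕ → ℕ} {D : Finset (Fin n)} {x : Fin n → Bool} {A : Fm (Fin n)}
    {b i : Bool} : Tr Con thr D x (.neg A) b i ↔ Tr Con thr D x A (!b) i := Iff.rfl

private theorem tr_var {thr : ℕ → ℕ} {D : Finset (Fin n)} {x : Fin n → Bool} {v : Fin n}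
    {b i : Bool} : Tr Con thr D x (.var v) b i ↔ Lt Con D x (.var v) b := Iff.rfl

private theorem tr_impf {thr : ℕ → ℕ} {D : Finset (Fin n)} {x : Fin n → Bool} {A B : Fm (Fin n)}
    {i : Bool} : Tr Con thr D x (.imp A B) false i ↔
      Tr Con thr D x A true false ∧ Tr Con thr D x B false false := Iff.rfl

private theorem tr_impt {thr : ℕ → ℕ} {D : Finset (Fin n)} {x : Fin n → Bool} {A B : Fm (Fin n)}
    {i : Bool} (hi : i = false ∧ (Fm.imp A B).leaves < thr (alt (Fm.imp A B) true)) :
    Tr Con thr D x (.imp A B) true i ↔ Lt Con D x (.imp A B) true := by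
  simp only [Tr]
  rw [if_pos hi]

private theorem tr_impn {thr : ℕ → ℕ} {D : Finset (Fin n)} {x : Fin n → Bool} {A B : Fm (Fin n)}
    {i : Bool} (hi : ¬ (i = false ∧ (Fm.imp A B).leaves < thr (alt (Fm.imp A B) true))) :
    Tr Con thr D x (.imp A B) true i ↔
      Tr Con thr D x A false true ∨ Tr Con thr D x B true true := by
  simp only [Tr]
  rw [if_neg hi]

theorem Tr.mono (h : Wld Con K) {thr : ℕ → ℕ} {D D' : Finset (Fin n)} {x x' : Fin n → Bool}
    {F : Fm (Fin n)} {b i : Bool} (hD : D ⊆ D') (hx : ∀ v ∈ D, x' v = x v)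
    (hl : Tr Con thr D x F b i) : Tr Con thr D' x' F b i := by
  induction F generalizing b i with
  | var v => exact Lt.mono h hD hx hl
  | neg A ih => exact ih (tr_neg.1 hl)
  | imp A B ihA ihB =>
    cases b with
    | false =>
      obtain ⟨h1, h2⟩ := tr_impf.1 hl
      exact tr_impf.2 ⟨ihA h1, ihB h2⟩
    | true =>
      by_cases hi : i = false ∧ (Fm.imp A B).leaves < thr (alt (Fm.imp A B) true)
      · exact (tr_impt hi).2 (Lt.mono h hD hx ((tr_impt hi).1 hl))
      · rcases (tr_impn hi).1 hl with h1 | h1
        · exact (tr_impn hi).2 (Or.inl (ihA h1))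
        · exact (tr_impn hi).2 (Or.inr (ihB h1))

theorem Tr.lt (h : Wld Con K) {thr : ℕ → ℕ} {D : Finset (Fin n)} {x : Fin n → Bool}
    {F : Fm (Fin n)} {b i : Bool} (hl : Tr Con thr D x F b i) : Lt Con D x F b := by
  induction F generalizing b i with
  | var v => exact hl
  | neg A ih =>
    intro y hy hc
    have h1 : A.eval y = !b := ih (tr_neg.1 hl) y hy hc
    simp only [Fm.eval, h1, Bool.not_not]
  | imp A B ihA ihB =>
    have hA : D ∪ fv A ⊆ D ∪ fv (Fm.imp A B) := by
      intro w hw
      simp only [fv, mem_union] at hw ⊢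
      tauto
    have hB : D ∪ fv B ⊆ D ∪ fv (Fm.imp A B) := by
      intro w hw
      simp only [fv, mem_union] at hw ⊢
      tauto
    cases b with
    | false =>
      obtain ⟨h1, h2⟩ := tr_impf.1 hl
      intro y hy hc
      have h3 : A.eval y = true := ihA h1 y hy (h.mono _ _ _ hA hc)
      have h4 : B.eval y = false := ihB h2 y hy (h.mono _ _ _ hB hc)
      simp [Fm.eval, h3, h4]
    | true =>
      by_cases hi : i = false ∧ (Fm.imp A B).leaves < thr (alt (Fm.imp A B) true)
      · exact (tr_impt hi).1 hl
      · intro y hy hc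
        rcases (tr_impn hi).1 hl with h1 | h1
        · have h3 : A.eval y = false := ihA h1 y hy (h.mono _ _ _ hA hc)
          simp [Fm.eval, h3]
        · have h3 : B.eval y = true := ihB h1 y hy (h.mono _ _ _ hB hc)
          simp [Fm.eval, h3]

private theorem lt_full {D : Finset (Fin n)} {x : Fin n → Bool}
    {F : Fm (Fin n)} {b : Bool} (hF : fv F ⊆ D) (he : F.eval x = b) : Lt Con D x F b := by
  intro y hy _
  rw [← he]
  exact ev_congr fun v hv => hy v (hF hv)

theorem tr_full (h : Wld Con K) {thr : ℕ → ℕ} {D : Finset (Fin n)} {x : Fin n → Bool}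
    {F : Fm (Fin n)} {b i : Bool} (hF : fv F ⊆ D) (he : F.eval x = b) : Tr Con thr D x F b i := by
  induction F generalizing b i with
  | var v => exact lt_full hF he
  | neg A ih =>
    refine tr_neg.2 (ih hF ?_)
    rw [← he]
    simp [Fm.eval]
  | imp A B ihA ihB =>
    have hA : fv A ⊆ D := fun w hw => hF (by simp [fv, hw])
    have hB : fv B ⊆ D := fun w hw => hF (by simp [fv, hw])
    cases b with
    | false =>
      simp only [Fm.eval, Bool.or_eq_false_iff, Bool.not_eq_false'] at he
      exact tr_impf.2 ⟨ihA hA he.1, ihB hB he.2⟩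
    | true =>
      by_cases hi : i = false ∧ (Fm.imp A B).leaves < thr (alt (Fm.imp A B) true)
      · exact (tr_impt hi).2 (lt_full hF he)
      · simp only [Fm.eval, Bool.or_eq_true, Bool.not_eq_true'] at he
        rcases he with h1 | h1
        · exact (tr_impn hi).2 (Or.inl (ihA hA h1))
        · exact (tr_impn hi).2 (Or.inr (ihB hB h1))

theorem cj_form {F : Fm V} {b : Bool} {p : Fm V × Bool} (h : p ∈ cj F b) :
    (∃ v, p.1 = .var v) ∨ ∃ A B, p.1 = .imp A B ∧ p.2 = true := by
  induction F generalizing b with
  | var v =>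
    simp only [cj, List.mem_singleton] at h
    exact Or.inl ⟨v, by rw [h]⟩
  | neg A ih => exact ih h
  | imp A B ihA ihB =>
    cases b with
    | false =>
      simp only [cj, List.mem_append] at h
      rcases h with h | h
      · exact ihA h
      · exact ihB h
    | true =>
      simp only [cj, List.mem_singleton] at h
      exact Or.inr ⟨A, B, by rw [h], by rw [h]⟩

theorem dj_form {F : Fm V} {b : Bool} {p : Fm V × Bool} (h : p ∈ dj F b) :
    (∃ v, p.1 = .var v) ∨ ∃ A B, p.1 = .imp A B ∧ p.2 = false := by
  induction F generalizing b with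
  | var v =>
    simp only [dj, List.mem_singleton] at h
    exact Or.inl ⟨v, by rw [h]⟩
  | neg A ih => exact ih h
  | imp A B ihA ihB =>
    cases b with
    | true =>
      simp only [dj, List.mem_append] at h
      rcases h with h | h
      · exact ihA h
      · exact ihB h
    | false =>
      simp only [dj, List.mem_singleton] at h
      exact Or.inr ⟨A, B, by rw [h], by rw [h]⟩

theorem cj_dj {F : Fm V} {b : Bool} {p : Fm V × Bool} : p ∈ dj F b ↔ (p.1, !p.2) ∈ cj F (!b) := by
  induction F generalizing b with
  | var v =>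
    obtain ⟨q, c⟩ := p
    simp only [cj, dj, List.mem_singleton, Prod.mk.injEq]
    cases b <;> cases c <;> simp
  | neg A ih => exact ih
  | imp A B ihA ihB =>
    cases b with
    | true =>
      have h1 : p ∈ dj A false ↔ (p.1, !p.2) ∈ cj A true := ihA
      have h2 : p ∈ dj B true ↔ (p.1, !p.2) ∈ cj B false := ihB
      simp only [cj, dj, List.mem_append, Bool.not_true, h1, h2]
    | false =>
      obtain ⟨q, c⟩ := p
      simp only [cj, dj, List.mem_singleton, Prod.mk.injEq, Bool.not_false]
      cases c <;> simp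

theorem cj_alt {F : Fm V} {b : Bool} {p : Fm V × Bool} (h : p ∈ cj F b) : alt p.1 p.2 ≤ alt F b := by
  induction F generalizing b with
  | var v =>
    simp only [cj, List.mem_singleton] at h
    rw [h]
  | neg A ih => exact ih h
  | imp A B ihA ihB =>
    cases b with
    | false =>
      simp only [cj, List.mem_append] at h
      rcases h with h | h
      · exact (ihA h).trans (le_max_left _ _)
      · exact (ihB h).trans (le_max_right _ _)
    | true =>
      simp only [cj, List.mem_singleton] at h
      rw [h]

theorem cj_alt1 {A B : Fm V} {p : Fm V × Bool} (h : p ∈ cj (.imp A B) false) :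
    alt p.1 true + 1 ≤ alt (.imp A B) true ∧ alt p.1 false + 1 ≤ alt (.imp A B) true := by
  have h1 := cj_alt h
  have h2 : alt (Fm.imp A B) true = alt (Fm.imp A B) false + 1 := rfl
  rw [h2]
  rcases cj_form h with ⟨v, hv⟩ | ⟨C, E, hC, hp⟩
  · rw [hv]
    exact ⟨Nat.succ_le_succ (Nat.zero_le _), Nat.succ_le_succ (Nat.zero_le _)⟩
  · rw [hp, hC] at h1
    rw [hC]
    have h3 : alt (Fm.imp C E) true = alt (Fm.imp C E) false + 1 := rfl
    omega

theorem dj_alt {A B : Fm V} {p : Fm V × Bool} (h : p ∈ dj (.imp A B) true) :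
    alt p.1 p.2 + 1 ≤ alt (.imp A B) true := by
  obtain ⟨h1, h2⟩ := cj_alt1 (cj_dj.1 h)
  obtain ⟨q, c⟩ := p
  cases c with
  | true => exact h1
  | false => exact h2

private theorem lvs_append (l l' : List (Fm V × Bool)) : lvs (l ++ l') = lvs l + lvs l' := by
  simp [lvs]

private theorem lvs_one (F : Fm V) (b : Bool) : lvs [(F, b)] = F.leaves := by
  simp [lvs]

theorem cj_lvs (F : Fm V) (b : Bool) : lvs (cj F b) = F.leaves := by
  induction F generalizing b with
  | var v => exact lvs_one _ _
  | neg A ih => exact ih _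
  | imp A B ihA ihB =>
    cases b with
    | false =>
      simp only [cj, lvs_append, ihA, ihB]
      rfl
    | true => exact lvs_one _ _

theorem dj_lvs (F : Fm V) (b : Bool) : lvs (dj F b) = F.leaves := by
  induction F generalizing b with
  | var v => exact lvs_one _ _
  | neg A ih => exact ih _
  | imp A B ihA ihB =>
    cases b with
    | true =>
      simp only [dj, lvs_append, ihA, ihB]
      rfl
    | false => exact lvs_one _ _

theorem tr_cj {thr : ℕ → ℕ} {D : Finset (Fin n)} {x : Fin n → Bool} {F : Fm (Fin n)} {b : Bool} :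
    Tr Con thr D x F b false ↔ ∀ p ∈ cj F b, Tr Con thr D x p.1 p.2 false := by
  induction F generalizing b with
  | var v => simp [cj]
  | neg A ih => exact tr_neg.trans ih
  | imp A B ihA ihB =>
    cases b with
    | false =>
      rw [tr_impf, ihA, ihB]
      simp only [cj, List.forall_mem_append]
    | true => simp [cj]

theorem tr_dj {thr : ℕ → ℕ} {D : Finset (Fin n)} {x : Fin n → Bool} {F : Fm (Fin n)} {b : Bool} :
    Tr Con thr D x F b true ↔ ∃ p ∈ dj F b, Tr Con thr D x p.1 p.2 false := by
  induction F generalizing b with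
  | var v =>
    simp only [dj, List.mem_singleton, exists_eq_left]
    exact Iff.rfl
  | neg A ih => exact tr_neg.trans ih
  | imp A B ihA ihB =>
    cases b with
    | false =>
      simp only [dj, List.mem_singleton, exists_eq_left]
      exact Iff.rfl
    | true =>
      rw [tr_impn (by simp), ihA, ihB]
      simp only [dj, List.mem_append, or_and_right, exists_or]

end Pool.H6.LD
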