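import Mathlib
import Pool.Agent.H6.LD.Bsc

set_option autoImplicit false
set_option linter.unusedSectionVars false

/-!
# Module CNS (THEOREM LD): truth is consistent and compositional

Here `T` is a bound for all thresholds `thr l`, `l ≤ d`, and `F` has at most `d` alternations (`alt F true ≤ d`, `alt F false ≤ d`; this is inherited by
subformulas: `alt A false ≤ alt A true + 1` and `alt A true ≤ alt A false + 1`, structural induction, so for `imp A B` the numbers of `A` and `B` are at most those
of `imp A B`). PROOFS.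
* `tr_not_both`: structural induction on `F`, for all flags. Variable: `Wld.extS` gives a state above `D ∪ {v}` (`1 ≤ T`), its value at `v` is both `true` and `false`.
  `neg`: induction. `imp A B`: falsity is `Tr A true false ∧ Tr B false false`. If the truth is `Lt D x (imp A B) true` then `(D ∪ fv (imp A B)).card ≤ K` (`fv_card`,
  leaves `< thr (alt ..) ≤ T`), `Wld.extS` gives `y`; `Tr.lt` of both gives `A.eval y = true`, `B.eval y = false` (mono from `D ∪ fv A`), contradiction with
  `(imp A B).eval y = true`. Otherwise `Tr A false true ∨ Tr B true true`: induction hypotheses (all flags).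
* `tr_in`: by cases. `var`: nothing to do (same statement). `neg`: induction. `imp A B, false`: same statement by definition. `imp A B, true`: if it is true by `Lt`
  (small): take `D' = D ∪ fv (imp A B)` (`Wld.extS`), `(imp A B).eval y = true` by `Lt`, then `tr_full`. Otherwise the same statement.
* `tr_imp`: if `a = true`, `b = false`: the definition. Otherwise `!a || b = true` and `a = false` or `b = true`. If `imp A B` is small (leaves `< thr ..`): `Lt` by
  `Tr.lt` for `A` resp. `B` (`Wld.mono`). If not: `tr_in` for `A` (with `b = false`) resp. `B`.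
-/

namespace Pool.H6.LD

open Finset Classical Pool.Agent.H3.Frg Pool.Agent.H3.Frg2 Pool.Agent.H3.Frg4 Pool.Agent.H55.QT

variable {n K T d : ℕ} {Con : Finset (Fin n) → (Fin n → Bool) → Prop} {thr : ℕ → ℕ}

private theorem alt_pm {V : Type} (F : Fm V) :
    alt F false ≤ alt F true + 1 ∧ alt F true ≤ alt F false + 1 := by
  induction F with
  | var v => exact ⟨by simp [alt], by simp [alt]⟩
  | neg A ih =>
    simp only [alt, Bool.not_true, Bool.not_false]
    exact ⟨ih.2, ih.1⟩
  | imp A B _ _ =>
    simp only [alt]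
    omega

private theorem alt_sub {V : Type} {A B : Fm V} {d : ℕ} (h : alt (.imp A B) true ≤ d) :
    (alt A true ≤ d ∧ alt A false ≤ d) ∧ alt B true ≤ d ∧ alt B false ≤ d := by
  have h1 := alt_pm A
  have h2 := alt_pm B
  simp only [alt] at h
  omega

private theorem fv_l {V : Type} (A B : Fm V) : fv A ⊆ fv (.imp A B) := by
  intro v hv
  simp only [fv, mem_union]
  exact Or.inl hv

private theorem fv_r {V : Type} (A B : Fm V) : fv B ⊆ fv (.imp A B) := by
  intro v hv
  simp only [fv, mem_union]
  exact Or.inr hv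

private theorem ext_small (h : Wld Con K) (hT : ∀ l ≤ d, thr l ≤ T) {D : Finset (Fin n)}
    {x : Fin n → Bool} {F : Fm (Fin n)} (hF : alt F true ≤ d) (hD : D.card + T ≤ K) (hc : Con D x)
    (hs : F.leaves < thr (alt F true)) :
    ∃ y, (D ∪ fv F).card ≤ D.card + T ∧ (∀ w ∈ D, y w = x w) ∧ Con (D ∪ fv F) y := by
  have h1 := card_union_le D (fv F)
  have h2 := fv_card F
  have h3 := hT _ hF
  have h4 : (D ∪ fv F).card ≤ D.card + T := by omega
  obtain ⟨y, hy1, hy2⟩ := h.extS (h4.trans hD) hc
  exact ⟨y, h4, hy1, hy2⟩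

theorem tr_not_both (h : Wld Con K) (hT : ∀ l ≤ d, thr l ≤ T) (hT1 : 1 ≤ T) {D : Finset (Fin n)}
    {x : Fin n → Bool} {F : Fm (Fin n)} {i j : Bool} (hF : alt F true ≤ d) (hF' : alt F false ≤ d)
    (hD : D.card + T ≤ K) (hc : Con D x) (h1 : Tr Con thr D x F true i) (h2 : Tr Con thr D x F false j) :
    False := by
  induction F generalizing i j with
  | var v =>
    simp only [Tr] at h1 h2
    have h3 := card_union_le D {v}
    rw [card_singleton] at h3
    obtain ⟨y, hy1, hy2⟩ := h.extS (S := {v}) (by omega) hc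
    have h4 := h1 y hy1 hy2
    have h5 := h2 y hy1 hy2
    rw [h4] at h5
    exact Bool.noConfusion h5
  | neg A ih =>
    simp only [Tr, Bool.not_true, Bool.not_false] at h1 h2
    simp only [alt, Bool.not_true, Bool.not_false] at hF hF'
    exact ih hF' hF h2 h1
  | imp A B ihA ihB =>
    obtain ⟨⟨hA1, hA2⟩, hB1, hB2⟩ := alt_sub hF
    simp only [Tr] at h1 h2
    split_ifs at h1 with hs
    · obtain ⟨y, -, hy1, hy2⟩ := ext_small h hT hF hD hc hs.2
      have h3 := h1 y hy1 hy2
      have h4 : A.eval y = true := h2.1.lt h y hy1 (h.mono _ _ _ (union_subset_union_right (fv_l A B)) hy2)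
      have h5 : B.eval y = false := h2.2.lt h y hy1 (h.mono _ _ _ (union_subset_union_right (fv_r A B)) hy2)
      simp only [Fm.eval, h4, h5] at h3
      exact Bool.noConfusion h3
    · rcases h1 with h1 | h1
      · exact ihA hA1 hA2 h2.1 h1
      · exact ihB hB1 hB2 h1 h2.2

theorem tr_in (h : Wld Con K) (hT : ∀ l ≤ d, thr l ≤ T) {D : Finset (Fin n)}
    {x : Fin n → Bool} {F : Fm (Fin n)} {b : Bool} (hF : alt F true ≤ d) (hF' : alt F false ≤ d)
    (hD : D.card + T ≤ K) (hc : Con D x) (h1 : Tr Con thr D x F b false) :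
    ∃ D' y, D ⊆ D' ∧ D'.card ≤ D.card + T ∧ (∀ v ∈ D, y v = x v) ∧ Con D' y ∧
      Tr Con thr D' y F b true := by
  induction F generalizing b with
  | var v =>
    refine ⟨D, x, Subset.refl _, Nat.le_add_right _ _, fun _ _ => rfl, hc, ?_⟩
    simp only [Tr] at h1 ⊢
    exact h1
  | neg A ih =>
    simp only [Tr] at h1 ⊢
    simp only [alt, Bool.not_true, Bool.not_false] at hF hF'
    exact ih hF' hF h1
  | imp A B _ _ =>
    cases b with
    | false =>
      refine ⟨D, x, Subset.refl _, Nat.le_add_right _ _, fun _ _ => rfl, hc, ?_⟩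
      simp only [Tr] at h1 ⊢
      exact h1
    | true =>
      simp only [Tr] at h1
      split_ifs at h1 with hs
      · obtain ⟨y, hcard, hy1, hy2⟩ := ext_small h hT hF hD hc hs.2
        refine ⟨D ∪ fv (.imp A B), y, subset_union_left, hcard, hy1, hy2, ?_⟩
        exact tr_full h subset_union_right (h1 y hy1 hy2)
      · refine ⟨D, x, Subset.refl _, Nat.le_add_right _ _, fun _ _ => rfl, hc, ?_⟩
        simp only [Tr]
        rw [if_neg (fun h2 => Bool.noConfusion h2.1)]
        exact h1

theorem tr_imp (h : Wld Con K) (hT : ∀ l ≤ d, thr l ≤ T) {D : Finset (Fin n)}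
    {x : Fin n → Bool} {A B : Fm (Fin n)} {a b : Bool} (hF : alt (.imp A B) true ≤ d)
    (hD : D.card + T ≤ K) (hc : Con D x) (h1 : Tr Con thr D x A a false)
    (h2 : Tr Con thr D x B b false) :
    ∃ D' y, D ⊆ D' ∧ D'.card ≤ D.card + T ∧ (∀ v ∈ D, y v = x v) ∧ Con D' y ∧
      Tr Con thr D' y (.imp A B) (!a || b) false := by
  obtain ⟨⟨hA1, hA2⟩, hB1, hB2⟩ := alt_sub hF
  have key : (a = false ∨ b = true) → ∃ D' y, D ⊆ D' ∧ D'.card ≤ D.card + T ∧
      (∀ v ∈ D, y v = x v) ∧ Con D' y ∧ Tr Con thr D' y (.imp A B) true false := by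
    intro hab
    by_cases hs : (Fm.imp A B).leaves < thr (alt (Fm.imp A B) true)
    · refine ⟨D, x, Subset.refl _, Nat.le_add_right _ _, fun _ _ => rfl, hc, ?_⟩
      simp only [Tr]
      rw [if_pos ⟨trivial, hs⟩]
      intro y hy1 hy2
      rcases hab with ha | hb
      · subst ha
        have h4 : A.eval y = false := h1.lt h y hy1 (h.mono _ _ _ (union_subset_union_right (fv_l A B)) hy2)
        simp only [Fm.eval, h4, Bool.not_false, Bool.true_or]
      · subst hb
        have h5 : B.eval y = true := h2.lt h y hy1 (h.mono _ _ _ (union_subset_union_right (fv_r A B)) hy2)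
        simp only [Fm.eval, h5, Bool.or_true]
    · rcases hab with ha | hb
      · subst ha
        obtain ⟨D', y, g1, g2, g3, g4, g5⟩ := tr_in h hT hA1 hA2 hD hc h1
        refine ⟨D', y, g1, g2, g3, g4, ?_⟩
        simp only [Tr]
        rw [if_neg (fun h3 => hs h3.2)]
        exact Or.inl g5
      · subst hb
        obtain ⟨D', y, g1, g2, g3, g4, g5⟩ := tr_in h hT hB1 hB2 hD hc h2
        refine ⟨D', y, g1, g2, g3, g4, ?_⟩
        simp only [Tr]
        rw [if_neg (fun h3 => hs h3.2)]
        exact Or.inr g5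
  cases a with
  | false => exact key (Or.inl rfl)
  | true =>
    cases b with
    | true => exact key (Or.inr rfl)
    | false =>
      refine ⟨D, x, Subset.refl _, Nat.le_add_right _ _, fun _ _ => rfl, hc, ?_⟩
      show Tr Con thr D x (.imp A B) false false
      simp only [Tr]
      exact ⟨h1, h2⟩

end Pool.H6.LD
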