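import Mathlib
import Pool.Agent.H6.LD.Bsc

set_option autoImplicit false
set_option linter.unusedSectionVars false

/-!
# Module DEC (THEOREM LD): every state extends by few variables to one which decides a given formula

`kap thr l = ∑ i < l - 1, thr i / thr (i + 1)`. `decide1`: for `F` with `l = alt F true ≥ alt F false` or the other way round (`l := max (alt F true) (alt F false)`)
the extension has at most `kap thr l * F.leaves + thr (l - 1)` further variables (as real numbers).

PROOF. Strong induction on the size of `F` (structural induction also works, for all states). `F = neg A`: `Tr (neg A) b i = Tr A (!b) i`, `alt` is exchanged. `F = var v`: extend by `v`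
(`Wld.ext`), the state decides `v` (`tr_full` with `b := y v`); cost `1 ≤ thr 0`. `F = imp A B`: `l = alt F true = alt F false + 1`, `l ≥ 1`. Let `Lc = cj (imp A B) false`; its members
are `(G, c)` with `G` a variable or `G = imp _ _`, `c = true` (`cj_form`), `G.leaves ≤ F.leaves`, `G` is a proper subformula (smaller size), `alt G true, alt G false ≤ l - 1` (`cj_alt1`).
Call `(G, c)` small if `G` is a variable or `G.leaves < thr (alt G true)`; then `(fv G).card < thr (l - 1)` resp. `≤ 1`.
CASE 1: some small `(G, c)` is not `Lt` at `(D, x)`: there is `y`, `y = x` on `D`, `Con (D ∪ fv G) y`, `G.eval y = !c`. State `D' = D ∪ fv G`, `y`. CLAIM `Tr D' y F true false`: if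
`F.leaves < thr (alt F true)` then `Lt`: at every state `z` above, `G.eval z = !c` (`ev_congr`), hence `F.eval z = true` (lemma `cj_eval`: if all conjuncts... : `F.eval z = false` iff all
`(G, c) ∈ cj F false` have `G.eval z = c`; structural induction, general `b`). Otherwise `Tr A false true ∨ Tr B true true`, i.e. by `tr_dj`, `cj_dj` it is enough that
`(G, !c) ∈ dj (imp A B) true` is true at `(D', y)`: `tr_full`.
CASE 2: all small members are `Lt`. Decide the large members one after the other (list induction over `Lc`; the states grow). If some `(G, c)` is decided with the value `!c`, i.e.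
`Tr D' y G (!c) false`: CLAIM `Tr D' y F true false`: if `F.leaves < thr ..` then `Lt` by `Tr.lt` and `cj_eval`; otherwise `tr_dj` as above. If all are decided with value `c` then
`Tr D' y F false false` by `tr_cj` (a small member is `Lt` at `(D', y)` by `Lt.mono`, and for small `G` `Tr G c false` is `Lt` by definition; for a variable also).
COST: a large `G` has `l' = alt G true ≥ 1`, `l' ≤ l - 1`, `G.leaves ≥ thr l'`, cost at most `kap thr l' * G.leaves + thr (l' - 1) ≤ (kap thr l' + thr (l' - 1) / thr l') * G.leaves =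
kap thr (l' + 1) * G.leaves ≤ kap thr l * G.leaves`; the sum over the list is at most `kap thr l * F.leaves` (`cj_lvs`). Case 1 costs at most `thr (l - 1)` (variables: `1 ≤ thr 0 ≤ thr (l - 1)`).
`decide_`: corollary with an integer bound: `kap thr l ≤ θ` for `l ≤ d + 1`... (`θ ≥ ∑ i < d, thr i / thr (i + 1)`).
-/

namespace Pool.H6.LD

open Finset Classical Pool.Agent.H3.Frg Pool.Agent.H3.Frg2 Pool.Agent.H3.Frg4 Pool.Agent.H55.QT

variable {n K : ℕ} {Con : Finset (Fin n) → (Fin n → Bool) → Prop} {thr : ℕ → ℕ}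

/-- the sum of the quotients of successive thresholds -/
noncomputable def kap (thr : ℕ → ℕ) (l : ℕ) : ℝ := ∑ i ∈ range (l - 1), (thr i : ℝ) / thr (i + 1)

theorem cj_eval {V : Type} {F : Fm V} {b : Bool} {z : V → Bool} :
    F.eval z = b ↔ ∀ p ∈ cj F b, p.1.eval z = p.2 := by
  induction F generalizing b with
  | var v =>
    unfold cj
    simp only [List.mem_singleton, forall_eq]
  | neg A ih =>
    have h1 : cj (Fm.neg A) b = cj A (!b) := by cases b <;> rfl
    rw [h1, ← ih]
    show (!(A.eval z)) = b ↔ _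
    cases A.eval z <;> cases b <;> simp
  | imp A B ihA ihB =>
    cases b with
    | false =>
      have h1 : cj (Fm.imp A B) false = cj A true ++ cj B false := rfl
      rw [h1]
      have h2 : (∀ p ∈ cj A true ++ cj B false, p.1.eval z = p.2) ↔
          (∀ p ∈ cj A true, p.1.eval z = p.2) ∧ ∀ p ∈ cj B false, p.1.eval z = p.2 := by
        simp only [List.mem_append, or_imp, forall_and]
      rw [h2, ← ihA, ← ihB]
      show (!(A.eval z) || B.eval z) = false ↔ _
      cases A.eval z <;> cases B.eval z <;> simp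
    | true =>
      have h1 : cj (Fm.imp A B) true = [(Fm.imp A B, true)] := rfl
      rw [h1]
      simp only [List.mem_singleton, forall_eq]

private theorem cj_fv {V : Type} {F : Fm V} {b : Bool} {p : Fm V × Bool} (h : p ∈ cj F b) : fv p.1 ⊆ fv F := by
  induction F generalizing b with
  | var v =>
    have h1 : cj (Fm.var v) b = [(Fm.var v, b)] := by cases b <;> rfl
    rw [h1, List.mem_singleton] at h
    rw [h]
  | neg A ih =>
    have h1 : cj (Fm.neg A) b = cj A (!b) := by cases b <;> rfl
    rw [h1] at h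
    exact ih h
  | imp A B ihA ihB =>
    cases b with
    | false =>
      have h1 : cj (Fm.imp A B) false = cj A true ++ cj B false := rfl
      rw [h1, List.mem_append] at h
      have h2 : fv (Fm.imp A B) = fv A ∪ fv B := rfl
      rw [h2]
      rcases h with h | h
      · exact (ihA h).trans subset_union_left
      · exact (ihB h).trans subset_union_right
    | true =>
      have h1 : cj (Fm.imp A B) true = [(Fm.imp A B, true)] := rfl
      rw [h1, List.mem_singleton] at h
      rw [h]

private theorem kap_nonneg (thr : ℕ → ℕ) (l : ℕ) : 0 ≤ kap thr l :=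
  Finset.sum_nonneg fun _ _ => div_nonneg (Nat.cast_nonneg _) (Nat.cast_nonneg _)

private theorem kap_mono (thr : ℕ → ℕ) {l l' : ℕ} (h : l ≤ l') : kap thr l ≤ kap thr l' := by
  unfold kap
  refine Finset.sum_le_sum_of_subset_of_nonneg ?_ fun _ _ _ => div_nonneg (Nat.cast_nonneg _) (Nat.cast_nonneg _)
  exact Finset.range_subset_range.2 (by omega)

private theorem kap_succ (thr : ℕ → ℕ) {l : ℕ} (h : 1 ≤ l) :
    kap thr (l + 1) = kap thr l + (thr (l - 1) : ℝ) / thr l := by
  obtain ⟨k, rfl⟩ : ∃ k, l = k + 1 := ⟨l - 1, by omega⟩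
  unfold kap
  have h1 : k + 1 + 1 - 1 = k + 1 := by omega
  have h2 : k + 1 - 1 = k := by omega
  rw [h1, h2, Finset.sum_range_succ]

/-- the statement for one formula -/
private def Pd (Con : Finset (Fin n) → (Fin n → Bool) → Prop) (thr : ℕ → ℕ) (K : ℕ) (F : Fm (Fin n)) : Prop :=
  ∀ (D : Finset (Fin n)) (x : Fin n → Bool),
    (D.card : ℝ) + kap thr (max (alt F true) (alt F false)) * F.leaves +
      thr (max (alt F true) (alt F false) - 1) ≤ K → Con D x →
    ∃ D' y, D ⊆ D' ∧ (D'.card : ℝ) ≤ D.card + kap thr (max (alt F true) (alt F false)) * F.leaves +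
        thr (max (alt F true) (alt F false) - 1) ∧
      (∀ v ∈ D, y v = x v) ∧ Con D' y ∧ (Tr Con thr D' y F true false ∨ Tr Con thr D' y F false false)

private theorem clm (h : Wld Con K) {A B G : Fm (Fin n)} {c : Bool} {D : Finset (Fin n)} {y : Fin n → Bool}
    (hG : (G, c) ∈ cj (.imp A B) false) (hT : Tr Con thr D y G (!c) false) :
    Tr Con thr D y (.imp A B) true false := by
  have h1 : Tr Con thr D y (.imp A B) true true := by
    rw [tr_dj]
    refine ⟨(G, !c), ?_, hT⟩
    rw [cj_dj]
    show (G, !!c) ∈ cj (.imp A B) (!true)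
    rw [Bool.not_not]
    exact hG
  unfold Tr at h1 ⊢
  rw [if_neg (fun h2 => by cases h2.1)] at h1
  split_ifs with h2
  · intro z hz hcz
    by_contra hne
    rw [Bool.not_eq_true] at hne
    have h3 := (cj_eval.1 hne) (G, c) hG
    have h4 := Tr.lt h hT z hz (h.mono _ _ _ (union_subset_union_right (cj_fv hG)) hcz)
    dsimp only at h3
    rw [h3] at h4
    cases c <;> cases h4
  · exact h1

/-- small members -/
private def Sm (thr : ℕ → ℕ) (G : Fm (Fin n)) : Prop := (∃ v, G = .var v) ∨ G.leaves < thr (alt G true)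

private theorem sm_tr {D : Finset (Fin n)} {x : Fin n → Bool} {G : Fm (Fin n)} {c : Bool}
    (hf : (∃ v, G = .var v) ∨ ∃ A B, G = .imp A B ∧ c = true) (hs : Sm thr G) (hl : Lt Con D x G c) :
    Tr Con thr D x G c false := by
  rcases hf with ⟨v, rfl⟩ | ⟨A, B, rfl, rfl⟩
  · unfold Tr
    exact hl
  · unfold Tr
    rcases hs with ⟨v, hv⟩ | hs
    · cases hv
    · rw [if_pos ⟨rfl, hs⟩]
      exact hl

private theorem dlist (h : Wld Con K) (hmono : Monotone thr) (h0 : 2 ≤ thr 0) (l : ℕ) (L : List (Fm (Fin n) × Bool))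
    (hf : ∀ p ∈ L, (∃ v, p.1 = .var v) ∨ ∃ A B, p.1 = .imp A B ∧ p.2 = true)
    (ha : ∀ p ∈ L, alt p.1 true + 1 ≤ l) (hP : ∀ p ∈ L, Pd Con thr K p.1) :
    ∀ (D : Finset (Fin n)) (x : Fin n → Bool), (D.card : ℝ) + kap thr l * lvs L ≤ K → Con D x →
      (∀ p ∈ L, Sm thr p.1 → Lt Con D x p.1 p.2) →
      ∃ D' y, D ⊆ D' ∧ (D'.card : ℝ) ≤ D.card + kap thr l * lvs L ∧ (∀ v ∈ D, y v = x v) ∧ Con D' y ∧
        ((∃ p ∈ L, Tr Con thr D' y p.1 (!p.2) false) ∨ ∀ p ∈ L, Tr Con thr D' y p.1 p.2 false) := by
  induction L with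
  | nil =>
    intro D x hD hc _
    refine ⟨D, x, Subset.refl _, ?_, fun _ _ => rfl, hc, Or.inr fun p hp => ?_⟩
    · have h1 := kap_nonneg thr l
      have h2 : lvs ([] : List (Fm (Fin n) × Bool)) = 0 := rfl
      rw [h2, Nat.cast_zero, mul_zero, add_zero]
    · cases hp
  | cons p L ih =>
    intro D x hD hc hL
    have hk := kap_nonneg thr l
    have e1 : lvs (p :: L) = p.1.leaves + lvs L := rfl
    rw [e1, Nat.cast_add] at hD
    have hL0 : (0 : ℝ) ≤ lvs L := Nat.cast_nonneg _
    have hp0 : (0 : ℝ) ≤ p.1.leaves := Nat.cast_nonneg _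
    have ih' := ih (fun q hq => hf q (List.mem_cons_of_mem _ hq)) (fun q hq => ha q (List.mem_cons_of_mem _ hq))
      (fun q hq => hP q (List.mem_cons_of_mem _ hq))
    have hkp : 0 ≤ kap thr l * p.1.leaves := mul_nonneg hk hp0
    have hkL : 0 ≤ kap thr l * lvs L := mul_nonneg hk hL0
    have step : ∀ (D₁ : Finset (Fin n)) (y₁ : Fin n → Bool), D ⊆ D₁ →
        (D₁.card : ℝ) ≤ D.card + kap thr l * p.1.leaves → (∀ v ∈ D, y₁ v = x v) → Con D₁ y₁ →
        Tr Con thr D₁ y₁ p.1 p.2 false →
        ∃ D' y, D ⊆ D' ∧ (D'.card : ℝ) ≤ D.card + kap thr l * lvs (p :: L) ∧ (∀ v ∈ D, y v = x v) ∧ Con D' y ∧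
        ((∃ q ∈ p :: L, Tr Con thr D' y q.1 (!q.2) false) ∨ ∀ q ∈ p :: L, Tr Con thr D' y q.1 q.2 false) := by
      intro D₁ y₁ hD₁ hc₁ hy₁ hcon₁ hT
      obtain ⟨D', y, h1, h2, h3, h4, h5⟩ := ih' D₁ y₁ (by nlinarith) hcon₁
        (fun q hq hs => Lt.mono h hD₁ hy₁ (hL q (List.mem_cons_of_mem _ hq) hs))
      refine ⟨D', y, hD₁.trans h1, ?_, fun v hv => (h3 v (hD₁ hv)).trans (hy₁ v hv), h4, ?_⟩
      · rw [e1, Nat.cast_add]
        nlinarith
      · rcases h5 with ⟨q, hq, h5⟩ | h5
        · exact Or.inl ⟨q, List.mem_cons_of_mem _ hq, h5⟩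
        · refine Or.inr fun q hq => ?_
          rcases List.mem_cons.1 hq with hqp | hq
          · rw [hqp]
            exact Tr.mono h h1 h3 hT
          · exact h5 q hq
    by_cases hs : Sm thr p.1
    · have h7 : (D.card : ℝ) ≤ D.card + kap thr l * p.1.leaves := by linarith
      refine step D x (Subset.refl _) h7 (fun _ _ => rfl) hc ?_
      exact sm_tr (hf p List.mem_cons_self) hs (hL p List.mem_cons_self hs)
    · have hform : ∃ A B, p.1 = .imp A B ∧ p.2 = true := by
        rcases hf p List.mem_cons_self with h1 | h1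
        · exact absurd (Or.inl h1) hs
        · exact h1
      obtain ⟨A, B, hAB, hc2⟩ := hform
      have hlv : thr (alt p.1 true) ≤ p.1.leaves := by
        by_contra h1
        exact hs (Or.inr (not_le.1 h1))
      have hal := ha p List.mem_cons_self
      have e2 : alt p.1 true = alt p.1 false + 1 := by
        rw [hAB]
        rfl
      obtain ⟨l', hl'⟩ : ∃ l', l' = alt p.1 true := ⟨_, rfl⟩
      have e3 : max (alt p.1 true) (alt p.1 false) = l' := by omega
      have hl1 : 1 ≤ l' := by omega
      rw [← hl'] at hlv hal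
      have hthr : (0 : ℝ) < thr l' := by
        have h1 := hmono (Nat.zero_le l')
        exact_mod_cast (show 0 < thr l' by omega)
      have hlv' : (thr l' : ℝ) ≤ p.1.leaves := by exact_mod_cast hlv
      have hq : (thr (l' - 1) : ℝ) ≤ (thr (l' - 1) : ℝ) / thr l' * p.1.leaves := by
        rw [div_mul_eq_mul_div, le_div_iff₀ hthr]
        exact mul_le_mul_of_nonneg_left hlv' (Nat.cast_nonneg _)
      have hcost : kap thr l' * p.1.leaves + thr (l' - 1) ≤ kap thr l * p.1.leaves := by
        have h1 := kap_mono thr (show l' + 1 ≤ l from hal)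
        rw [kap_succ thr hl1] at h1
        have h2 := mul_le_mul_of_nonneg_right h1 hp0
        rw [add_mul] at h2
        linarith
      have hPp := hP p List.mem_cons_self D x
      rw [e3] at hPp
      obtain ⟨D₁, y₁, h1, h2, h3, h4, h5⟩ := hPp (by nlinarith) hc
      have h6 : (D₁.card : ℝ) ≤ D.card + kap thr l * p.1.leaves := by linarith
      rcases h5 with h5 | h5
      · exact step D₁ y₁ h1 h6 h3 h4 (by rw [hc2]; exact h5)
      · refine ⟨D₁, y₁, h1, ?_, h3, h4, Or.inl ⟨p, List.mem_cons_self, ?_⟩⟩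
        · rw [e1, Nat.cast_add]
          nlinarith
        · rw [hc2]
          exact h5

private theorem lvs_mem {V : Type} {L : List (Fm V × Bool)} {p : Fm V × Bool} (h : p ∈ L) : p.1.leaves ≤ lvs L := by
  unfold lvs
  exact List.single_le_sum (fun _ _ => Nat.zero_le _) _ (List.mem_map.2 ⟨p, h, rfl⟩)

private theorem dimp (h : Wld Con K) (hmono : Monotone thr) (h0 : 2 ≤ thr 0) (A B : Fm (Fin n))
    (hP : ∀ p ∈ cj (.imp A B) false, Pd Con thr K p.1) : Pd Con thr K (.imp A B) := by
  intro D x hD hc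
  have e2 : alt (Fm.imp A B) true = alt (Fm.imp A B) false + 1 := rfl
  have e3 : max (alt (Fm.imp A B) true) (alt (Fm.imp A B) false) = alt (Fm.imp A B) true := by omega
  rw [e3] at hD ⊢
  obtain ⟨l, hl⟩ : ∃ l, l = alt (Fm.imp A B) true := ⟨_, rfl⟩
  rw [← hl] at hD ⊢
  have hk := kap_nonneg thr l
  have hF0 : (0 : ℝ) ≤ (Fm.imp A B).leaves := Nat.cast_nonneg _
  have ht0 : (0 : ℝ) ≤ thr (l - 1) := Nat.cast_nonneg _
  have hkF : 0 ≤ kap thr l * (Fm.imp A B).leaves := mul_nonneg hk hF0
  by_cases hsm : ∀ p ∈ cj (.imp A B) false, Sm thr p.1 → Lt Con D x p.1 p.2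
  · have hlv : lvs (cj (Fm.imp A B) false) = (Fm.imp A B).leaves := cj_lvs _ _
    have hh := dlist h hmono h0 l (cj (.imp A B) false) (fun p hp => cj_form hp)
      (fun p hp => by rw [hl]; exact (cj_alt1 hp).1) hP D x
    rw [hlv] at hh
    obtain ⟨D', y, h1, h2, h3, h4, h5⟩ := hh (by linarith) hc hsm
    refine ⟨D', y, h1, by linarith, h3, h4, ?_⟩
    rcases h5 with ⟨p, hp, h5⟩ | h5
    · exact Or.inl (clm h (show (p.1, p.2) ∈ _ from hp) h5)
    · exact Or.inr (tr_cj.2 h5)
  · push Not at hsm
    obtain ⟨p, hp, hs, hnl⟩ := hsm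
    unfold Lt at hnl
    push Not at hnl
    obtain ⟨y, hy, hcy, hev⟩ := hnl
    have hcard : ((fv p.1).card : ℝ) ≤ thr (l - 1) := by
      rcases hs with ⟨v, hv⟩ | hs
      · rw [hv]
        have h1 : (fv (Fm.var v)).card = 1 := card_singleton v
        rw [h1]
        have h2 := hmono (Nat.zero_le (l - 1))
        exact_mod_cast (show 1 ≤ thr (l - 1) by omega)
      · have h1 := fv_card p.1
        have h2 := (cj_alt1 hp).1
        rw [← hl] at h2
        have h3 := hmono (show alt p.1 true ≤ l - 1 by omega)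
        exact_mod_cast (show (fv p.1).card ≤ thr (l - 1) by omega)
    refine ⟨D ∪ fv p.1, y, subset_union_left, ?_, hy, hcy, Or.inl ?_⟩
    · have h1 : ((D ∪ fv p.1).card : ℝ) ≤ D.card + (fv p.1).card := by exact_mod_cast card_union_le D (fv p.1)
      linarith
    · refine clm h (show (p.1, p.2) ∈ _ from hp) (tr_full h subset_union_right ?_)
      cases h1 : p.1.eval y <;> cases h2 : p.2 <;> simp_all

private theorem dall (h : Wld Con K) (hmono : Monotone thr) (h0 : 2 ≤ thr 0) (F : Fm (Fin n)) :
    Pd Con thr K F ∧ ∀ b, ∀ p ∈ cj F b, Pd Con thr K p.1 := by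
  induction F with
  | var v =>
    have hP : Pd Con thr K (.var v) := by
      intro D x hD hc
      have e1 : max (alt (Fm.var v) true) (alt (Fm.var v) false) = 0 := rfl
      have e2 : kap thr 0 = 0 := rfl
      rw [e1, e2, zero_mul, add_zero] at hD ⊢
      have e3 : (0 : ℕ) - 1 = 0 := rfl
      rw [e3] at hD ⊢
      have ht : (2 : ℝ) ≤ thr 0 := by exact_mod_cast h0
      have hlt : D.card < K := by
        have h1 : (D.card : ℝ) < K := by linarith
        exact_mod_cast h1
      obtain ⟨y, hy, hcy⟩ := h.ext D x v hlt hc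
      refine ⟨insert v D, y, subset_insert v D, ?_, hy, hcy, ?_⟩
      · have h1 : ((insert v D).card : ℝ) ≤ D.card + 1 := by exact_mod_cast card_insert_le v D
        linarith
      · have h2 : fv (Fm.var v) ⊆ insert v D := by
          show ({v} : Finset (Fin n)) ⊆ insert v D
          exact singleton_subset_iff.2 (mem_insert_self v D)
        cases hb : (Fm.var v).eval y
        · exact Or.inr (tr_full h h2 hb)
        · exact Or.inl (tr_full h h2 hb)
    refine ⟨hP, fun b p hp => ?_⟩
    have h1 : cj (Fm.var v) b = [(Fm.var v, b)] := by cases b <;> rfl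
    rw [h1, List.mem_singleton] at hp
    rw [hp]
    exact hP
  | neg A ih =>
    refine ⟨?_, fun b p hp => ?_⟩
    · intro D x hD hc
      have e1 : max (alt (Fm.neg A) true) (alt (Fm.neg A) false) = max (alt A true) (alt A false) := by
        show max (alt A false) (alt A true) = _
        exact max_comm _ _
      have e2 : (Fm.neg A).leaves = A.leaves := rfl
      rw [e1, e2] at hD ⊢
      obtain ⟨D', y, h1, h2, h3, h4, h5⟩ := ih.1 D x hD hc
      refine ⟨D', y, h1, h2, h3, h4, ?_⟩
      rcases h5 with h5 | h5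
      · refine Or.inr ?_
        unfold Tr
        exact h5
      · refine Or.inl ?_
        unfold Tr
        exact h5
    · have h1 : cj (Fm.neg A) b = cj A (!b) := by cases b <;> rfl
      rw [h1] at hp
      exact ih.2 _ p hp
  | imp A B ihA ihB =>
    have hP : ∀ p ∈ cj (.imp A B) false, Pd Con thr K p.1 := by
      intro p hp
      have h1 : cj (Fm.imp A B) false = cj A true ++ cj B false := rfl
      rw [h1, List.mem_append] at hp
      rcases hp with hp | hp
      · exact ihA.2 _ p hp
      · exact ihB.2 _ p hp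
    have hI := dimp h hmono h0 A B hP
    refine ⟨hI, fun b p hp => ?_⟩
    cases b with
    | false => exact hP p hp
    | true =>
      have h1 : cj (Fm.imp A B) true = [(Fm.imp A B, true)] := rfl
      rw [h1, List.mem_singleton] at hp
      rw [hp]
      exact hI

theorem decide1 (h : Wld Con K) (hmono : Monotone thr) (h0 : 2 ≤ thr 0) (F : Fm (Fin n)) (l : ℕ)
    (hl : l = max (alt F true) (alt F false)) (D : Finset (Fin n)) (x : Fin n → Bool)
    (hD : (D.card : ℝ) + kap thr l * F.leaves + thr (l - 1) ≤ K) (hc : Con D x) :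
    ∃ D' y, D ⊆ D' ∧ (D'.card : ℝ) ≤ D.card + kap thr l * F.leaves + thr (l - 1) ∧
      (∀ v ∈ D, y v = x v) ∧ Con D' y ∧ (Tr Con thr D' y F true false ∨ Tr Con thr D' y F false false) := by
  subst hl
  exact (dall h hmono h0 F).1 D x hD hc

theorem decide2 (h : Wld Con K) (hmono : Monotone thr) (h0 : 2 ≤ thr 0) {d k : ℕ} {θ : ℝ} {s : ℝ}
    (hθ : ∑ i ∈ range d, (thr i : ℝ) / thr (i + 1) ≤ θ) {F : Fm (Fin n)} (hF : alt F true ≤ d)
    (hF' : alt F false ≤ d) (hs : (F.leaves : ℝ) ≤ s) (hk : θ * s + thr d ≤ k) {D : Finset (Fin n)}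
    {x : Fin n → Bool} (hD : D.card + k ≤ K) (hc : Con D x) :
    ∃ D' y, D ⊆ D' ∧ D'.card ≤ D.card + k ∧ (∀ v ∈ D, y v = x v) ∧ Con D' y ∧
      (Tr Con thr D' y F true false ∨ Tr Con thr D' y F false false) := by
  obtain ⟨l, hl⟩ : ∃ l, l = max (alt F true) (alt F false) := ⟨_, rfl⟩
  have hld : l ≤ d := by omega
  have hk0 := kap_nonneg thr l
  have hkap : kap thr l ≤ θ := by
    refine le_trans ?_ hθ
    unfold kap
    refine Finset.sum_le_sum_of_subset_of_nonneg ?_ fun _ _ _ => div_nonneg (Nat.cast_nonneg _) (Nat.cast_nonneg _)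
    exact Finset.range_subset_range.2 (by omega)
  have hF0 : (0 : ℝ) ≤ F.leaves := Nat.cast_nonneg _
  have h1 : kap thr l * F.leaves ≤ θ * s := mul_le_mul hkap hs hF0 (hk0.trans hkap)
  have h2 : (thr (l - 1) : ℝ) ≤ thr d := by exact_mod_cast hmono (show l - 1 ≤ d by omega)
  have hD' : (D.card : ℝ) + k ≤ K := by exact_mod_cast hD
  obtain ⟨D', y, h3, h4, h5, h6, h7⟩ := decide1 h hmono h0 F l hl D x (by linarith) hc
  refine ⟨D', y, h3, ?_, h5, h6, h7⟩
  have h8 : (D'.card : ℝ) ≤ D.card + k := by linarith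
  exact_mod_cast h8

end Pool.H6.LD
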