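import Mathlib
import Pool.Agent.H6.LD.Cns
import Pool.Agent.H6.LD.Dec

set_option autoImplicit false
set_option linter.unusedSectionVars false

/-!
# Module AXM (THEOREM LD): instances of sound schemes are never false; modus ponens; clauses

Setting as in `decide2` (`θ s + thr d ≤ k`) and `T = thr d` (`hmono`: `thr l ≤ thr d` for `l ≤ d`; `thr d ≤ k`). PROOFS.
* `ax_not_false`: suppose `Tr D x (ψ.bind σ) false false`. Step 1: the metavariables `i` of `ψ` (finset `fv ψ`, at most `ψ.leaves ≤ k0` of them): decide `σ i` one after the other with `decide2`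
  (`σ i` is a subformula of `ψ.bind σ`: `(σ i).leaves ≤ (ψ.bind σ).leaves`, alternations at most `d`: structural induction on `ψ`, using `alt A false ≤ alt A true + 1` etc.); cost at most `k0 * k`; get
  a valuation `v : ℕ → Bool` and a state `(D1, y1)` with `Tr D1 y1 (σ i) (v i) false` for all `i ∈ fv ψ`. Step 2: structural induction on the subformulas `χ` of `ψ`: every state above `(D1, y1)` with room for
  `χ.len * thr d` variables extends by at most `χ.len * thr d` variables to a state with `Tr (χ.bind σ) (χ.eval v) false`: variable: `Tr.mono`; `neg`: the same state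
  (`Tr (neg A) (!b) i = Tr A b i`); `imp`: first `A`, then `B`, then `tr_imp` (note that truth stays by `Tr.mono`). For `χ = ψ`: `ψ.eval v = true`; contradiction to `tr_not_both` at the last state
  (with `Tr.mono` of the falsity). Total cost: `k0 * k + k0 * thr d + thr d ≤ 3 * k0 * k` (`1 ≤ ψ.len ≤ k0`).
* `mp_not`: `decide2` for `A`; if `A` is true then `Tr (imp A B) false false` by definition with `Tr.mono` for `B`.
* `cl_not`: `Tr.lt`, `Wld.extS`.
-/

namespace Pool.H6.LD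

open Finset Classical Pool.Agent.H3.Frg Pool.Agent.H3.Frg2 Pool.Agent.H3.Frg4 Pool.Agent.H55.QT

variable {n K : ℕ} {Con : Finset (Fin n) → (Fin n → Bool) → Prop} {thr : ℕ → ℕ}

private theorem alt_pm {V : Type} (F : Fm V) :
    alt F false ≤ alt F true + 1 ∧ alt F true ≤ alt F false + 1 := by
  induction F with
  | var v => exact ⟨by simp [alt], by simp [alt]⟩
  | neg A ih =>
    simp only [alt, Bool.not_true, Bool.not_false]
    exact ⟨ih.2, ih.1⟩
  | imp A B _ _ =>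
    simp only [alt]
    omega

private def Qd {V : Type} (d : ℕ) (F : Fm V) : Prop := alt F true ≤ d ∧ alt F false ≤ d

private theorem qd_neg {V : Type} {A : Fm V} {d : ℕ} (h : Qd d (.neg A)) : Qd d A := by
  unfold Qd at h ⊢
  simp only [alt, Bool.not_true, Bool.not_false] at h
  exact ⟨h.2, h.1⟩

private theorem qd_imp {V : Type} {A B : Fm V} {d : ℕ} (h : Qd d (.imp A B)) : Qd d A ∧ Qd d B := by
  have h1 := alt_pm A
  have h2 := alt_pm B
  unfold Qd at h ⊢
  simp only [alt] at h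
  omega

private theorem mem_fv_imp {W : Type} {A B : Fm W} {i : W} :
    i ∈ fv (Fm.imp A B) ↔ i ∈ fv A ∨ i ∈ fv B := by
  show i ∈ fv A ∪ fv B ↔ _
  exact mem_union

private theorem sub_mv {V : Type} {σ : ℕ → Fm V} {d : ℕ} (χ : Fm ℕ) (hQ : Qd d (χ.bind σ)) :
    ∀ i ∈ fv χ, Qd d (σ i) ∧ (σ i).leaves ≤ (χ.bind σ).leaves := by
  induction χ with
  | var v =>
    intro i hi
    have h1 : fv (Fm.var v) = {v} := rfl
    rw [h1, mem_singleton] at hi
    subst hi
    exact ⟨hQ, le_rfl⟩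
  | neg A ih =>
    intro i hi
    exact ih (qd_neg hQ) i hi
  | imp A B ihA ihB =>
    intro i hi
    obtain ⟨h1, h2⟩ := qd_imp hQ
    have h4 : ((Fm.imp A B).bind σ).leaves = (A.bind σ).leaves + (B.bind σ).leaves := rfl
    rw [mem_fv_imp] at hi
    rw [h4]
    rcases hi with hi | hi
    · obtain ⟨h5, h6⟩ := ihA h1 i hi
      exact ⟨h5, by omega⟩
    · obtain ⟨h5, h6⟩ := ihB h2 i hi
      exact ⟨h5, by omega⟩

private theorem leaves_len {V : Type} (F : Fm V) : F.leaves ≤ F.len := by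
  induction F with
  | var v => exact le_rfl
  | neg A ih => exact ih.trans (Nat.le_succ _)
  | imp A B ihA ihB =>
    show A.leaves + B.leaves ≤ A.len + B.len + 1
    omega

private theorem dec_mv (h : Wld Con K) (hmono : Monotone thr) (h0 : 2 ≤ thr 0) {d k : ℕ} {θ : ℝ} {s : ℝ}
    (hθ : ∑ i ∈ range d, (thr i : ℝ) / thr (i + 1) ≤ θ) (hk : θ * s + thr d ≤ k)
    {σ : ℕ → Fm (Fin n)} (S : Finset ℕ) (hS : ∀ i ∈ S, Qd d (σ i) ∧ ((σ i).leaves : ℝ) ≤ s)
    {D : Finset (Fin n)} {x : Fin n → Bool} (hD : D.card + S.card * k ≤ K) (hc : Con D x) :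
    ∃ D' y, ∃ v : ℕ → Bool, D ⊆ D' ∧ D'.card ≤ D.card + S.card * k ∧ (∀ w ∈ D, y w = x w) ∧ Con D' y ∧
      ∀ i ∈ S, Tr Con thr D' y (σ i) (v i) false := by
  induction S using Finset.induction_on with
  | empty =>
    refine ⟨D, x, fun _ => true, Subset.refl _, by simp, fun _ _ => rfl, hc, fun i hi => ?_⟩
    simp at hi
  | insert a S ha ih =>
    rw [card_insert_of_notMem ha] at hD ⊢
    rw [Nat.add_mul, Nat.one_mul] at hD ⊢
    obtain ⟨D₁, y₁, v₁, h1, h2, h3, h4, h5⟩ := ih (fun i hi => hS i (mem_insert_of_mem hi)) (by omega)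
    obtain ⟨hq, hl⟩ := hS a (mem_insert_self a S)
    obtain ⟨D₂, y₂, g1, g2, g3, g4, g5⟩ := decide2 h hmono h0 hθ hq.1 hq.2 hl hk (D := D₁) (x := y₁)
      (by omega) h4
    obtain ⟨b, hb⟩ : ∃ b, Tr Con thr D₂ y₂ (σ a) b false := by
      rcases g5 with g5 | g5
      · exact ⟨true, g5⟩
      · exact ⟨false, g5⟩
    refine ⟨D₂, y₂, Function.update v₁ a b, h1.trans g1, by omega,
      fun w hw => (g3 w (h1 hw)).trans (h3 w hw), g4, fun i hi => ?_⟩
    rcases mem_insert.1 hi with rfl | hi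
    · rw [Function.update_self]
      exact hb
    · have hne : i ≠ a := fun h6 => ha (h6 ▸ hi)
      rw [Function.update_of_ne hne]
      exact Tr.mono h g1 g3 (h5 i hi)

private theorem ev_chi (h : Wld Con K) {d T : ℕ} (hT : ∀ l ≤ d, thr l ≤ T)
    {σ : ℕ → Fm (Fin n)} {v : ℕ → Bool} (χ : Fm ℕ) (hQ : Qd d (χ.bind σ)) :
    ∀ (D : Finset (Fin n)) (x : Fin n → Bool), (∀ i ∈ fv χ, Tr Con thr D x (σ i) (v i) false) →
      D.card + χ.len * T ≤ K → Con D x →
      ∃ D' y, D ⊆ D' ∧ D'.card ≤ D.card + χ.len * T ∧ (∀ w ∈ D, y w = x w) ∧ Con D' y ∧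
        Tr Con thr D' y (χ.bind σ) (χ.eval v) false := by
  induction χ with
  | var i =>
    intro D x hv hD hc
    refine ⟨D, x, Subset.refl _, Nat.le_add_right _ _, fun _ _ => rfl, hc, ?_⟩
    exact hv i (by show i ∈ ({i} : Finset ℕ); exact mem_singleton_self i)
  | neg A ih =>
    intro D x hv hD hc
    have e1 : (Fm.neg A).len = A.len + 1 := rfl
    rw [e1, Nat.add_mul] at hD
    obtain ⟨D', y, h1, h2, h3, h4, h5⟩ := ih (qd_neg hQ) D x hv (by omega) hc
    refine ⟨D', y, h1, ?_, h3, h4, ?_⟩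
    · rw [e1, Nat.add_mul]
      omega
    · show Tr Con thr D' y (.neg (A.bind σ)) (!(A.eval v)) false
      unfold Tr
      rw [Bool.not_not]
      exact h5
  | imp A B ihA ihB =>
    intro D x hv hD hc
    have e1 : (Fm.imp A B).len = A.len + B.len + 1 := rfl
    rw [e1, Nat.add_mul, Nat.add_mul, Nat.one_mul] at hD
    obtain ⟨hQA, hQB⟩ := qd_imp hQ
    have hfA : ∀ i ∈ fv A, i ∈ fv (Fm.imp A B) := fun i hi => mem_fv_imp.2 (Or.inl hi)
    have hfB : ∀ i ∈ fv B, i ∈ fv (Fm.imp A B) := fun i hi => mem_fv_imp.2 (Or.inr hi)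
    obtain ⟨D₁, y₁, h1, h2, h3, h4, h5⟩ := ihA hQA D x (fun i hi => hv i (hfA i hi)) (by omega) hc
    obtain ⟨D₂, y₂, g1, g2, g3, g4, g5⟩ := ihB hQB D₁ y₁ (fun i hi => Tr.mono h h1 h3 (hv i (hfB i hi)))
      (by omega) h4
    obtain ⟨D₃, y₃, k1, k2, k3, k4, k5⟩ := tr_imp h hT hQ.1 (by omega) g4 (Tr.mono h g1 g3 h5) g5
    refine ⟨D₃, y₃, (h1.trans g1).trans k1, ?_, fun w hw => ?_, k4, k5⟩
    · rw [e1, Nat.add_mul, Nat.add_mul, Nat.one_mul]
      omega
    · rw [k3 w (g1 (h1 hw)), g3 w (h1 hw), h3 w hw]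

theorem ax_not_false (h : Wld Con K) (hmono : Monotone thr) (h0 : 2 ≤ thr 0) {d k : ℕ} {θ : ℝ} {s : ℝ}
    (hθ : ∑ i ∈ range d, (thr i : ℝ) / thr (i + 1) ≤ θ) (hθ0 : 0 ≤ θ) (hk : θ * s + thr d ≤ k)
    {ψ : Fm ℕ} {k0 : ℕ} (hk0 : ψ.len ≤ k0) (hψ : ∀ x : ℕ → Bool, ψ.eval x = true)
    {σ : ℕ → Fm (Fin n)} (hF : alt (ψ.bind σ) true ≤ d) (hF' : alt (ψ.bind σ) false ≤ d)
    (hs : ((ψ.bind σ).leaves : ℝ) ≤ s) {D : Finset (Fin n)} {x : Fin n → Bool}
    (hD : D.card + 3 * k0 * k ≤ K) (hc : Con D x) : ¬ Tr Con thr D x (ψ.bind σ) false false := by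
  intro hfalse
  have hs0 : 0 ≤ s := (Nat.cast_nonneg _).trans hs
  have hTk : thr d ≤ k := by
    have h1 : (thr d : ℝ) ≤ k := by nlinarith [mul_nonneg hθ0 hs0]
    exact_mod_cast h1
  have hT : ∀ l ≤ d, thr l ≤ thr d := fun l hl => hmono hl
  have hT1 : 1 ≤ thr d := by
    have h1 := hmono (Nat.zero_le d)
    omega
  have hQ : Qd d (ψ.bind σ) := ⟨hF, hF'⟩
  have hcard : (fv ψ).card ≤ k0 := ((fv_card ψ).trans (leaves_len ψ)).trans hk0
  have hk01 : 1 ≤ k0 := ((leaves_pos ψ).trans (leaves_len ψ)).trans hk0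
  have c1 : (fv ψ).card * k ≤ k0 * k := Nat.mul_le_mul_right _ hcard
  have c2 : ψ.len * thr d ≤ k0 * k := Nat.mul_le_mul hk0 hTk
  have c3 : thr d ≤ k0 * k := hTk.trans (Nat.le_mul_of_pos_left _ hk01)
  have c4 : 3 * k0 * k = k0 * k + k0 * k + k0 * k := by ring
  obtain ⟨D₁, y₁, v, h1, h2, h3, h4, h5⟩ := dec_mv h hmono h0 hθ hk (σ := σ) (fv ψ) (fun i hi => by
    obtain ⟨q1, q2⟩ := sub_mv ψ hQ i hi
    exact ⟨q1, le_trans (by exact_mod_cast q2) hs⟩) (D := D) (x := x) (by omega) hc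
  obtain ⟨D₂, y₂, g1, g2, g3, g4, g5⟩ := ev_chi h hT (v := v) ψ hQ D₁ y₁ h5 (by omega) h4
  rw [hψ v] at g5
  have g6 : Tr Con thr D₂ y₂ (ψ.bind σ) false false :=
    Tr.mono h (h1.trans g1) (fun w hw => (g3 w (h1 hw)).trans (h3 w hw)) hfalse
  exact tr_not_both h hT hT1 hF hF' (by omega) g4 g5 g6

theorem mp_not (h : Wld Con K) (hmono : Monotone thr) (h0 : 2 ≤ thr 0) {d k : ℕ} {θ : ℝ} {s : ℝ}
    (hθ : ∑ i ∈ range d, (thr i : ℝ) / thr (i + 1) ≤ θ) (hk : θ * s + thr d ≤ k)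
    {A B : Fm (Fin n)} (hF : alt A true ≤ d) (hF' : alt A false ≤ d)
    (hs : (A.leaves : ℝ) ≤ s) {D : Finset (Fin n)} {x : Fin n → Bool}
    (hD : D.card + k ≤ K) (hc : Con D x) (hB : Tr Con thr D x B false false) :
    ∃ D' y, D ⊆ D' ∧ D'.card ≤ D.card + k ∧ (∀ v ∈ D, y v = x v) ∧ Con D' y ∧
      (Tr Con thr D' y A false false ∨ Tr Con thr D' y (.imp A B) false false) := by
  obtain ⟨D', y, h1, h2, h3, h4, h5⟩ := decide2 h hmono h0 hθ hF hF' hs hk hD hc
  refine ⟨D', y, h1, h2, h3, h4, ?_⟩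
  rcases h5 with h5 | h5
  · refine Or.inr ?_
    simp only [Tr]
    exact ⟨h5, Tr.mono h h1 h3 hB⟩
  · exact Or.inl h5

theorem cl_not (h : Wld Con K) {F : Fm (Fin n)} {D : Finset (Fin n)} {x : Fin n → Bool}
    (hF : ∀ y, Con (fv F) y → F.eval y = true) (hD : D.card + F.leaves ≤ K) (hc : Con D x) :
    ¬ Tr Con thr D x F false false := by
  intro h1
  have h2 : (D ∪ fv F).card ≤ K := by
    have h3 := card_union_le D (fv F)
    have h4 := fv_card F
    omega
  obtain ⟨y, hy1, hy2⟩ := h.extS h2 hc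
  have h3 := Tr.lt h h1 y hy1 hy2
  rw [hF y (h.mono _ _ _ subset_union_right hy2)] at h3
  exact Bool.noConfusion h3

end Pool.H6.LD
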