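import Mathlib
import Pool.Agent.H6.LD.Defs

set_option autoImplicit false
set_option linter.unusedSectionVars false

/-!
# Module NBS (THEOREM LD): recursion for the balls

`nbs S B X` is `nb B X` with the equations `j ∈ S` only.
`nbs_step` PROOF: CLAIM (induction on `R`, all `S`, `v`): every `u ∈ (nbs S B)^[R + 1] {v}` is `v` or in `(nbs (S \ {j}) B)^[R] {w}` for some `j ∈ S`, `v ∈ B j`, `w ∈ B j`. `(nbs S B)^[R + 1] {v} = nbs S B ((nbs S B)^[R] {v})` (`Function.iterate_succ_apply'`):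
`u ∈ (nbs S B)^[R] {v}` (then use the claim for `R` and that iterates increase; for `R = 0`: `u = v`), or `u ∈ B j'`, `j' ∈ S`, `B j'` meets some `u0 ∈ (nbs S B)^[R] {v}`. If `u0 = v`: `j = j'`, `w = u` (`u ∈ (..)^[R] {u}`). Otherwise (so `R ≥ 1`) `u0 ∈ (nbs (S \ {j}) B)^[R - 1] {w}`;
if `j' ≠ j` then `u ∈ (nbs (S \ {j}) B)^[R] {w}`; if `j' = j` then `u ∈ B j`: take `w := u`. The claim gives the inequality by `card_union_le`, `card_biUnion_le`.
-/

namespace Pool.H6.LD

open Finset Classical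

variable {n m : ℕ}

/-- `nb` with the equations in `S` only -/
noncomputable def nbs (S : Finset (Fin m)) (B : Fin m → Finset (Fin n)) (X : Finset (Fin n)) : Finset (Fin n) :=
  X ∪ (S.filter fun j => ¬ Disjoint (B j) X).biUnion B

private theorem nbs_mem_self (S : Finset (Fin m)) (B : Fin m → Finset (Fin n)) (R : ℕ)
    (w : Fin n) : w ∈ (nbs S B)^[R] {w} := by
  induction R with
  | zero => exact mem_singleton_self w
  | succ R ih =>
    rw [Function.iterate_succ_apply']
    exact mem_union_left _ ih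

private theorem nbs_mem_edge {S : Finset (Fin m)} {B : Fin m → Finset (Fin n)}
    {X : Finset (Fin n)} {u u0 : Fin n} {j : Fin m} (hj : j ∈ S) (hu : u ∈ B j) (hu0 : u0 ∈ B j)
    (hX : u0 ∈ X) : u ∈ nbs S B X := by
  refine mem_union_right _ (mem_biUnion.2 ⟨j, mem_filter.2 ⟨hj, ?_⟩, hu⟩)
  exact fun h => (disjoint_left.1 h hu0) hX

private theorem nbs_mem_cases {S : Finset (Fin m)} {B : Fin m → Finset (Fin n)}
    {X : Finset (Fin n)} {u : Fin n} (h : u ∈ nbs S B X) :
    u ∈ X ∨ ∃ j ∈ S, u ∈ B j ∧ ∃ u0 ∈ B j, u0 ∈ X := by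
  rcases mem_union.1 h with h | h
  · exact Or.inl h
  · obtain ⟨j, hj, hu⟩ := mem_biUnion.1 h
    obtain ⟨hjS, hd⟩ := mem_filter.1 hj
    obtain ⟨u0, h1, h2⟩ := not_disjoint_iff.1 hd
    exact Or.inr ⟨j, hjS, hu, u0, h1, h2⟩

private theorem nbs_claim (S : Finset (Fin m)) (B : Fin m → Finset (Fin n)) (v : Fin n) (R : ℕ) :
    ∀ u, u ∈ (nbs S B)^[R + 1] {v} →
      u = v ∨ ∃ j ∈ S, v ∈ B j ∧ ∃ w ∈ B j, u ∈ (nbs (S \ {j}) B)^[R] {w} := by
  induction R with
  | zero =>
    intro u hu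
    rw [Function.iterate_succ_apply'] at hu
    rcases nbs_mem_cases hu with h | ⟨j, hj, huj, u0, hu0, h⟩
    · exact Or.inl (mem_singleton.1 h)
    · have h1 : u0 = v := mem_singleton.1 h
      rw [h1] at hu0
      exact Or.inr ⟨j, hj, hu0, u, huj, mem_singleton_self u⟩
  | succ R ih =>
    intro u hu
    rw [Function.iterate_succ_apply'] at hu
    rcases nbs_mem_cases hu with h | ⟨j', hj', huj, u0, hu0, h⟩
    · rcases ih u h with h1 | ⟨j, hj, hv, w, hw, h1⟩
      · exact Or.inl h1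
      · refine Or.inr ⟨j, hj, hv, w, hw, ?_⟩
        rw [Function.iterate_succ_apply']
        exact mem_union_left _ h1
    · rcases ih u0 h with h1 | ⟨j, hj, hv, w, hw, h1⟩
      · rw [h1] at hu0
        exact Or.inr ⟨j', hj', hu0, u, huj, nbs_mem_self _ _ _ _⟩
      · by_cases hjj : j' = j
        · subst hjj
          exact Or.inr ⟨j', hj, hv, u, huj, nbs_mem_self _ _ _ _⟩
        · refine Or.inr ⟨j, hj, hv, w, hw, ?_⟩
          rw [Function.iterate_succ_apply']
          exact nbs_mem_edge (mem_sdiff.2 ⟨hj', fun h2 => hjj (mem_singleton.1 h2)⟩) huj hu0 h1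

theorem nbs_step (S : Finset (Fin m)) (B : Fin m → Finset (Fin n)) (R : ℕ) (v : Fin n) :
    ((nbs S B)^[R + 1] {v}).card ≤ 1 + ∑ j ∈ S.filter (fun j => v ∈ B j), ∑ w ∈ B j,
      ((nbs (S \ {j}) B)^[R] {w}).card := by
  have h1 : (nbs S B)^[R + 1] {v} ⊆ {v} ∪ (S.filter (fun j => v ∈ B j)).biUnion fun j =>
      (B j).biUnion fun w => (nbs (S \ {j}) B)^[R] {w} := by
    intro u hu
    rcases nbs_claim S B v R u hu with h | ⟨j, hj, hv, w, hw, h⟩
    · exact mem_union_left _ (mem_singleton.2 h)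
    · exact mem_union_right _ (mem_biUnion.2 ⟨j, mem_filter.2 ⟨hj, hv⟩,
        mem_biUnion.2 ⟨w, hw, h⟩⟩)
  refine (card_le_card h1).trans ((card_union_le _ _).trans ?_)
  rw [card_singleton]
  refine Nat.add_le_add_left ?_ 1
  refine card_biUnion_le.trans (sum_le_sum fun j _ => ?_)
  exact card_biUnion_le

theorem nbs_univ (B : Fin m → Finset (Fin n)) : nbs univ B = nb B := rfl

/-- `nbs` does not depend on `B j` for `j ∉ S` -/
theorem nbs_congr {S : Finset (Fin m)} {B B' : Fin m → Finset (Fin n)} (h : ∀ j ∈ S, B j = B' j) :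
    nbs S B = nbs S B' := by
  funext X
  unfold nbs
  congr 1
  have h1 : (S.filter fun j => ¬ Disjoint (B j) X) = S.filter fun j => ¬ Disjoint (B' j) X :=
    filter_congr fun j hj => by rw [h j hj]
  rw [h1]
  exact biUnion_congr rfl fun j hj => h j (mem_filter.1 hj).1

end Pool.H6.LD
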