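import Mathlib
import Pool.Agent.H55.QT.RCnt

set_option autoImplicit false
set_option linter.unusedSectionVars false

/-!
# Module UPD (THEOREM LD): independence of one clause from the others

`upd`: if `G φ` does not depend on `φ j` then `(∑ φ, if P (φ j) then G φ else 0) * card α = #{c | P c} * ∑ φ, G φ`. PROOF: `∑ φ, F φ * card α = ∑ φ, ∑ c, F (update φ j c)` for every `F` (the map
`(φ, c) ↦ (update φ j c, φ j)` is an involution on the pairs), with `F φ = if P (φ j) then G φ else 0`: `F (update φ j c) = if P c then G φ else 0`; the sum over `c` is `#{P} * G φ`.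
`card_mem`: `#{c : Cl n | v ∈ cvar c} * n ≤ 3 * card (Cl n)`: the number of `c` with `v ∈ cvar c` is the same for all `v` (compose the embedding with `Equiv.swap v w`: injective map), the sum over all `v` is `3 * card (Cl n)` (`(cvar c).card = 3`, exchange the sums).
-/

namespace Pool.H6.LD

open Finset Classical Pool.Agent.H55.QT

theorem upd {α : Type} [Fintype α] {m : ℕ} (j : Fin m) (P : α → Prop) (G : (Fin m → α) → ℕ)
    (hG : ∀ φ c, G (Function.update φ j c) = G φ) :
    (∑ φ : Fin m → α, if P (φ j) then G φ else 0) * Fintype.card α =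
      (univ.filter fun c => P c).card * ∑ φ : Fin m → α, G φ := by
  let e : (Fin m → α) × α ≃ (Fin m → α) × α :=
    { toFun := fun p => (Function.update p.1 j p.2, p.1 j)
      invFun := fun p => (Function.update p.1 j p.2, p.1 j)
      left_inv := fun p => by simp
      right_inv := fun p => by simp }
  have h1 : ∑ p : (Fin m → α) × α, (if P ((e p).1 j) then G (e p).1 else 0) =
      ∑ p : (Fin m → α) × α, (if P (p.1 j) then G p.1 else 0) :=
    Equiv.sum_comp e (fun p : (Fin m → α) × α => if P (p.1 j) then G p.1 else 0)
  have h2 : ∀ p : (Fin m → α) × α, (if P ((e p).1 j) then G (e p).1 else 0) = if P p.2 then G p.1 else 0 := by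
    intro p
    change (if P (Function.update p.1 j p.2 j) then G (Function.update p.1 j p.2) else 0) = _
    rw [Function.update_self, hG]
  rw [Finset.sum_congr rfl fun p _ => h2 p, Fintype.sum_prod_type, Fintype.sum_prod_type] at h1
  have h3 : ∀ φ : Fin m → α, (∑ c : α, if P c then G φ else 0) = (univ.filter fun c => P c).card * G φ := by
    intro φ
    rw [← Finset.sum_filter, Finset.sum_const, smul_eq_mul]
  have h4 : ∀ φ : Fin m → α, (∑ _c : α, if P (φ j) then G φ else 0) = (if P (φ j) then G φ else 0) * Fintype.card α := by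
    intro φ
    rw [Finset.sum_const, smul_eq_mul, Finset.card_univ, mul_comm]
  simp only [h3, h4] at h1
  rw [← Finset.mul_sum, ← Finset.sum_mul] at h1
  exact h1.symm

theorem card_mem {n : ℕ} (v : Fin n) :
    (univ.filter fun c : Cl n => v ∈ cvar c).card * n ≤ 3 * Fintype.card (Cl n) := by
  have h1 : ∀ w, (univ.filter fun c : Cl n => v ∈ cvar c).card ≤ (univ.filter fun c : Cl n => w ∈ cvar c).card := by
    intro w
    refine Finset.card_le_card_of_injOn (fun c => (c.1.trans (Equiv.swap v w).toEmbedding, c.2)) ?_ ?_
    · intro c hc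
      simp only [Finset.coe_filter, Finset.mem_univ, true_and, Set.mem_ofPred_eq, cvar, Finset.mem_map] at hc ⊢
      obtain ⟨i, hi⟩ := hc
      refine ⟨i, ?_⟩
      rw [Function.Embedding.trans_apply, hi]
      exact Equiv.swap_apply_left v w
    · intro c _ c' _ h
      simp only [Prod.mk.injEq] at h
      refine Prod.ext ?_ h.2
      ext i
      have h2 := congrArg (fun f : Fin 3 ↪ Fin n => f i) h.1
      simp only [Function.Embedding.trans_apply] at h2
      rw [(Equiv.swap v w).toEmbedding.injective h2]
  have h2 : ∑ w : Fin n, (univ.filter fun c : Cl n => w ∈ cvar c).card = 3 * Fintype.card (Cl n) := by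
    simp only [Finset.card_filter]
    rw [Finset.sum_comm]
    have h3 : ∀ c : Cl n, (∑ w : Fin n, if w ∈ cvar c then 1 else 0) = 3 := by
      intro c
      rw [← Finset.card_filter, Finset.filter_mem_eq_inter, Finset.univ_inter, cvar, Finset.card_map, Finset.card_univ, Fintype.card_fin]
    rw [Finset.sum_congr rfl fun c _ => h3 c, Finset.sum_const, smul_eq_mul, mul_comm, Finset.card_univ]
  rw [← h2, mul_comm]
  calc n * (univ.filter fun c : Cl n => v ∈ cvar c).card
      = ∑ _w : Fin n, (univ.filter fun c : Cl n => v ∈ cvar c).card := by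
        rw [Finset.sum_const, smul_eq_mul, Finset.card_univ, Fintype.card_fin]
    _ ≤ _ := Finset.sum_le_sum fun w _ => h1 w

end Pool.H6.LD
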