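import Mathlib
import Pool.Agent.H6.LD.Nbs
import Pool.Agent.H6.LD.Upd

set_option autoImplicit false
set_option linter.unusedSectionVars false

/-!
# Module BAL (THEOREM LD): the balls of almost all 3-CNFs have bounded size on average

Given: `nbs_step`, `nbs_congr` (Nbs), `upd`, `card_mem` (Upd).
* `bal_exp`: `∑ φ, ∑ v, ((nbs S (cvar ∘ φ))^[R] {v}).card ≤ (9 Δ + 1) ^ R * n * card (Fin (Δ n) → Cl n)` for all `S`: induction on `R`, `nbs_step`: `≤ n * total + ∑ j ∈ S, ∑ φ, ∑ v ∈ B j, ∑ w ∈ B j, (ball of w in S \ {j})`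
  `= n * total + ∑ j ∈ S, 3 * ∑ w, ∑ φ, [w ∈ cvar (φ j)] * (ball of w in S \ {j})` (`(cvar c).card = 3`), by `bal_upd`, `card_mem` `≤ n * total + Δ n * 3 * (3 / n) * (9 Δ + 1) ^ R * n * total`.
* `bal`: Markov for every `R`: the number of `φ` with `∑ v, ball > L R * n` is at most `total * (9 Δ + 1) ^ R / L R = e / 2 ^ (R + 1) * total`; union over the finitely many `R` which occur (choose `R φ` for every bad `φ`), `∑ R ∈ S, e / 2 ^ (R + 1) ≤ e`.
-/

namespace Pool.H6.LD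

open Finset Classical Pool.Agent.H55.QT

/-- the bounds for the balls -/
noncomputable def Lb (Δ : ℕ) (e : ℝ) (R : ℕ) : ℝ := (9 * Δ + 1) ^ R * 2 ^ (R + 1) / e

theorem Lb_nonneg {Δ : ℕ} {e : ℝ} (he : 0 < e) (R : ℕ) : 0 ≤ Lb Δ e R := by
  unfold Lb
  positivity

private theorem cvar_card {n : ℕ} (c : Cl n) : (cvar c).card = 3 := by
  unfold cvar
  rw [card_map, card_univ, Fintype.card_fin]

private theorem bal_one {Δ n : ℕ} (S : Finset (Fin (Δ * n))) (R : ℕ) (φ : Fin (Δ * n) → Cl n) :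
    ∑ v, ((nbs S fun j => cvar (φ j))^[R + 1] {v}).card ≤
      n + 3 * ∑ j ∈ S, ∑ w, if w ∈ cvar (φ j) then ((nbs (S \ {j}) fun j => cvar (φ j))^[R] {w}).card else 0 := by
  refine (sum_le_sum fun v _ => nbs_step S (fun j => cvar (φ j)) R v).trans ?_
  rw [sum_add_distrib, sum_const, card_univ, Fintype.card_fin, smul_eq_mul, mul_one]
  refine Nat.add_le_add_left (le_of_eq ?_) _
  have h1 : ∀ v : Fin n, ∑ j ∈ S.filter (fun j => v ∈ cvar (φ j)), ∑ w ∈ cvar (φ j),
      ((nbs (S \ {j}) fun j => cvar (φ j))^[R] {w}).card = ∑ j ∈ S, if v ∈ cvar (φ j) then ∑ w ∈ cvar (φ j),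
      ((nbs (S \ {j}) fun j => cvar (φ j))^[R] {w}).card else 0 := fun v => sum_filter _ _
  rw [sum_congr rfl fun v _ => h1 v, sum_comm, mul_sum]
  refine sum_congr rfl fun j _ => ?_
  rw [sum_ite_mem, univ_inter, sum_const, cvar_card, smul_eq_mul, sum_ite_mem, univ_inter]

private theorem bal_two {Δ n : ℕ} (S : Finset (Fin (Δ * n))) (R : ℕ) (j : Fin (Δ * n)) (w : Fin n) :
    n * ∑ φ : Fin (Δ * n) → Cl n, (if w ∈ cvar (φ j) then ((nbs (S \ {j}) fun j => cvar (φ j))^[R] {w}).card else 0) ≤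
      3 * ∑ φ : Fin (Δ * n) → Cl n, ((nbs (S \ {j}) fun j => cvar (φ j))^[R] {w}).card := by
  have h1 := upd j (fun c : Cl n => w ∈ cvar c)
    (fun φ => ((nbs (S \ {j}) fun j => cvar (φ j))^[R] {w}).card) (by
      intro φ c
      show ((nbs (S \ {j}) fun i => cvar (Function.update φ j c i))^[R] {w}).card = _
      have h2 : nbs (S \ {j}) (fun i => cvar (Function.update φ j c i)) = nbs (S \ {j}) fun i => cvar (φ i) := by
        refine nbs_congr fun i hi => ?_
        have h3 : i ≠ j := by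
          intro h4
          rw [mem_sdiff, mem_singleton] at hi
          exact hi.2 h4
        rw [Function.update_of_ne h3]
      rw [h2])
  have h2 := card_mem (n := n) w
  obtain ⟨A, hA⟩ : ∃ A, A = ∑ φ : Fin (Δ * n) → Cl n, (if w ∈ cvar (φ j) then
    ((nbs (S \ {j}) fun j => cvar (φ j))^[R] {w}).card else 0) := ⟨_, rfl⟩
  obtain ⟨C, hC⟩ : ∃ C, C = ∑ φ : Fin (Δ * n) → Cl n, ((nbs (S \ {j}) fun j => cvar (φ j))^[R] {w}).card := ⟨_, rfl⟩
  rw [← hA, ← hC]
  have h1' : A * Fintype.card (Cl n) = (univ.filter fun c : Cl n => w ∈ cvar c).card * C := by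
    rw [hA, hC]
    convert h1
  rcases Nat.eq_zero_or_pos (Fintype.card (Cl n)) with h0 | h0
  · have h3 : IsEmpty (Fin (Δ * n) → Cl n) := by
      have h4 : IsEmpty (Cl n) := Fintype.card_eq_zero_iff.1 h0
      exact ⟨fun φ => h4.false (φ j)⟩
    rw [hA, univ_eq_empty, sum_empty, mul_zero]
    exact Nat.zero_le _
  · refine Nat.le_of_mul_le_mul_right ?_ h0
    calc n * A * Fintype.card (Cl n) = n * (A * Fintype.card (Cl n)) := by ring
      _ = ((univ.filter fun c : Cl n => w ∈ cvar c).card * n) * C := by rw [h1']; ring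
      _ ≤ (3 * Fintype.card (Cl n)) * C := Nat.mul_le_mul_right _ h2
      _ = 3 * C * Fintype.card (Cl n) := by ring

theorem bal_exp {Δ n : ℕ} (S : Finset (Fin (Δ * n))) (R : ℕ) :
    ∑ φ : Fin (Δ * n) → Cl n, ∑ v, ((nbs S fun j => cvar (φ j))^[R] {v}).card ≤
      (9 * Δ + 1) ^ R * n * Fintype.card (Fin (Δ * n) → Cl n) := by
  induction R generalizing S with
  | zero =>
    simp only [Function.iterate_zero, id_eq, card_singleton, sum_const, card_univ, Fintype.card_fin, smul_eq_mul, mul_one,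
      pow_zero, one_mul]
    rw [mul_comm]
  | succ R ih =>
    obtain ⟨N, hN⟩ : ∃ N, N = Fintype.card (Fin (Δ * n) → Cl n) := ⟨_, rfl⟩
    rw [← hN] at ih ⊢
    refine (sum_le_sum fun φ _ => bal_one S R φ).trans ?_
    rw [sum_add_distrib, sum_const, card_univ, ← hN, smul_eq_mul, ← mul_sum, sum_comm]
    obtain ⟨T, hT⟩ : ∃ T, T = ∑ j ∈ S, ∑ φ : Fin (Δ * n) → Cl n, ∑ w, (if w ∈ cvar (φ j) then
      ((nbs (S \ {j}) fun j => cvar (φ j))^[R] {w}).card else 0) := ⟨_, rfl⟩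
    rw [← hT]
    obtain ⟨x, hx⟩ : ∃ x, x = (9 * Δ + 1) ^ R := ⟨_, rfl⟩
    have hx1 : 1 ≤ x := by
      rw [hx]
      exact Nat.one_le_pow _ _ (by omega)
    rw [← hx] at ih
    have h1 : n * T ≤ n * (3 * Δ * x * n * N) := by
      calc n * T = ∑ j ∈ S, ∑ w, n * ∑ φ : Fin (Δ * n) → Cl n, (if w ∈ cvar (φ j) then
            ((nbs (S \ {j}) fun j => cvar (φ j))^[R] {w}).card else 0) := by
            rw [hT, mul_sum]
            refine sum_congr rfl fun j _ => ?_
            rw [sum_comm, mul_sum]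
        _ ≤ ∑ j ∈ S, ∑ w, 3 * ∑ φ : Fin (Δ * n) → Cl n, ((nbs (S \ {j}) fun j => cvar (φ j))^[R] {w}).card :=
            sum_le_sum fun j _ => sum_le_sum fun w _ => bal_two S R j w
        _ = ∑ j ∈ S, 3 * ∑ φ : Fin (Δ * n) → Cl n, ∑ w, ((nbs (S \ {j}) fun j => cvar (φ j))^[R] {w}).card := by
            refine sum_congr rfl fun j _ => ?_
            rw [← mul_sum, sum_comm]
        _ ≤ ∑ j ∈ S, 3 * (x * n * N) := sum_le_sum fun j _ => Nat.mul_le_mul_left _ (ih _)
        _ = S.card * (3 * (x * n * N)) := by rw [sum_const, smul_eq_mul]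
        _ ≤ (Δ * n) * (3 * (x * n * N)) := by
            refine Nat.mul_le_mul_right _ ?_
            have h2 := card_le_univ S
            rwa [Fintype.card_fin] at h2
        _ = n * (3 * Δ * x * n * N) := by ring
    have h2 : T ≤ 3 * Δ * x * n * N := by
      rcases Nat.eq_zero_or_pos n with h0 | h0
      · have h3 : S = ∅ := by
          rw [← Finset.card_eq_zero]
          have h2 := card_le_univ S
          rw [Fintype.card_fin] at h2
          have h4 : Δ * n = 0 := by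
            simp [h0]
          omega
        rw [hT, h3, sum_empty]
        exact Nat.zero_le _
      · exact Nat.le_of_mul_le_mul_left h1 h0
    calc N * n + 3 * T ≤ 1 * (n * N) + 3 * (3 * Δ * x * n * N) := by
          have h3 := Nat.mul_le_mul_left 3 h2
          linarith
      _ ≤ x * (n * N) + 3 * (3 * Δ * x * n * N) := Nat.add_le_add_right (Nat.mul_le_mul_right _ hx1) _
      _ = (9 * Δ + 1) ^ (R + 1) * n * N := by rw [pow_succ, ← hx]; ring

private theorem geo (M : ℕ) : ∑ R ∈ range M, (1 : ℝ) / 2 ^ (R + 1) = 1 - 1 / 2 ^ M := by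
  induction M with
  | zero => simp
  | succ M ih =>
    rw [sum_range_succ, ih, pow_succ]
    field_simp
    ring

theorem bal {Δ n : ℕ} {e : ℝ} (he : 0 < e) :
    ((univ.filter fun φ : Fin (Δ * n) → Cl n => ¬ Bls (Lb Δ e) (fun j => cvar (φ j))).card : ℝ) ≤
      e * Fintype.card (Fin (Δ * n) → Cl n) := by
  rcases Nat.eq_zero_or_pos n with h0 | h0
  · subst h0
    have h1 : (univ.filter fun φ : Fin (Δ * 0) → Cl 0 => ¬ Bls (Lb Δ e) (fun j => cvar (φ j))) = ∅ := by
      rw [filter_eq_empty_iff]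
      intro φ _
      rw [not_not]
      intro R
      rw [univ_eq_empty, sum_empty, Nat.cast_zero, mul_zero]
    rw [h1, card_empty, Nat.cast_zero]
    positivity
  have hn : (0 : ℝ) < n := by exact_mod_cast h0
  obtain ⟨f, hf⟩ : ∃ f : ℕ → (Fin (Δ * n) → Cl n) → ℕ, ∀ R φ, f R φ = ∑ v, ((nb fun j => cvar (φ j))^[R] {v}).card :=
    ⟨_, fun R φ => rfl⟩
  obtain ⟨E, hE⟩ : ∃ E : ℕ → Finset (Fin (Δ * n) → Cl n), ∀ R, E R = univ.filter fun φ => Lb Δ e R * n < (f R φ : ℝ) :=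
    ⟨_, fun R => rfl⟩
  have hLp : ∀ R, 0 < Lb Δ e R := by
    intro R
    unfold Lb
    positivity
  have hmk : ∀ R, ((E R).card : ℝ) ≤ e * Fintype.card (Fin (Δ * n) → Cl n) * (1 / 2 ^ (R + 1)) := by
    intro R
    have h1 : ((E R).card : ℝ) * (Lb Δ e R * n) ≤ ((∑ φ, f R φ : ℕ) : ℝ) := by
      push_cast
      calc ((E R).card : ℝ) * (Lb Δ e R * n) = ∑ φ ∈ E R, Lb Δ e R * n := by rw [sum_const, nsmul_eq_mul]
        _ ≤ ∑ φ ∈ E R, (f R φ : ℝ) := by
            refine sum_le_sum fun φ hφ => ?_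
            rw [hE R, mem_filter] at hφ
            exact hφ.2.le
        _ ≤ ∑ φ, (f R φ : ℝ) := sum_le_sum_of_subset_of_nonneg (subset_univ _) fun _ _ _ => Nat.cast_nonneg _
    have h2 : ((∑ φ, f R φ : ℕ) : ℝ) ≤ (9 * Δ + 1) ^ R * n * Fintype.card (Fin (Δ * n) → Cl n) := by
      have h3 := bal_exp (Δ := Δ) (n := n) univ R
      have h4 : ∑ φ, f R φ ≤ (9 * Δ + 1) ^ R * n * Fintype.card (Fin (Δ * n) → Cl n) := by
        refine le_trans (le_of_eq ?_) h3
        refine sum_congr rfl fun φ _ => ?_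
        rw [hf R φ, nbs_univ]
      exact_mod_cast h4
    have h3 : ((E R).card : ℝ) * Lb Δ e R ≤ (9 * Δ + 1) ^ R * Fintype.card (Fin (Δ * n) → Cl n) := by
      have h4 := h1.trans h2
      have h5 : (((E R).card : ℝ) * Lb Δ e R) * n ≤ ((9 * Δ + 1) ^ R * Fintype.card (Fin (Δ * n) → Cl n)) * n := by
        calc (((E R).card : ℝ) * Lb Δ e R) * n = ((E R).card : ℝ) * (Lb Δ e R * n) := by ring
          _ ≤ _ := h4
          _ = _ := by ring
      exact le_of_mul_le_mul_right h5 hn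
    have h4 : Lb Δ e R * (e * (1 / 2 ^ (R + 1))) = (9 * Δ + 1) ^ R := by
      unfold Lb
      field_simp
    have h5 : ((E R).card : ℝ) * Lb Δ e R ≤ (e * Fintype.card (Fin (Δ * n) → Cl n) * (1 / 2 ^ (R + 1))) * Lb Δ e R := by
      refine h3.trans (le_of_eq ?_)
      rw [← h4]
      ring
    exact le_of_mul_le_mul_right h5 (hLp R)
  have hex : ∀ φ : Fin (Δ * n) → Cl n, ∃ R, ¬ Bls (Lb Δ e) (fun j => cvar (φ j)) → φ ∈ E R := by
    intro φ
    by_cases h : Bls (Lb Δ e) (fun j => cvar (φ j))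
    · exact ⟨0, fun h' => absurd h h'⟩
    · have h' := h
      unfold Bls at h'
      push Not at h'
      obtain ⟨R, hR⟩ := h'
      refine ⟨R, fun _ => ?_⟩
      rw [hE R, mem_filter]
      refine ⟨mem_univ _, ?_⟩
      rw [hf R φ]
      exact hR
  choose r hr using hex
  obtain ⟨M, hM⟩ : ∃ M, ∀ φ : Fin (Δ * n) → Cl n, r φ < M :=
    ⟨univ.sup r + 1, fun φ => Nat.lt_succ_of_le (le_sup (mem_univ φ))⟩
  have hsub : (univ.filter fun φ : Fin (Δ * n) → Cl n => ¬ Bls (Lb Δ e) (fun j => cvar (φ j))) ⊆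
      (range M).biUnion E := by
    intro φ hφ
    rw [mem_filter] at hφ
    exact mem_biUnion.2 ⟨r φ, mem_range.2 (hM φ), hr φ hφ.2⟩
  have h1 : ((univ.filter fun φ : Fin (Δ * n) → Cl n => ¬ Bls (Lb Δ e) (fun j => cvar (φ j))).card : ℝ) ≤
      ∑ R ∈ range M, ((E R).card : ℝ) := by
    have h2 := (card_le_card hsub).trans card_biUnion_le
    exact_mod_cast h2
  refine h1.trans ((sum_le_sum fun R _ => hmk R).trans ?_)
  rw [← mul_sum, geo]
  have h3 : 0 ≤ e * (Fintype.card (Fin (Δ * n) → Cl n) : ℝ) := by positivity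
  have h4 : (1 : ℝ) - 1 / 2 ^ M ≤ 1 := by
    have : (0 : ℝ) ≤ 1 / 2 ^ M := by positivity
    linarith
  calc _ ≤ e * (Fintype.card (Fin (Δ * n) → Cl n) : ℝ) * 1 := mul_le_mul_of_nonneg_left h4 h3
    _ = _ := mul_one _

end Pool.H6.LD
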