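import Mathlib

set_option autoImplicit false
set_option linter.unusedSectionVars false

/-!
# Module CNT (THEOREM LD): the number of small states

`cnt`: for `η > 0` there is `a > 0` such that for all `n` at most `2 ^ (η n)` pairs `(D, y)` have `D.card ≤ a n` and `y = false` outside of `D`.
PROOF. For fixed `D` there are `2 ^ D.card` such `y` (bijection with functions on `D`, or `card_filter` as `Fintype.piFinset`). So the number is `∑_{D.card ≤ a n} 2 ^ D.card`. For `0 < t ≤ 1` this is at most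
`t ^ (- a n) * ∑ D, (2 t) ^ D.card = t ^ (- a n) * (1 + 2 t) ^ n` (`D.card ≤ a n` gives `t ^ (a n) ≤ t ^ D.card`; `Finset.sum_pow_mul_eq_add_pow` or `Finset.prod_one_add`), and `1 + 2 t ≤ exp (2 t)`. Choose `t ≤ 1` with
`2 t ≤ η * log 2 / 2` and then `a > 0` with `a * log (1 / t) ≤ η * log 2 / 2`.
`log_sum`: for a list of natural numbers `≥ a ≥ 1` the product is at most `exp (2 * sum / sqrt a)`: `log s ≤ 2 sqrt s = 2 s / sqrt s ≤ 2 s / sqrt a` (`Real.log_le_sub_one_of_pos` for `sqrt s`:
`log s = 2 log (sqrt s) ≤ 2 (sqrt s - 1)`).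
-/

namespace Pool.H6.LD

open Finset Classical

theorem cnt {η : ℝ} (hη : 0 < η) : ∃ a : ℝ, 0 < a ∧ ∀ n : ℕ,
    (((univ : Finset (Finset (Fin n) × (Fin n → Bool))).filter fun s =>
      (s.1.card : ℝ) ≤ a * n ∧ ∀ v, v ∉ s.1 → s.2 v = false).card : ℝ) ≤ 2 ^ (η * n) := by
  have hl2 : 0 < Real.log 2 := Real.log_pos (by norm_num)
  obtain ⟨t, ht⟩ : ∃ t : ℝ, t = min 1 (η * Real.log 2 / 4) := ⟨_, rfl⟩
  have ht0 : 0 < t := by rw [ht]; exact lt_min one_pos (by positivity)
  have ht1 : t ≤ 1 := by rw [ht]; exact min_le_left _ _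
  have ht2 : t ≤ η * Real.log 2 / 4 := by rw [ht]; exact min_le_right _ _
  have hlt : 0 ≤ - Real.log t := by
    have := Real.log_nonpos ht0.le ht1
    linarith
  obtain ⟨a, ha⟩ : ∃ a : ℝ, a = (η * Real.log 2 / 2) / (- Real.log t + 1) := ⟨_, rfl⟩
  have ha0 : 0 < a := by rw [ha]; positivity
  have ha1 : a * (- Real.log t) ≤ η * Real.log 2 / 2 := by
    rw [ha, div_mul_eq_mul_div, div_le_iff₀ (by linarith)]
    have : 0 ≤ η * Real.log 2 / 2 := by positivity
    nlinarith
  refine ⟨a, ha0, fun n => ?_⟩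
  -- the number of y for a fixed D
  have hy : ∀ D : Finset (Fin n), (((univ : Finset (Fin n → Bool)).filter fun y => ∀ v, v ∉ D → y v = false).card : ℝ) ≤
      2 ^ D.card := by
    intro D
    have h1 : ((univ : Finset (Fin n → Bool)).filter fun y => ∀ v, v ∉ D → y v = false).card ≤ D.powerset.card := by
      refine Finset.card_le_card_of_injOn (fun y => univ.filter fun v => y v = true) ?_ ?_
      · intro y hy
        rw [Finset.mem_coe, Finset.mem_filter] at hy
        rw [Finset.mem_coe, Finset.mem_powerset]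
        intro v hv
        rw [Finset.mem_filter] at hv
        by_contra h2
        have h3 := hy.2 v h2
        rw [h3] at hv
        exact absurd hv.2 (by decide)
      · intro y _ z _ hyz
        funext v
        have h2 : v ∈ univ.filter (fun v => y v = true) ↔ v ∈ univ.filter (fun v => z v = true) := by
          have h4 : (univ.filter fun v => y v = true) = univ.filter fun v => z v = true := hyz
          rw [h4]
        simp only [Finset.mem_filter, Finset.mem_univ, true_and] at h2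
        cases h5 : y v <;> cases h6 : z v <;> simp_all
    rw [Finset.card_powerset] at h1
    exact_mod_cast h1
  have hD : ∀ D : Finset (Fin n), (∑ y : Fin n → Bool,
      (if ((D.card : ℝ) ≤ a * n ∧ ∀ v, v ∉ D → y v = false) then (1 : ℝ) else 0)) ≤
      t ^ (-(a * n)) * ((2 * t) ^ D.card * 1 ^ (n - D.card)) := by
    intro D
    by_cases h1 : (D.card : ℝ) ≤ a * n
    · simp only [h1, true_and]
      rw [← Finset.sum_filter, Finset.sum_const, nsmul_eq_mul, mul_one]
      refine (hy D).trans ?_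
      rw [one_pow, mul_one, mul_pow]
      have h2 : t ^ (-(D.card : ℝ)) ≤ t ^ (-(a * n)) :=
        Real.rpow_le_rpow_of_exponent_ge ht0 ht1 (by linarith)
      have h3 : t ^ (-(D.card : ℝ)) * t ^ D.card = 1 := by
        rw [Real.rpow_neg ht0.le, Real.rpow_natCast, inv_mul_cancel₀ (by positivity)]
      have h4 : 1 ≤ t ^ (-(a * n)) * t ^ D.card := by
        rw [← h3]
        exact mul_le_mul_of_nonneg_right h2 (by positivity)
      calc (2 : ℝ) ^ D.card = 2 ^ D.card * 1 := (mul_one _).symm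
        _ ≤ 2 ^ D.card * (t ^ (-(a * n)) * t ^ D.card) := mul_le_mul_of_nonneg_left h4 (by positivity)
        _ = _ := by ring
    · simp only [h1, false_and, if_false, Finset.sum_const_zero]
      have := Real.rpow_pos_of_pos ht0 (-(a * n))
      positivity
  have h1 : (((univ : Finset (Finset (Fin n) × (Fin n → Bool))).filter fun s =>
      (s.1.card : ℝ) ≤ a * n ∧ ∀ v, v ∉ s.1 → s.2 v = false).card : ℝ) =
      ∑ D : Finset (Fin n), ∑ y : Fin n → Bool,
        (if ((D.card : ℝ) ≤ a * n ∧ ∀ v, v ∉ D → y v = false) then (1 : ℝ) else 0) := by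
    rw [← Fintype.sum_prod_type' (f := fun (D : Finset (Fin n)) (y : Fin n → Bool) =>
      (if ((D.card : ℝ) ≤ a * n ∧ ∀ v, v ∉ D → y v = false) then (1 : ℝ) else 0))]
    rw [← Finset.sum_filter, Finset.sum_const, nsmul_eq_mul, mul_one]
  rw [h1]
  refine (Finset.sum_le_sum fun D _ => hD D).trans ?_
  rw [← Finset.mul_sum]
  have h2 : ∑ D : Finset (Fin n), (2 * t) ^ D.card * (1 : ℝ) ^ (n - D.card) = (2 * t + 1) ^ n := by
    have h3 := Finset.sum_pow_mul_eq_add_pow (2 * t) (1 : ℝ) (univ : Finset (Fin n))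
    rw [Finset.card_univ, Fintype.card_fin, Finset.powerset_univ] at h3
    exact h3
  rw [h2]
  have h4 : t ^ (-(a * n)) = Real.exp (a * n * (- Real.log t)) := by
    rw [Real.rpow_def_of_pos ht0]
    congr 1
    ring
  have h5 : (2 * t + 1) ^ n ≤ Real.exp (2 * t * n) := by
    rw [mul_comm (2 * t) (n : ℝ), Real.exp_nat_mul]
    exact pow_le_pow_left₀ (by positivity) (Real.add_one_le_exp _) n
  have h6 : (2 : ℝ) ^ (η * n) = Real.exp (η * n * Real.log 2) := by
    rw [Real.rpow_def_of_pos (by norm_num)]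
    congr 1
    ring
  rw [h4, h6]
  refine (mul_le_mul_of_nonneg_left h5 (Real.exp_pos _).le).trans ?_
  rw [← Real.exp_add]
  refine Real.exp_le_exp.2 ?_
  have hn : (0 : ℝ) ≤ n := Nat.cast_nonneg n
  nlinarith [mul_le_mul_of_nonneg_right ha1 hn, mul_le_mul_of_nonneg_right ht2 hn]

theorem log_sum {l : List ℕ} {a : ℕ} (ha : 1 ≤ a) (hl : ∀ s ∈ l, a ≤ s) :
    ((l.prod : ℕ) : ℝ) ≤ Real.exp (2 * (l.sum : ℕ) / Real.sqrt a) := by
  have hsa : 0 < Real.sqrt a := Real.sqrt_pos.2 (by exact_mod_cast ha)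
  have key : ∀ s : ℕ, a ≤ s → (s : ℝ) ≤ Real.exp (2 * s / Real.sqrt a) := by
    intro s hs
    have hs0 : (0 : ℝ) ≤ s := Nat.cast_nonneg s
    have h1 : Real.sqrt s ≤ Real.exp (Real.sqrt s) := by
      have := Real.add_one_le_exp (Real.sqrt s)
      linarith
    have h2 : (s : ℝ) ≤ Real.exp (2 * Real.sqrt s) := by
      calc (s : ℝ) = Real.sqrt s * Real.sqrt s := (Real.mul_self_sqrt hs0).symm
        _ ≤ Real.exp (Real.sqrt s) * Real.exp (Real.sqrt s) :=
          mul_le_mul h1 h1 (Real.sqrt_nonneg _) (Real.exp_pos _).le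
        _ = Real.exp (2 * Real.sqrt s) := by rw [← Real.exp_add]; congr 1; ring
    refine h2.trans (Real.exp_le_exp.2 ?_)
    rw [le_div_iff₀ hsa, mul_assoc]
    have h3 : Real.sqrt a ≤ Real.sqrt s := Real.sqrt_le_sqrt (by exact_mod_cast hs)
    have h4 : Real.sqrt s * Real.sqrt a ≤ Real.sqrt s * Real.sqrt s :=
      mul_le_mul_of_nonneg_left h3 (Real.sqrt_nonneg _)
    rw [Real.mul_self_sqrt hs0] at h4
    linarith
  induction l with
  | nil => simp
  | cons s l ih =>
    have h1 := ih fun x hx => hl x (List.mem_cons_of_mem _ hx)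
    have h2 := key s (hl s List.mem_cons_self)
    rw [List.prod_cons, List.sum_cons, Nat.cast_mul, Nat.cast_add]
    calc (s : ℝ) * ((l.prod : ℕ) : ℝ) ≤ Real.exp (2 * s / Real.sqrt a) * Real.exp (2 * (l.sum : ℕ) / Real.sqrt a) :=
          mul_le_mul h2 h1 (Nat.cast_nonneg _) (Real.exp_pos _).le
      _ = Real.exp (2 * ((s : ℝ) + (l.sum : ℕ)) / Real.sqrt a) := by
        rw [← Real.exp_add, mul_add, add_div]

end Pool.H6.LD
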