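import Mathlib
import Pool.Agent.H6.LD.Defs

set_option autoImplicit false
set_option linter.unusedSectionVars false

/-!
# Module WOR (THEOREM LD): the world of an expanding system of linear equations

`hx`: every set `I` of at most `r` equations has `I.card ≤ 4 * (par B I).card`; `hK : 8 * K ≤ r`.
PROOFS. `sm_symm`: `sm x (S ∆ T) = sm x S + sm x T` in `ZMod 2` (twice the sum over `S ∩ T` is `0`).
* `xwld`: `cong`, `mono` clear (`Finset.sum_congr`). `emp`: `par B I ⊆ ∅` gives `I.card ≤ 0`, so `I = ∅`, both sums are `0`. `ext`: if `v ∈ D` take `y = x`. Otherwise let `x1` be `x` changed at `v`.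
  If neither `Con (insert v D) x` nor `Con (insert v D) x1`, there are `I0`, `I1` with at most `r` elements, `par B Ii ⊆ insert v D`, `sm x (par B I0) ≠ sm b I0`, `sm x1 (par B I1) ≠ sm b I1`.
  By `hx` they have at most `4 * (D.card + 1) ≤ 4 * K ≤ r / 2` elements. `v ∈ par B Ii` (otherwise `par B Ii ⊆ D`, contradiction to `Con D x`; `x1 = x` on `D`). `I := I0 ∆ I1` has at most `r` elements,
  `par B I = par B I0 ∆ par B I1 ⊆ D` (`par_symm`; `v` is in both). `sm x1 (par B I1) = sm x (par B I1) + 1` (`v ∈ par B I1`, in `ZMod 2`), so in `ZMod 2` (`a ≠ c` means `a = c + 1`)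
  `sm x (par B I0) = sm b I0 + 1`, `sm x (par B I1) = sm b I1 + 1 + 1 = sm b I1`, hence `sm x (par B I) = sm b I + 1`: contradiction to `Con D x`.
* `xpair`: one step: for `v ∉ D`, `D.card < K`, EITHER for all `x` with `Con D x` both `Con (insert v D) x` and `Con (insert v D) (x changed at v)`, OR for all `x` with `Con D x` exactly one of the two.
  (The second case if there is `I0` with at most `r` elements, `v ∈ par B I0 ⊆ insert v D`: then at most one of the two holds, and at least one by the proof of `ext`; in the first case the two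
  conditions are the ones of `Con D`.)
* `xun`: induction on `U \ W`: for `v ∉ U' ⊇ W` and `P` depending only on `W` the numbers `#{x | Con (insert v U') x ∧ P x}` and `#{x | Con U' x ∧ P x}` have the ratio `1` resp. `1 / 2` (by the involution `x ↦ x` changed at
  `v`, `Con U'` and `P` are invariant), the same ratio for `P = True`.
* `xpos`: `#{x | Con U x} > 0` for `U.card ≤ K` (`Wld.ext`, induction from `Con ∅ x`).
-/

namespace Pool.H6.LD

open Finset Classical Pool.Agent.H3.Frg Pool.Agent.H3.Frg2 Pool.Agent.H3.Frg4 Pool.Agent.H55.QT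

variable {n m K r : ℕ} {B : Fin m → Finset (Fin n)} {b : Fin m → Bool}

private theorem sm_symm' {α : Type} [DecidableEq α] (x : α → Bool) (S T : Finset α) :
    sm x (symmDiff S T) = sm x S + sm x T := by
  have e1 : symmDiff S T = (S \ T) ∪ (T \ S) := by
    ext a
    simp [Finset.mem_symmDiff]
  have e2 : Disjoint (S \ T) (T \ S) := by
    rw [Finset.disjoint_left]
    intro a ha hb
    simp only [Finset.mem_sdiff] at ha hb
    exact hb.2 ha.1
  have e3 : sm x S = sm x (S \ T) + sm x (S ∩ T) := by
    unfold sm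
    rw [← Finset.sum_union (Finset.disjoint_sdiff_inter S T), Finset.sdiff_union_inter]
  have e4 : sm x T = sm x (T \ S) + sm x (S ∩ T) := by
    unfold sm
    rw [Finset.inter_comm S T, ← Finset.sum_union (Finset.disjoint_sdiff_inter T S),
      Finset.sdiff_union_inter]
  have e5 : sm x (symmDiff S T) = sm x (S \ T) + sm x (T \ S) := by
    rw [e1]
    unfold sm
    exact Finset.sum_union e2
  have e6 : sm x (S ∩ T) + sm x (S ∩ T) = 0 := CharTwo.add_self_eq_zero _
  rw [e5, e3, e4]
  calc sm x (S \ T) + sm x (T \ S) = sm x (S \ T) + sm x (T \ S) + 0 := by rw [add_zero]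
    _ = sm x (S \ T) + sm x (T \ S) + (sm x (S ∩ T) + sm x (S ∩ T)) := by rw [e6]
    _ = _ := by ring

theorem sm_symm {α : Type} (x : α → Bool) (S T : Finset α) :
    sm x (symmDiff S T) = sm x S + sm x T :=
  sm_symm' x S T

private noncomputable def fl (v : Fin n) (x : Fin n → Bool) : Fin n → Bool := Function.update x v (!x v)

private theorem fl_self (v : Fin n) (x : Fin n → Bool) : fl v x v = !x v := by
  unfold fl
  rw [Function.update_self]

private theorem fl_ne {v w : Fin n} (h : w ≠ v) (x : Fin n → Bool) : fl v x w = x w := by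
  unfold fl
  rw [Function.update_of_ne h]

private theorem fl_fl (v : Fin n) (x : Fin n → Bool) : fl v (fl v x) = x := by
  funext w
  by_cases h : w = v
  · rw [h, fl_self, fl_self, Bool.not_not]
  · rw [fl_ne h, fl_ne h]

private theorem sm_congr {x y : Fin n → Bool} {S : Finset (Fin n)} (h : ∀ v ∈ S, x v = y v) :
    sm x S = sm y S := by
  unfold sm
  exact Finset.sum_congr rfl fun v hv => by rw [h v hv]

private theorem sm_fl {v : Fin n} (x : Fin n → Bool) {S : Finset (Fin n)} (h : v ∈ S) :
    sm (fl v x) S = sm x S + 1 := by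
  unfold sm
  rw [← Finset.add_sum_erase S _ h, ← Finset.add_sum_erase S (fun w => if x w = true then (1 : ZMod 2) else 0) h]
  have h1 : ∑ w ∈ S.erase v, (if fl v x w = true then (1 : ZMod 2) else 0) =
      ∑ w ∈ S.erase v, if x w = true then (1 : ZMod 2) else 0 :=
    Finset.sum_congr rfl fun w hw => by rw [fl_ne (Finset.ne_of_mem_erase hw)]
  rw [h1, fl_self]
  have h2 : ∀ (c : Bool) (z : ZMod 2), (if (!c) = true then (1 : ZMod 2) else 0) + z =
      (if c = true then (1 : ZMod 2) else 0) + z + 1 := by decide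
  exact h2 _ _

private theorem sm_fl_ne {v : Fin n} (x : Fin n → Bool) {S : Finset (Fin n)} (h : v ∉ S) :
    sm (fl v x) S = sm x S :=
  sm_congr fun _ hw => fl_ne (ne_of_mem_of_not_mem hw h) x

private theorem zm2 : ∀ a c : ZMod 2, a ≠ c → a = c + 1 := by decide

private theorem xmono {D D' : Finset (Fin n)} {x : Fin n → Bool} (h : D ⊆ D') (h' : XCon B b r D' x) :
    XCon B b r D x := fun I hI hs => h' I hI (hs.trans h)

private theorem xcong {D : Finset (Fin n)} {x y : Fin n → Bool} (h : ∀ v ∈ D, x v = y v)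
    (h' : XCon B b r D x) : XCon B b r D y := by
  intro I hI hs
  rw [← h' I hI hs]
  exact (sm_congr fun v hv => h v (hs hv)).symm

private theorem xfl {D : Finset (Fin n)} {v : Fin n} (hv : v ∉ D) {x : Fin n → Bool}
    (h' : XCon B b r D x) : XCon B b r D (fl v x) :=
  xcong (fun _ hw => (fl_ne (ne_of_mem_of_not_mem hw hv) x).symm) h'

private theorem sd_le {α : Type} [DecidableEq α] (S T : Finset α) :
    (symmDiff S T).card ≤ S.card + T.card := by
  have e1 : symmDiff S T = (S \ T) ∪ (T \ S) := by
    ext a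
    simp [Finset.mem_symmDiff]
  rw [e1]
  refine (Finset.card_union_le _ _).trans ?_
  exact Nat.add_le_add (Finset.card_le_card Finset.sdiff_subset) (Finset.card_le_card Finset.sdiff_subset)

private theorem xkey (hx : ∀ I : Finset (Fin m), I.card ≤ r → I.card ≤ 4 * (par B I).card) (hK : 8 * K ≤ r)
    {D : Finset (Fin n)} {v : Fin n} (hD : D.card < K) (hv : v ∉ D) {x : Fin n → Bool}
    (hc : XCon B b r D x) : XCon B b r (insert v D) x ∨ XCon B b r (insert v D) (fl v x) := by
  by_contra hcon
  rw [not_or] at hcon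
  obtain ⟨h0, h1⟩ := hcon
  unfold XCon at h0 h1
  push Not at h0 h1
  obtain ⟨I0, hI0, hs0, hn0⟩ := h0
  obtain ⟨I1, hI1, hs1, hn1⟩ := h1
  have hcard : ∀ I : Finset (Fin m), I.card ≤ r → par B I ⊆ insert v D → 2 * I.card ≤ r := by
    intro I hI hs
    have e1 := hx I hI
    have e2 := Finset.card_le_card hs
    rw [Finset.card_insert_of_notMem hv] at e2
    omega
  have hc0 := hcard I0 hI0 hs0
  have hc1 := hcard I1 hI1 hs1
  have hv0 : v ∈ par B I0 := by
    by_contra h
    exact hn0 (hc I0 hI0 ((Finset.subset_insert_iff_of_notMem h).1 hs0))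
  have hv1 : v ∈ par B I1 := by
    by_contra h
    refine hn1 ?_
    rw [sm_fl_ne x h]
    exact hc I1 hI1 ((Finset.subset_insert_iff_of_notMem h).1 hs1)
  have hpar : par B (symmDiff I0 I1) = symmDiff (par B I0) (par B I1) := by
    convert par_symm B I0 I1
  have hIc : (symmDiff I0 I1).card ≤ r := by
    have := sd_le I0 I1
    omega
  have hsub : par B (symmDiff I0 I1) ⊆ D := by
    rw [hpar]
    intro w hw
    rw [Finset.mem_symmDiff] at hw
    have hwv : w ≠ v := by
      rintro rfl
      rcases hw with h | h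
      · exact h.2 hv1
      · exact h.2 hv0
    rcases hw with h | h
    · exact Finset.mem_of_mem_insert_of_ne (hs0 h.1) hwv
    · exact Finset.mem_of_mem_insert_of_ne (hs1 h.1) hwv
  have h2 := hc _ hIc hsub
  rw [hpar, sm_symm', sm_symm'] at h2
  rw [sm_fl x hv1] at hn1
  have h3 := zm2 _ _ hn0
  have h4 := zm2 _ _ hn1
  have h5 : ∀ a c d e : ZMod 2, a + c = d + e → a = d + 1 → c + 1 = e + 1 → False := by decide
  exact h5 _ _ _ _ h2 h3 h4

theorem xwld (hx : ∀ I : Finset (Fin m), I.card ≤ r → I.card ≤ 4 * (par B I).card) (hK : 8 * K ≤ r) :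
    Wld (XCon B b r) K := by
  refine ⟨fun D x y h h' => xcong h h', fun D D' x h h' => xmono h h', ?_, ?_⟩
  · intro D x v hD hc
    by_cases hv : v ∈ D
    · refine ⟨x, fun _ _ => rfl, ?_⟩
      rw [Finset.insert_eq_of_mem hv]
      exact hc
    · rcases xkey hx hK hD hv hc with h | h
      · exact ⟨x, fun _ _ => rfl, h⟩
      · exact ⟨fl v x, fun w hw => fl_ne (ne_of_mem_of_not_mem hw hv) x, h⟩
  · intro x I hI hs
    have h1 : par B I = ∅ := Finset.subset_empty.1 hs
    have h2 := hx I hI
    rw [h1, Finset.card_empty, mul_zero, Nat.le_zero, Finset.card_eq_zero] at h2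
    rw [h1, h2]
    unfold sm
    rw [Finset.sum_empty, Finset.sum_empty]

private theorem xpair (hx : ∀ I : Finset (Fin m), I.card ≤ r → I.card ≤ 4 * (par B I).card) (hK : 8 * K ≤ r)
    {D : Finset (Fin n)} {v : Fin n} (hD : D.card < K) (hv : v ∉ D) :
    (∀ x, XCon B b r D x → XCon B b r (insert v D) x) ∨
    (∀ x, XCon B b r D x → (XCon B b r (insert v D) x ↔ ¬ XCon B b r (insert v D) (fl v x))) := by
  by_cases h : ∃ I0 : Finset (Fin m), I0.card ≤ r ∧ v ∈ par B I0 ∧ par B I0 ⊆ insert v D
  · obtain ⟨I0, h1, h2, h3⟩ := h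
    right
    intro x hc
    constructor
    · intro h4 h5
      have h6 := h4 I0 h1 h3
      have h7 := h5 I0 h1 h3
      rw [sm_fl x h2, h6] at h7
      have h8 : ∀ a : ZMod 2, a + 1 ≠ a := by decide
      exact h8 _ h7
    · intro h4
      exact (xkey hx hK hD hv hc).resolve_right h4
  · push Not at h
    left
    intro x hc I hI hs
    have h1 : v ∉ par B I := fun h' => h I hI h' hs
    exact hc I hI ((Finset.subset_insert_iff_of_notMem h1).1 hs)

private theorem xstep (hx : ∀ I : Finset (Fin m), I.card ≤ r → I.card ≤ 4 * (par B I).card) (hK : 8 * K ≤ r)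
    {D : Finset (Fin n)} {v : Fin n} (hD : D.card < K) (hv : v ∉ D) :
    ∃ c : ℕ, ∀ P : (Fin n → Bool) → Prop, (∀ x, P x → P (fl v x)) →
      (univ.filter fun x => XCon B b r D x ∧ P x).card =
        c * (univ.filter fun x => XCon B b r (insert v D) x ∧ P x).card := by
  rcases xpair (b := b) hx hK hD hv with h | h
  · refine ⟨1, fun P _ => ?_⟩
    rw [one_mul]
    congr 1
    ext x
    rw [Finset.mem_filter, Finset.mem_filter]
    constructor
    · rintro ⟨h1, h2, h3⟩
      exact ⟨h1, h x h2, h3⟩
    · rintro ⟨h1, h2, h3⟩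
      exact ⟨h1, xmono (Finset.subset_insert v D) h2, h3⟩
  · refine ⟨2, fun P hP => ?_⟩
    have hP' : ∀ x, P (fl v x) → P x := fun x h1 => by
      have h2 := hP _ h1
      rw [fl_fl] at h2
      exact h2
    have e1 : (univ.filter fun x => XCon B b r D x ∧ P x) =
        (univ.filter fun x => XCon B b r (insert v D) x ∧ P x) ∪
        (univ.filter fun x => XCon B b r (insert v D) (fl v x) ∧ P x) := by
      ext x
      rw [Finset.mem_union, Finset.mem_filter, Finset.mem_filter, Finset.mem_filter]
      constructor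
      · rintro ⟨h1, h2, h3⟩
        by_cases h4 : XCon B b r (insert v D) (fl v x)
        · exact Or.inr ⟨h1, h4, h3⟩
        · exact Or.inl ⟨h1, (h x h2).2 h4, h3⟩
      · rintro (⟨h1, h2, h3⟩ | ⟨h1, h2, h3⟩)
        · exact ⟨h1, xmono (Finset.subset_insert v D) h2, h3⟩
        · refine ⟨h1, ?_, h3⟩
          have h4 := xfl hv (xmono (Finset.subset_insert v D) h2)
          rw [fl_fl] at h4
          exact h4
    have e2 : Disjoint (univ.filter fun x => XCon B b r (insert v D) x ∧ P x)
        (univ.filter fun x => XCon B b r (insert v D) (fl v x) ∧ P x) := by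
      rw [Finset.disjoint_left]
      intro x h1 h2
      rw [Finset.mem_filter] at h1 h2
      exact (h x (xmono (Finset.subset_insert v D) h1.2.1)).1 h1.2.1 h2.2.1
    have e3 : (univ.filter fun x => XCon B b r (insert v D) (fl v x) ∧ P x).card =
        (univ.filter fun x => XCon B b r (insert v D) x ∧ P x).card := by
      refine Finset.card_bij (fun x _ => fl v x) ?_ ?_ ?_
      · intro x hx'
        rw [Finset.mem_filter] at hx' ⊢
        exact ⟨Finset.mem_univ _, hx'.2.1, hP x hx'.2.2⟩
      · intro x _ y _ hxy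
        have h1 := congrArg (fl v) hxy
        simp only [fl_fl] at h1
        exact h1
      · intro y hy
        rw [Finset.mem_filter] at hy
        refine ⟨fl v y, ?_, fl_fl v y⟩
        rw [Finset.mem_filter, fl_fl]
        exact ⟨Finset.mem_univ _, hy.2.1, hP y hy.2.2⟩
    rw [e1, Finset.card_union_of_disjoint e2, e3, two_mul]

private theorem xind (hx : ∀ I : Finset (Fin m), I.card ≤ r → I.card ≤ 4 * (par B I).card) (hK : 8 * K ≤ r)
    (W : Finset (Fin n)) (S : Finset (Fin n)) : Disjoint S W → (W ∪ S).card ≤ K →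
    ∃ c : ℕ, ∀ P : (Fin n → Bool) → Prop, (∀ x y, (∀ v ∈ W, x v = y v) → P x → P y) →
      (univ.filter fun x => XCon B b r W x ∧ P x).card =
        c * (univ.filter fun x => XCon B b r (W ∪ S) x ∧ P x).card := by
  induction S using Finset.induction_on with
  | empty =>
    intro _ _
    refine ⟨1, fun P _ => ?_⟩
    rw [one_mul, Finset.union_empty]
  | insert v S hvS ih =>
    intro hd hk
    rw [Finset.disjoint_insert_left] at hd
    have hv : v ∉ W ∪ S := by
      rw [Finset.mem_union, not_or]
      exact ⟨hd.1, hvS⟩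
    have he : W ∪ insert v S = insert v (W ∪ S) := Finset.union_insert v W S
    rw [he, Finset.card_insert_of_notMem hv] at hk
    obtain ⟨c, hc⟩ := ih hd.2 (by omega)
    obtain ⟨c', hc'⟩ := xstep (b := b) hx hK (D := W ∪ S) (v := v) (by omega) hv
    refine ⟨c * c', fun P hP => ?_⟩
    rw [hc P hP, hc' P (fun x h => hP x _ (fun w hw => (fl_ne (ne_of_mem_of_not_mem hw hd.1) x).symm) h),
      mul_assoc, he]

theorem xun (hx : ∀ I : Finset (Fin m), I.card ≤ r → I.card ≤ 4 * (par B I).card) (hK : 8 * K ≤ r)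
    {W U : Finset (Fin n)} (hW : W ⊆ U) (hU : U.card ≤ K) (P : (Fin n → Bool) → Prop)
    (hP : ∀ x y, (∀ v ∈ W, x v = y v) → P x → P y) :
    (univ.filter fun x => XCon B b r U x ∧ P x).card * (univ.filter fun x => XCon B b r W x).card =
      (univ.filter fun x => XCon B b r W x ∧ P x).card * (univ.filter fun x => XCon B b r U x).card := by
  have hWU : W ∪ (U \ W) = U := Finset.union_sdiff_of_subset hW
  obtain ⟨c, hc⟩ := xind (b := b) hx hK W (U \ W) Finset.sdiff_disjoint (by rw [hWU]; exact hU)
  rw [hWU] at hc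
  have h1 := hc P hP
  have h2 : (univ.filter fun x => XCon B b r W x).card =
      c * (univ.filter fun x => XCon B b r U x).card := by
    have h := hc (fun _ => True) (fun _ _ _ _ => trivial)
    simpa using h
  rw [h1, h2]
  ring

theorem xpos (hx : ∀ I : Finset (Fin m), I.card ≤ r → I.card ≤ 4 * (par B I).card) (hK : 8 * K ≤ r)
    {U : Finset (Fin n)} (hU : U.card ≤ K) : 0 < (univ.filter fun x => XCon B b r U x).card := by
  have hw := xwld (b := b) hx hK
  have key : ∀ S : Finset (Fin n), S.card ≤ K → ∃ x, XCon B b r S x := by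
    intro S
    induction S using Finset.induction_on with
    | empty =>
      intro _
      exact ⟨fun _ => false, hw.emp _⟩
    | insert v S hvS ih =>
      intro hk
      rw [Finset.card_insert_of_notMem hvS] at hk
      obtain ⟨x, hx'⟩ := ih (by omega)
      obtain ⟨y, -, hy⟩ := hw.ext S x v (by omega) hx'
      exact ⟨y, hy⟩
  obtain ⟨x, hx'⟩ := key U hU
  exact Finset.card_pos.2 ⟨x, Finset.mem_filter.2 ⟨Finset.mem_univ _, hx'⟩⟩

end Pool.H6.LD
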