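import Mathlib
import Pool.Agent.H6.LD.Wor

set_option autoImplicit false
set_option linter.unusedSectionVars false

/-!
# Module IND (THEOREM LD): sets which are far apart are independent

`nb B S`: `S` and all equations (supports) that meet `S`. `nb_symm`: `u ∈ (nb B)^[R] {v} ↔ v ∈ (nb B)^[R] {u}` and `(nb B)^[R] S = ⋃ v ∈ S, (nb B)^[R] {v}`.

`xind`. Let `t` be a family of pairs with `p.1.card ≤ A` and `Disjoint ((nb B)^[8 * A + 1] p.1) p'.1` for `p ≠ p'` in `t`; `J ⊆ t`, `W = ⋃ p ∈ J, p.1`. CLAIM: `XCon B b r p.1 x` for all `p ∈ J`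
implies `XCon B b r W x`.
PROOF. Let `I.card ≤ r`, `par B I ⊆ W`; show `sm x (par B I) = sm b I` by strong induction on `I.card`. `I = ∅`: `0 = 0`. If there is `∅ ≠ I' ⊂ I` with `par B I' ⊆ W`: then
`I \ I' = I ∆ I'`, `par B (I \ I') = par B I ∆ par B I' ⊆ W` (`par_symm`), both are smaller, add the two equations (`sm_symm` for `x`; for `b`: `I = I' ∆ (I \ I')`).
Otherwise `I` is prime: no `∅ ≠ I' ⊂ I` has `par B I' ⊆ W`. Let `p ∈ J` with `par B I ∩ p.1 ≠ ∅` (touched; if none then `par B I = ∅`, `I.card ≤ 0` by `hx`). For `ρ ≥ 0` put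
`I_ρ = {j ∈ I | B j meets (nb B)^[ρ] p.1}`. `I_0 ≠ ∅` (an element of `par B I` lies in some `B j`, `j ∈ I`); `I_ρ ⊆ I_(ρ+1)`. If `I_ρ = I_(ρ+1)` then `I_ρ = I`: for `j ∈ I_ρ`, `j' ∈ I \ I_ρ`:
`B j ⊆ (nb B)^[ρ+1] p.1`, `B j'` does not meet it, so the unions of `B j` over `I_ρ` and over `I \ I_ρ` are disjoint and `par B I_ρ ⊆ par B I ⊆ W`; prime gives `I_ρ = I`. So `I_(4A) = I` or
`I_(4A).card ≥ 4 * A + 1` (`I_ρ.card ≥ ρ + 1` as long as `I_ρ ≠ I`, induction).
(a) If `I_(4A) = I` for some touched `p`: every `B j`, `j ∈ I`, lies in `(nb B)^[4A+1] p.1`, so `par B I` does (it lies in the union of the `B j`), and by the separation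
`par B I` meets no other `p'.1` (`4 A + 1 ≤ 8 A + 1`, `nb` is increasing), so `par B I ⊆ p.1`, and `XCon B b r p.1 x` gives the equation.
(b) Otherwise all `t0 ≥ 1` touched `p` have `(I_(4A)^p).card ≥ 4 A + 1`; these sets are disjoint for different `p`, `p'`: if `B j` meets `(nb B)^[4A] p.1` in `u` and `(nb B)^[4A] p'.1` in `u'`, then
`u' ∈ (nb B)^[4A+1] p.1`, and by `nb_symm` some `v ∈ p'.1` is in `(nb B)^[4A] {u'}`, so `v ∈ (nb B)^[8A+1] p.1`, against the separation. So `t0 * (4 A + 1) ≤ I.card ≤ 4 * (par B I).card ≤ 4 * t0 * A`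
(`par B I` lies in the union of the touched `p.1`): contradiction.
-/

namespace Pool.H6.LD

open Finset Classical Pool.Agent.H3.Frg Pool.Agent.H3.Frg2 Pool.Agent.H3.Frg4 Pool.Agent.H55.QT

variable {n m K r : ℕ} {B : Fin m → Finset (Fin n)} {b : Fin m → Bool}

private theorem ind_mem {S : Finset (Fin n)} {u : Fin n} :
    u ∈ nb B S ↔ u ∈ S ∨ ∃ j, ¬ Disjoint (B j) S ∧ u ∈ B j := by
  simp only [nb, mem_union, mem_biUnion, mem_filter, mem_univ, true_and]

private theorem ind_un {S : Finset (Fin n)} {u : Fin n} : u ∈ nb B S ↔ ∃ v ∈ S, u ∈ nb B {v} := by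
  constructor
  · intro h
    rcases ind_mem.1 h with h | ⟨j, h1, h2⟩
    · exact ⟨u, h, ind_mem.2 (Or.inl (mem_singleton_self u))⟩
    · rw [Finset.not_disjoint_iff] at h1
      obtain ⟨v, h3, h4⟩ := h1
      refine ⟨v, h4, ind_mem.2 (Or.inr ⟨j, ?_, h2⟩)⟩
      rw [Finset.not_disjoint_iff]
      exact ⟨v, h3, mem_singleton_self v⟩
  · rintro ⟨v, hv, h⟩
    rcases ind_mem.1 h with h | ⟨j, h1, h2⟩
    · rw [mem_singleton] at h
      exact ind_mem.2 (Or.inl (by rw [h]; exact hv))
    · rw [Finset.not_disjoint_iff] at h1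
      obtain ⟨w, h3, h4⟩ := h1
      rw [mem_singleton] at h4
      refine ind_mem.2 (Or.inr ⟨j, ?_, h2⟩)
      rw [Finset.not_disjoint_iff]
      exact ⟨v, by rw [← h4]; exact h3, hv⟩

private theorem ind_sy {u v : Fin n} : u ∈ nb B {v} ↔ v ∈ nb B {u} := by
  have h : ∀ u v : Fin n, u ∈ nb B {v} → v ∈ nb B {u} := by
    intro u v h
    rcases ind_mem.1 h with h | ⟨j, h1, h2⟩
    · rw [mem_singleton] at h
      exact ind_mem.2 (Or.inl (by rw [mem_singleton, h]))
    · rw [Finset.not_disjoint_iff] at h1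
      obtain ⟨w, h3, h4⟩ := h1
      rw [mem_singleton] at h4
      refine ind_mem.2 (Or.inr ⟨j, ?_, by rw [← h4]; exact h3⟩)
      rw [Finset.not_disjoint_iff]
      exact ⟨u, h2, mem_singleton_self u⟩
  exact ⟨h u v, h v u⟩

theorem nb_union {R : ℕ} {S : Finset (Fin n)} {u : Fin n} :
    u ∈ (nb B)^[R] S ↔ ∃ v ∈ S, u ∈ (nb B)^[R] {v} := by
  induction R generalizing u with
  | zero => simp
  | succ R ih =>
    simp only [Function.iterate_succ_apply']
    constructor
    · intro h
      obtain ⟨w, hw, h1⟩ := ind_un.1 h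
      obtain ⟨v, hv, h2⟩ := ih.1 hw
      exact ⟨v, hv, ind_un.2 ⟨w, h2, h1⟩⟩
    · rintro ⟨v, hv, h⟩
      obtain ⟨w, hw, h1⟩ := ind_un.1 h
      exact ind_un.2 ⟨w, ih.2 ⟨v, hv, hw⟩, h1⟩

theorem nb_symm {R : ℕ} {u v : Fin n} : u ∈ (nb B)^[R] {v} ↔ v ∈ (nb B)^[R] {u} := by
  have h : ∀ (R : ℕ) (u v : Fin n), u ∈ (nb B)^[R] {v} → v ∈ (nb B)^[R] {u} := by
    intro R
    induction R with
    | zero =>
      intro u v h
      simp only [Function.iterate_zero, id_eq, mem_singleton] at h ⊢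
      exact h.symm
    | succ R ih =>
      intro u v h
      rw [Function.iterate_succ_apply'] at h
      obtain ⟨w, hw, h1⟩ := ind_un.1 h
      rw [Function.iterate_succ_apply]
      exact nb_union.2 ⟨w, ind_sy.1 h1, ih w v hw⟩
  exact ⟨h R u v, h R v u⟩

theorem nb_mono {R R' : ℕ} (h : R ≤ R') (S : Finset (Fin n)) : (nb B)^[R] S ⊆ (nb B)^[R'] S := by
  induction R', h using Nat.le_induction with
  | base => exact Finset.Subset.refl _
  | succ k _ ih =>
    rw [Function.iterate_succ_apply']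
    exact ih.trans fun u hu => ind_mem.2 (Or.inl hu)

private theorem ind_sm {k : ℕ} (x : Fin k → Bool) (S T : Finset (Fin k)) :
    sm x (symmDiff S T) = sm x S + sm x T := by
  rw [← sm_symm x S T]
  exact congrArg (sm x) (by ext v; simp only [Finset.mem_symmDiff])

private theorem ind_par {I : Finset (Fin m)} {u : Fin n} (h : u ∈ par B I) : ∃ j ∈ I, u ∈ B j := by
  rw [Pool.Agent.H55.QT.par, mem_filter] at h
  have h1 : (I.filter fun j => u ∈ B j).card ≠ 0 := by
    intro h2
    rw [h2] at h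
    exact absurd h.2 (by decide)
  obtain ⟨j, hj⟩ := Finset.card_ne_zero.1 h1
  rw [mem_filter] at hj
  exact ⟨j, hj.1, hj.2⟩

/-- the equations which meet the ball of radius `ρ` -/
private noncomputable def ind_I (B : Fin m → Finset (Fin n)) (I : Finset (Fin m)) (S : Finset (Fin n)) (ρ : ℕ) :
    Finset (Fin m) :=
  I.filter fun j => ¬ Disjoint (B j) ((nb B)^[ρ] S)

private theorem ind_next {j : Fin m} {S : Finset (Fin n)} {ρ : ℕ} (h : ¬ Disjoint (B j) ((nb B)^[ρ] S)) {u : Fin n}
    (hu : u ∈ B j) : u ∈ (nb B)^[ρ + 1] S := by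
  rw [Function.iterate_succ_apply']
  exact ind_mem.2 (Or.inr ⟨j, h, hu⟩)

private theorem ind_grow {I : Finset (Fin m)} {S W : Finset (Fin n)} (hW : par B I ⊆ W)
    (hp : ∀ I' ⊆ I, I'.Nonempty → par B I' ⊆ W → I' = I) (hS : ¬ Disjoint (par B I) S) (ρ : ℕ) :
    ind_I B I S ρ = I ∨ ρ + 1 ≤ (ind_I B I S ρ).card := by
  induction ρ with
  | zero =>
    right
    rw [Finset.not_disjoint_iff] at hS
    obtain ⟨u, hu, hu'⟩ := hS
    obtain ⟨j, hj, hj'⟩ := ind_par hu
    rw [zero_add, Nat.one_le_iff_ne_zero, Finset.card_ne_zero]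
    refine ⟨j, ?_⟩
    rw [ind_I, mem_filter]
    refine ⟨hj, ?_⟩
    rw [Finset.not_disjoint_iff]
    exact ⟨u, hj', hu'⟩
  | succ ρ ih =>
    have hsub : ind_I B I S ρ ⊆ ind_I B I S (ρ + 1) := by
      intro j hj
      rw [ind_I, mem_filter] at hj ⊢
      exact ⟨hj.1, fun h => hj.2 (h.mono_right (nb_mono (Nat.le_succ ρ) S))⟩
    have hI : ∀ ρ, ind_I B I S ρ ⊆ I := fun ρ => Finset.filter_subset _ _
    rcases ih with ih | ih
    · left
      refine Finset.Subset.antisymm (hI _) ?_
      rw [← ih]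
      exact (Finset.Subset.refl _).trans (by rw [ih] at hsub ⊢; exact hsub)
    · rcases eq_or_ne (ind_I B I S ρ) (ind_I B I S (ρ + 1)) with he | hne
      · left
        rw [← he]
        refine hp _ (hI _) ?_ ?_
        · rw [← Finset.card_pos]
          omega
        · refine Finset.Subset.trans ?_ hW
          intro u hu
          obtain ⟨j0, hj0, hu0⟩ := ind_par hu
          rw [ind_I, mem_filter] at hj0
          have hu1 := ind_next hj0.2 hu0
          have hset : (I.filter fun j => u ∈ B j) = (ind_I B I S ρ).filter fun j => u ∈ B j := by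
            ext j
            simp only [mem_filter]
            constructor
            · rintro ⟨h1, h2⟩
              refine ⟨?_, h2⟩
              rw [he, ind_I, mem_filter]
              refine ⟨h1, ?_⟩
              rw [Finset.not_disjoint_iff]
              exact ⟨u, h2, hu1⟩
            · rintro ⟨h1, h2⟩
              exact ⟨hI _ h1, h2⟩
          rw [Pool.Agent.H55.QT.par, mem_filter] at hu ⊢
          rw [hset]
          exact hu
      · right
        have h1 := Finset.card_lt_card (Finset.ssubset_iff_subset_ne.2 ⟨hsub, hne⟩)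
        omega

private theorem ind_prime (hx : ∀ I : Finset (Fin m), I.card ≤ r → I.card ≤ 4 * (par B I).card) {A : ℕ} {t : Tst n}
    (hA : ∀ p ∈ t, p.1.card ≤ A)
    (hsep : ∀ p ∈ t, ∀ p' ∈ t, p ≠ p' → Disjoint ((nb B)^[8 * A + 1] p.1) p'.1)
    {J : Tst n} (hJ : J ⊆ t) {I : Finset (Fin m)} (hI : I.card ≤ r) (hne : I.Nonempty)
    (hW : par B I ⊆ J.biUnion Prod.fst)
    (hp : ∀ I' ⊆ I, I'.Nonempty → par B I' ⊆ J.biUnion Prod.fst → I' = I) : ∃ p ∈ J, par B I ⊆ p.1 := by
  by_contra hcon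
  push Not at hcon
  obtain ⟨T, hT⟩ : ∃ T, T = J.filter fun p => ¬ Disjoint (par B I) p.1 := ⟨_, rfl⟩
  have hTm : ∀ p, p ∈ T ↔ p ∈ J ∧ ¬ Disjoint (par B I) p.1 := by
    intro p
    rw [hT, mem_filter]
  -- all touched sets have many equations
  have h1 : ∀ p ∈ T, 4 * A + 1 ≤ (ind_I B I p.1 (4 * A)).card := by
    intro p hpT
    obtain ⟨hpJ, hd⟩ := (hTm p).1 hpT
    rcases ind_grow hW hp hd (4 * A) with h | h
    · exfalso
      apply hcon p hpJ
      intro u hu
      obtain ⟨j, hj, hj'⟩ := ind_par hu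
      rw [← h, ind_I, mem_filter] at hj
      have hu1 := nb_mono (show 4 * A + 1 ≤ 8 * A + 1 by omega) p.1 (ind_next hj.2 hj')
      obtain ⟨p', hp', hu2⟩ := mem_biUnion.1 (hW hu)
      rcases eq_or_ne p p' with e | e
      · rw [e]
        exact hu2
      · exact absurd hu2 (Finset.disjoint_left.1 (hsep p (hJ hpJ) p' (hJ hp') e) hu1)
    · exact h
  have h2 : ∀ p ∈ T, ∀ p' ∈ T, p ≠ p' → Disjoint (ind_I B I p.1 (4 * A)) (ind_I B I p'.1 (4 * A)) := by
    intro p hpT p' hpT' hpp
    rw [Finset.disjoint_left]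
    intro j hj hj'
    rw [ind_I, mem_filter] at hj hj'
    have h3 := hj'.2
    rw [Finset.not_disjoint_iff] at h3
    obtain ⟨u', hu', hu2⟩ := h3
    have hu3 : u' ∈ (nb B)^[4 * A + 1] p.1 := ind_next hj.2 hu'
    obtain ⟨v, hv, hv2⟩ := nb_union.1 hu2
    have h4 : v ∈ (nb B)^[4 * A] ((nb B)^[4 * A + 1] p.1) := nb_union.2 ⟨u', hu3, nb_symm.1 hv2⟩
    rw [← Function.iterate_add_apply, show 4 * A + (4 * A + 1) = 8 * A + 1 by ring] at h4
    exact Finset.disjoint_left.1 (hsep p (hJ ((hTm p).1 hpT).1) p' (hJ ((hTm p').1 hpT').1) hpp) h4 hv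
  have h3 : T.card * (4 * A + 1) ≤ I.card := by
    calc T.card * (4 * A + 1) ≤ ∑ p ∈ T, (ind_I B I p.1 (4 * A)).card := by
          rw [← smul_eq_mul]
          exact Finset.card_nsmul_le_sum _ _ _ h1
      _ = (T.biUnion fun p => ind_I B I p.1 (4 * A)).card := (Finset.card_biUnion h2).symm
      _ ≤ I.card := Finset.card_le_card (by
          intro j hj
          obtain ⟨p, _, hj⟩ := mem_biUnion.1 hj
          exact Finset.filter_subset _ _ hj)
  have h4 : (par B I).card ≤ T.card * A := by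
    calc (par B I).card ≤ (T.biUnion Prod.fst).card := Finset.card_le_card (by
          intro u hu
          obtain ⟨p, hpJ, hu2⟩ := mem_biUnion.1 (hW hu)
          refine mem_biUnion.2 ⟨p, (hTm p).2 ⟨hpJ, ?_⟩, hu2⟩
          rw [Finset.not_disjoint_iff]
          exact ⟨u, hu, hu2⟩)
      _ ≤ T.card * A := Finset.card_biUnion_le_card_mul _ _ _ fun p hpT => hA p (hJ ((hTm p).1 hpT).1)
  have h5 := hx I hI
  have h6 : 0 < I.card := Finset.card_pos.2 hne
  have h7 : T.card * (4 * A + 1) = 4 * (T.card * A) + T.card := by ring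
  have h8 : T.card = 0 := by omega
  rw [h8, zero_mul] at h4
  omega

theorem xind (hx : ∀ I : Finset (Fin m), I.card ≤ r → I.card ≤ 4 * (par B I).card) {A : ℕ} {t : Tst n}
    (hA : ∀ p ∈ t, p.1.card ≤ A)
    (hsep : ∀ p ∈ t, ∀ p' ∈ t, p ≠ p' → Disjoint ((nb B)^[8 * A + 1] p.1) p'.1)
    {J : Tst n} (hJ : J ⊆ t) {x : Fin n → Bool} (hc : ∀ p ∈ J, XCon B b r p.1 x) :
    XCon B b r (J.biUnion Prod.fst) x := by
  have key : ∀ k : ℕ, ∀ I : Finset (Fin m), I.card = k → I.card ≤ r → par B I ⊆ J.biUnion Prod.fst →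
      sm x (par B I) = sm b I := by
    intro k
    induction k using Nat.strong_induction_on with
    | _ k ih =>
      intro I hk hI hW
      rcases I.eq_empty_or_nonempty with he | hne
      · have h1 : par B (∅ : Finset (Fin m)) = ∅ := by
          rw [Finset.eq_empty_iff_forall_notMem]
          intro u hu
          obtain ⟨j, hj, _⟩ := ind_par hu
          exact absurd hj (Finset.notMem_empty j)
        rw [he, h1]
        simp [sm]
      · by_cases hp : ∀ I' ⊆ I, I'.Nonempty → par B I' ⊆ J.biUnion Prod.fst → I' = I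
        · obtain ⟨p, hpJ, hpp⟩ := ind_prime hx hA hsep hJ hI hne hW hp
          exact hc p hpJ I hI hpp
        · push Not at hp
          obtain ⟨I', hs, hn', hW', hne'⟩ := hp
          have hss : I' ⊂ I := Finset.ssubset_iff_subset_ne.2 ⟨hs, hne'⟩
          have hc1 := Finset.card_lt_card hss
          have hc2 : (I \ I').card < I.card := by
            rw [Finset.card_sdiff_of_subset hs]
            have := Finset.card_pos.2 hn'
            omega
          have e1 : symmDiff I I' = I \ I' := by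
            rw [symmDiff_def, Finset.sup_eq_union, Finset.sdiff_eq_empty_iff_subset.2 hs, Finset.union_empty]
          have e2 : symmDiff I' (I \ I') = I := by
            rw [← e1, symmDiff_comm I I', symmDiff_symmDiff_cancel_left]
          have hW2 : par B (I \ I') ⊆ J.biUnion Prod.fst := by
            rw [← e1, par_symm]
            intro u hu
            rw [Finset.mem_symmDiff] at hu
            rcases hu with hu | hu
            · exact hW hu.1
            · exact hW' hu.1
          have a1 := ih I'.card (by omega) I' rfl (by omega) hW'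
          have a2 := ih (I \ I').card (by omega) (I \ I') rfl (by omega) hW2
          have a3 : sm x (par B (symmDiff I' (I \ I'))) = sm b (symmDiff I' (I \ I')) := by
            rw [par_symm, ind_sm, ind_sm, a1, a2]
          rw [e2] at a3
          exact a3
  exact fun I hI hW => key I.card I rfl hI hW

end Pool.H6.LD
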