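import Mathlib
import Pool.Agent.H6.LD.Ind

set_option autoImplicit false
set_option linter.unusedSectionVars false

/-!
# Module GRD (THEOREM LD): large disjoint families contain large good tests

`subf L A ν = ν / 2 / (A * (2 * L (8 A + 1) / ν) + 1)`.
`greedy`: a finite set `F` with a symmetric relation in which each element is related to at most `Δ` other elements of `F` contains `t ⊆ F` without related pairs of different elements and
`F.card ≤ (Δ + 1) * t.card` (real `Δ ≥ 0`). PROOF: induction on `F.card`: take `p ∈ F`, remove `p` and the related elements (at most `Δ + 1`), apply the induction hypothesis to the rest, add `p`; or a maximal independent `t`: each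
element of `F` is in `t` or related to an element of `t`.
`xsub`. PROOF. `R := 8 A + 1`, `M := 2 * L R / ν`. Call `v` bad if `M < ((nb B)^[R] {v}).card`. By `Bls` the number of bad `v` times `M` is at most `L R * n`, so there are at most `ν n / 2` bad ones (if `L R = 0`: then `M = 0`, all balls
have at least one element (`v` itself), so `n ≤ L R * n = 0`: `n = 0`; then take care: `n = 0` gives `F.card ≥ 0`; `t = ∅` is good: `XCon ∅ x` holds by `xwld`.emp with `K = 0`; note that `L R ≥ 1` if `n ≥ 1`).
`F' := {p ∈ F | no bad element in p.1}`: the sets are disjoint, so at most `ν n / 2` members are removed (a bad `v` lies in at most one of the sets): `F'.card ≥ ν n / 2`. Relation: `p ~ p'` iff `¬ Disjoint ((nb B)^[R] p.1) p'.1`; symmetric by `nb_union`, `nb_symm`.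
For `p ∈ F'`: `((nb B)^[R] p.1).card ≤ A * M` (`nb_union`, `p.1.card ≤ A`, no bad element), the `p'.1`, `p' ∈ F'`, are disjoint, so at most `A * M` of them meet it. `greedy` gives `t` with `(A M + 1) * t.card ≥ ν n / 2`.
`GT`: `disj`, `con` from `F`; `ind` is `xind`.
-/

namespace Pool.H6.LD

open Finset Classical Pool.Agent.H3.Frg Pool.Agent.H3.Frg2 Pool.Agent.H3.Frg4 Pool.Agent.H55.QT

variable {n m K r : ℕ} {B : Fin m → Finset (Fin n)} {b : Fin m → Bool}

/-- the density of the good subfamily -/
noncomputable def subf (L : ℕ → ℝ) (A : ℕ) (ν : ℝ) : ℝ := ν / 2 / (A * (2 * L (8 * A + 1) / ν) + 1)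

theorem subf_pos {L : ℕ → ℝ} (hL : ∀ R, 0 ≤ L R) {A : ℕ} {ν : ℝ} (hν : 0 < ν) : 0 < subf L A ν := by
  unfold subf
  have := hL (8 * A + 1)
  positivity

theorem greedy {α : Type} (F : Finset α) (rel : α → α → Prop) (hs : ∀ p q, rel p q → rel q p) (Δ : ℝ)
    (hΔ : ∀ p ∈ F, ((F.filter fun q => q ≠ p ∧ rel p q).card : ℝ) ≤ Δ) :
    ∃ t ⊆ F, (∀ p ∈ t, ∀ q ∈ t, p ≠ q → ¬ rel p q) ∧ (F.card : ℝ) ≤ (Δ + 1) * t.card := by
  induction hn : F.card using Nat.strong_induction_on generalizing F with
  | _ N ih =>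
    rcases F.eq_empty_or_nonempty with rfl | ⟨p, hp⟩
    · refine ⟨∅, Finset.Subset.refl _, by simp, ?_⟩
      rw [Finset.card_empty] at hn
      rw [← hn]
      simp
    · obtain ⟨F', hF'⟩ : ∃ F' : Finset α, F' = F.filter fun q => q ≠ p ∧ ¬ rel p q := ⟨_, rfl⟩
      have hsub : F' ⊆ F := by
        rw [hF']
        exact Finset.filter_subset _ _
      have hlt : F'.card < F.card := by
        refine Finset.card_lt_card ⟨hsub, fun h => ?_⟩
        have h1 := h hp
        rw [hF', Finset.mem_filter] at h1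
        exact h1.2.1 rfl
      obtain ⟨t, ht1, ht2, ht3⟩ := ih F'.card (by omega) F' (by
        intro q hq
        refine le_trans ?_ (hΔ q (hsub hq))
        exact_mod_cast Finset.card_le_card (Finset.filter_subset_filter _ hsub)) rfl
      have hpt : p ∉ t := by
        intro h
        have h1 := ht1 h
        rw [hF', Finset.mem_filter] at h1
        exact h1.2.1 rfl
      have hpr : ∀ q ∈ t, ¬ rel p q := by
        intro q hq
        have h1 := ht1 hq
        rw [hF', Finset.mem_filter] at h1
        exact h1.2.2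
      refine ⟨insert p t, ?_, ?_, ?_⟩
      · intro q hq
        rw [Finset.mem_insert] at hq
        rcases hq with rfl | hq
        · exact hp
        · exact hsub (ht1 hq)
      · intro q hq q' hq' hne
        rw [Finset.mem_insert] at hq hq'
        rcases hq with rfl | hq
        · rcases hq' with rfl | hq'
          · exact absurd rfl hne
          · exact hpr q' hq'
        · rcases hq' with rfl | hq'
          · exact fun h => hpr q hq (hs _ _ h)
          · exact ht2 q hq q' hq' hne
      · rw [Finset.card_insert_of_notMem hpt]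
        have h1 : F.card ≤ F'.card + 1 + (F.filter fun q => q ≠ p ∧ rel p q).card := by
          have h2 : F ⊆ F' ∪ {p} ∪ F.filter fun q => q ≠ p ∧ rel p q := by
            intro q hq
            rw [Finset.mem_union, Finset.mem_union, Finset.mem_singleton, hF', Finset.mem_filter,
              Finset.mem_filter]
            by_cases h3 : q = p
            · exact Or.inl (Or.inr h3)
            · by_cases h4 : rel p q
              · exact Or.inr ⟨hq, h3, h4⟩
              · exact Or.inl (Or.inl ⟨hq, h3, h4⟩)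
          refine (Finset.card_le_card h2).trans ?_
          refine (Finset.card_union_le _ _).trans ?_
          have h3 := Finset.card_union_le F' {p}
          rw [Finset.card_singleton] at h3
          omega
        have h2 := hΔ p hp
        have h3 : (F.card : ℝ) ≤ F'.card + 1 + (F.filter fun q => q ≠ p ∧ rel p q).card := by
          exact_mod_cast h1
        rw [← hn]
        push_cast
        linarith

private theorem grd_meet (S : Finset (Fin n)) (G : Tst n)
    (hd : ∀ p ∈ G, ∀ p' ∈ G, p ≠ p' → Disjoint p.1 p'.1) (hm : ∀ p ∈ G, ¬ Disjoint S p.1) :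
    G.card ≤ S.card := by
  have h1 : ∀ p ∈ G, ∃ v, v ∈ S ∧ v ∈ p.1 := by
    intro p hp
    obtain ⟨v, hv1, hv2⟩ := Finset.not_disjoint_iff.1 (hm p hp)
    exact ⟨v, hv1, hv2⟩
  rcases G.eq_empty_or_nonempty with rfl | ⟨p₀, hp₀⟩
  · simp
  obtain ⟨v₀, -, -⟩ := h1 p₀ hp₀
  obtain ⟨f, hf⟩ : ∃ f : Finset (Fin n) × (Fin n → Bool) → Fin n, ∀ p ∈ G, f p ∈ S ∧ f p ∈ p.1 := by
    refine ⟨fun p => if h : ∃ v, v ∈ S ∧ v ∈ p.1 then h.choose else v₀, fun p hp => ?_⟩
    simp only [dif_pos (h1 p hp)]
    exact (h1 p hp).choose_spec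
  refine Finset.card_le_card_of_injOn f (fun p hp => (hf p hp).1) ?_
  intro p hp p' hp' he
  by_contra hne
  have h2 := hd p hp p' hp' hne
  exact Finset.disjoint_left.1 h2 (hf p hp).2 (by rw [he]; exact (hf p' hp').2)

private theorem grd_self {R : ℕ} (v : Fin n) : v ∈ (nb B)^[R] {v} :=
  nb_mono (Nat.zero_le R) {v} (Finset.mem_singleton_self v)

theorem xsub (hx : ∀ I : Finset (Fin m), I.card ≤ r → I.card ≤ 4 * (par B I).card) {L : ℕ → ℝ}
    (hL : ∀ R, 0 ≤ L R) (hB : Bls L B) (A : ℕ) {ν : ℝ} (hν : 0 < ν) :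
    SubT (XCon B b r) A ν (subf L A ν) := by
  intro F hdis hF hcard
  rcases Nat.eq_zero_or_pos n with hn | hn
  · refine ⟨∅, Finset.empty_subset _, ⟨by simp, by simp, ?_⟩, ?_⟩
    · intro J hJ x hc
      exact xind hx (A := A) (t := ∅) (by simp) (by simp) hJ hc
    · subst hn
      simp
  obtain ⟨R, hR⟩ : ∃ R : ℕ, R = 8 * A + 1 := ⟨_, rfl⟩
  have hn' : (0 : ℝ) < n := by exact_mod_cast hn
  have hball := hB R
  have hLR : 0 < L R := by
    have h1 : (n : ℝ) ≤ L R * n := by
      refine le_trans ?_ hball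
      have h2 : n ≤ ∑ v : Fin n, ((nb B)^[R] {v}).card := by
        calc n = ∑ _v : Fin n, 1 := by simp
          _ ≤ _ := Finset.sum_le_sum fun v _ => Finset.card_pos.2 ⟨v, grd_self v⟩
      exact_mod_cast h2
    by_contra h2
    push Not at h2
    nlinarith
  obtain ⟨M, hM⟩ : ∃ M : ℝ, M = 2 * L R / ν := ⟨_, rfl⟩
  have hM0 : 0 < M := by
    rw [hM]
    positivity
  obtain ⟨Bd, hBd⟩ : ∃ Bd : Finset (Fin n), Bd = univ.filter fun v => M < (((nb B)^[R] {v}).card : ℝ) :=
    ⟨_, rfl⟩
  have hBdc : (Bd.card : ℝ) ≤ ν / 2 * n := by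
    have h1 : (Bd.card : ℝ) * M ≤ L R * n := by
      refine le_trans ?_ hball
      push_cast
      calc (Bd.card : ℝ) * M = ∑ _v ∈ Bd, M := by rw [Finset.sum_const, nsmul_eq_mul]
        _ ≤ ∑ v ∈ Bd, (((nb B)^[R] {v}).card : ℝ) := Finset.sum_le_sum fun v hv => by
            rw [hBd, Finset.mem_filter] at hv
            exact hv.2.le
        _ ≤ ∑ v, (((nb B)^[R] {v}).card : ℝ) :=
            Finset.sum_le_sum_of_subset_of_nonneg (Finset.subset_univ _) fun _ _ _ => Nat.cast_nonneg _
    have h2 : ν / 2 * n * M = L R * n := by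
      rw [hM]
      field_simp
    rw [← h2] at h1
    exact le_of_mul_le_mul_right h1 hM0
  obtain ⟨F', hF'⟩ : ∃ F' : Tst n, F' = F.filter fun p => Disjoint Bd p.1 := ⟨_, rfl⟩
  have hsub : F' ⊆ F := by
    rw [hF']
    exact Finset.filter_subset _ _
  have hF'c : ν / 2 * n ≤ F'.card := by
    have h1 : (F.filter fun p => ¬ Disjoint Bd p.1).card ≤ Bd.card := by
      refine grd_meet Bd _ (fun p hp p' hp' hne => hdis p (Finset.filter_subset _ _ hp) p'
        (Finset.filter_subset _ _ hp') hne) fun p hp => (Finset.mem_filter.1 hp).2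
    have h2 : F'.card + (F.filter fun p => ¬ Disjoint Bd p.1).card = F.card := by
      rw [hF']
      exact Finset.card_filter_add_card_filter_not _
    have h3 : (F.card : ℝ) ≤ F'.card + Bd.card := by
      exact_mod_cast (show F.card ≤ F'.card + Bd.card by omega)
    linarith
  obtain ⟨t, ht1, ht2, ht3⟩ := greedy F' (fun p q => ¬ Disjoint ((nb B)^[R] p.1) q.1) (by
    intro p q h
    obtain ⟨u, hu1, hu2⟩ := Finset.not_disjoint_iff.1 h
    obtain ⟨v, hv1, hv2⟩ := nb_union.1 hu1
    exact Finset.not_disjoint_iff.2 ⟨v, nb_union.2 ⟨u, hu2, nb_symm.1 hv2⟩, hv1⟩) (A * M) (by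
    intro p hp
    have hpF := hsub hp
    have h1 : (F'.filter fun q => q ≠ p ∧ ¬ Disjoint ((nb B)^[R] p.1) q.1).card ≤
        ((nb B)^[R] p.1).card := by
      refine grd_meet _ _ (fun q hq q' hq' hne => hdis q (hsub (Finset.filter_subset _ _ hq)) q'
        (hsub (Finset.filter_subset _ _ hq')) hne) fun q hq => (Finset.mem_filter.1 hq).2.2
    have h2 : ((nb B)^[R] p.1).card ≤ ∑ v ∈ p.1, ((nb B)^[R] {v}).card := by
      refine le_trans (Finset.card_le_card ?_) Finset.card_biUnion_le
      intro u hu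
      obtain ⟨v, hv1, hv2⟩ := nb_union.1 hu
      exact Finset.mem_biUnion.2 ⟨v, hv1, hv2⟩
    have h3 : ((∑ v ∈ p.1, ((nb B)^[R] {v}).card : ℕ) : ℝ) ≤ A * M := by
      push_cast
      calc ∑ v ∈ p.1, (((nb B)^[R] {v}).card : ℝ) ≤ ∑ _v ∈ p.1, M := Finset.sum_le_sum fun v hv => by
            rw [hF', Finset.mem_filter] at hp
            by_contra h4
            push Not at h4
            refine Finset.disjoint_left.1 hp.2 ?_ hv
            rw [hBd, Finset.mem_filter]
            exact ⟨Finset.mem_univ _, h4⟩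
        _ = (p.1.card : ℝ) * M := by rw [Finset.sum_const, nsmul_eq_mul]
        _ ≤ A * M := by
            have h5 : (p.1.card : ℝ) ≤ A := by exact_mod_cast (hF p hpF).1
            exact mul_le_mul_of_nonneg_right h5 hM0.le
    refine le_trans ?_ h3
    exact_mod_cast h1.trans h2)
  refine ⟨t, ht1.trans hsub, ⟨fun p hp p' hp' hne => hdis p (hsub (ht1 hp)) p' (hsub (ht1 hp')) hne,
    fun p hp => (hF p (hsub (ht1 hp))).2.2, fun J hJ x hc => ?_⟩, ?_⟩
  · refine xind hx (A := A) (t := t) (fun p hp => (hF p (hsub (ht1 hp))).1) (fun p hp p' hp' hne => ?_)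
      hJ hc
    have h1 := ht2 p hp p' hp' hne
    rw [not_not, hR] at h1
    exact h1
  · unfold subf
    rw [← hR, ← hM, div_mul_eq_mul_div, div_le_iff₀ (by positivity)]
    refine hF'c.trans (ht3.trans (le_of_eq ?_))
    ring

end Pool.H6.LD
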