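import Mathlib
import Pool.Agent.H6.LD.Defs

set_option autoImplicit false
set_option linter.unusedSectionVars false

/-!
# Module PRA (THEOREM LD): product measures on the subsets and on the assignments

PROOFS. `prb_mu`: the sets `U` containing `W` correspond to the subsets `U \ W` of the complement `W'` of `W` (`n - W.card` elements): the sum is `(1 / q) ^ W.card * ∑_{S ⊆ W'} (1 / q) ^ S.card * (1 - 1 / q) ^ (W'.card - S.card)
= (1 / q) ^ W.card` (`Finset.sum_pow_mul_eq_add_pow`, `Finset.sum_bij'` or `Finset.sum_nbij'`).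
`prb_prod`: with `a p = (1 / 2) ^ p.1.card`: `∏ p ∈ t with p.1 ⊆ U, (1 - a p) = ∏ p ∈ t, (1 - a p * [p.1 ⊆ U]) = ∑ J ∈ t.powerset, (∏ p ∈ J, - a p) * [J.biUnion Prod.fst ⊆ U]` (`Finset.prod_one_sub`-style expansion: `Finset.prod_add` or
`Finset.prod_one_add`; induction on `t` works too); exchange the sums, `prb_mu` with `W = J.biUnion Prod.fst`, `W.card = ∑ p ∈ J, p.1.card` (`Finset.card_biUnion`, disjoint); contract: `∑ J ∈ t.powerset, ∏ p ∈ J, (- a p * (1 / q) ^ p.1.card) =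
∏ p ∈ t, (1 - a p * (1 / q) ^ p.1.card)`, and `(1 / 2) ^ k * (1 / q) ^ k = (1 / (2 q)) ^ k`.
`prb_ind`: bijection `(x, y) ↦ (x on V1, y elsewhere; y on V1, x elsewhere)` from `{P} × {Q}` to `{P ∧ Q} × univ` (it is an involution of the pairs; `Finset.card_product`, `Finset.card_bij'`); `card (Fin n → Bool) = 2 ^ n`.
-/

namespace Pool.H6.LD

open Finset Classical Pool.Agent.H3.Frg Pool.Agent.H3.Frg2 Pool.Agent.H3.Frg4 Pool.Agent.H55.QT

variable {n : ℕ}

theorem prb_mu {q : ℕ} (hq : 1 ≤ q) (W : Finset (Fin n)) :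
    ∑ U ∈ univ.filter (fun U : Finset (Fin n) => W ⊆ U),
      (1 / q : ℝ) ^ U.card * (1 - 1 / q : ℝ) ^ (n - U.card) = (1 / q : ℝ) ^ W.card := by
  have h1 : ∑ U ∈ univ.filter (fun U : Finset (Fin n) => W ⊆ U),
      (1 / q : ℝ) ^ U.card * (1 - 1 / q : ℝ) ^ (n - U.card) =
      ∑ S ∈ (univ \ W).powerset, (1 / q : ℝ) ^ W.card *
        ((1 / q : ℝ) ^ S.card * (1 - 1 / q : ℝ) ^ ((univ \ W).card - S.card)) := by
    refine Finset.sum_nbij' (fun U => U \ W) (fun S => S ∪ W) ?_ ?_ ?_ ?_ ?_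
    · intro U _
      rw [Finset.mem_powerset]
      exact Finset.sdiff_subset_sdiff (Finset.subset_univ _) le_rfl
    · intro S _
      rw [Finset.mem_filter]
      exact ⟨Finset.mem_univ _, Finset.subset_union_right⟩
    · intro U hU
      rw [Finset.mem_filter] at hU
      exact Finset.sdiff_union_of_subset hU.2
    · intro S hS
      rw [Finset.mem_powerset] at hS
      have hd : Disjoint S W := Finset.disjoint_of_subset_left hS Finset.sdiff_disjoint
      exact Finset.union_sdiff_cancel_right hd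
    · intro U hU
      rw [Finset.mem_filter] at hU
      have h2 : (U \ W).card = U.card - W.card := Finset.card_sdiff_of_subset hU.2
      have h3 : ((univ : Finset (Fin n)) \ W).card = n - W.card := by
        rw [Finset.card_sdiff_of_subset (Finset.subset_univ W), Finset.card_univ, Fintype.card_fin]
      have h4 : W.card ≤ U.card := Finset.card_le_card hU.2
      have h5 : (univ \ W).card - (U \ W).card = n - U.card := by omega
      have h6 : (1 / q : ℝ) ^ U.card = (1 / q : ℝ) ^ W.card * (1 / q : ℝ) ^ (U \ W).card := by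
        rw [← pow_add, h2]
        congr 1
        omega
      rw [h5, h6, mul_assoc]
  rw [h1, ← Finset.mul_sum, Finset.sum_pow_mul_eq_add_pow]
  have h2 : (1 / q : ℝ) + (1 - 1 / q) = 1 := by ring
  rw [h2, one_pow, mul_one]

theorem prb_prod {q : ℕ} (hq : 1 ≤ q) {t : Tst n}
    (hd : ∀ p ∈ t, ∀ p' ∈ t, p ≠ p' → Disjoint p.1 p'.1) :
    ∑ U : Finset (Fin n), (1 / q : ℝ) ^ U.card * (1 - 1 / q : ℝ) ^ (n - U.card) *
      ∏ p ∈ t.filter (fun p => p.1 ⊆ U), (1 - (1 / 2 : ℝ) ^ p.1.card) = wt q t := by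
  have hexp : ∀ U : Finset (Fin n), ∏ p ∈ t.filter (fun p => p.1 ⊆ U), (1 - (1 / 2 : ℝ) ^ p.1.card) =
      ∑ J ∈ t.powerset, if J.biUnion Prod.fst ⊆ U then ∏ p ∈ J, (-(1 / 2 : ℝ) ^ p.1.card) else 0 := by
    intro U
    have h1 : ∏ p ∈ t.filter (fun p => p.1 ⊆ U), (1 - (1 / 2 : ℝ) ^ p.1.card) =
        ∏ p ∈ t, (1 + if p.1 ⊆ U then (-(1 / 2 : ℝ) ^ p.1.card) else 0) := by
      rw [Finset.prod_filter]
      refine Finset.prod_congr rfl fun p _ => ?_
      split_ifs
      · ring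
      · ring
    rw [h1, Finset.prod_one_add]
    refine Finset.sum_congr rfl fun J _ => ?_
    rw [Finset.prod_ite_zero]
    by_cases h2 : J.biUnion Prod.fst ⊆ U
    · rw [if_pos h2, if_pos (fun p hp => (Finset.subset_biUnion_of_mem Prod.fst hp).trans h2)]
    · rw [if_neg h2, if_neg (fun h3 => h2 (Finset.biUnion_subset.2 h3))]
  have hstep : ∀ J ∈ t.powerset, ∑ U : Finset (Fin n), (1 / q : ℝ) ^ U.card *
      (1 - 1 / q : ℝ) ^ (n - U.card) *
      (if J.biUnion Prod.fst ⊆ U then ∏ p ∈ J, (-(1 / 2 : ℝ) ^ p.1.card) else 0) =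
      ∏ p ∈ J, (-(1 / (2 * q : ℝ)) ^ p.1.card) := by
    intro J hJ
    rw [Finset.mem_powerset] at hJ
    have h1 : ∑ U : Finset (Fin n), (1 / q : ℝ) ^ U.card *
        (1 - 1 / q : ℝ) ^ (n - U.card) *
        (if J.biUnion Prod.fst ⊆ U then ∏ p ∈ J, (-(1 / 2 : ℝ) ^ p.1.card) else 0) =
        (∑ U ∈ univ.filter (fun U : Finset (Fin n) => J.biUnion Prod.fst ⊆ U),
          (1 / q : ℝ) ^ U.card * (1 - 1 / q : ℝ) ^ (n - U.card)) *
          ∏ p ∈ J, (-(1 / 2 : ℝ) ^ p.1.card) := by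
      rw [Finset.sum_filter, Finset.sum_mul]
      refine Finset.sum_congr rfl fun U _ => ?_
      split_ifs
      · rfl
      · rw [mul_zero, zero_mul]
    rw [h1, prb_mu hq, Finset.card_biUnion (fun p hp p' hp' hne => hd p (hJ hp) p' (hJ hp') hne),
      ← Finset.prod_pow_eq_pow_sum, ← Finset.prod_mul_distrib]
    refine Finset.prod_congr rfl fun p _ => ?_
    have h2 : (1 / (2 * q : ℝ)) = (1 / q : ℝ) * (1 / 2) := by
      rw [one_div_mul_one_div, mul_comm]
    rw [h2, mul_pow]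
    ring
  simp only [hexp, Finset.mul_sum]
  rw [Finset.sum_comm, Finset.sum_congr rfl hstep, ← Finset.prod_one_add]
  unfold wt
  refine Finset.prod_congr rfl fun p _ => ?_
  ring

theorem prb_ind {V1 V2 : Finset (Fin n)} (hd : Disjoint V1 V2) (P Q : (Fin n → Bool) → Prop)
    (hP : ∀ x y, (∀ v ∈ V1, x v = y v) → P x → P y) (hQ : ∀ x y, (∀ v ∈ V2, x v = y v) → Q x → Q y) :
    (univ.filter fun x => P x ∧ Q x).card * 2 ^ n =
      (univ.filter fun x => P x).card * (univ.filter fun x => Q x).card := by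
  have h1 : (univ.filter fun x : Fin n → Bool => P x ∧ Q x).card * 2 ^ n =
      ((univ.filter fun x : Fin n → Bool => P x ∧ Q x) ×ˢ (univ : Finset (Fin n → Bool))).card := by
    rw [Finset.card_product, Finset.card_univ, Fintype.card_fun, Fintype.card_bool, Fintype.card_fin]
  rw [h1, ← Finset.card_product]
  let mix : (Fin n → Bool) → (Fin n → Bool) → Fin n → Bool := fun x y v => if v ∈ V1 then x v else y v
  have hm1 : ∀ x y, ∀ v ∈ V1, x v = mix x y v := fun x y v hv => (if_pos hv).symm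
  have hm2 : ∀ x y, ∀ v ∈ V2, y v = mix x y v := fun x y v hv =>
    (if_neg (fun h => Finset.disjoint_left.1 hd h hv)).symm
  have hmm : ∀ x y, mix (mix x y) (mix y x) = x := by
    intro x y
    funext v
    simp only [mix]
    split_ifs <;> rfl
  refine Finset.card_nbij' (fun p => (mix p.1 p.2, mix p.2 p.1)) (fun p => (mix p.1 p.2, mix p.2 p.1))
    ?_ ?_ ?_ ?_
  · rintro ⟨z, w⟩ hzw
    rw [Finset.mem_coe, Finset.mem_product, Finset.mem_filter] at hzw
    rw [Finset.mem_coe, Finset.mem_product, Finset.mem_filter, Finset.mem_filter]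
    exact ⟨⟨Finset.mem_univ _, hP _ _ (hm1 z w) hzw.1.2.1⟩,
      ⟨Finset.mem_univ _, hQ _ _ (hm2 w z) hzw.1.2.2⟩⟩
  · rintro ⟨x, y⟩ hxy
    rw [Finset.mem_coe, Finset.mem_product, Finset.mem_filter, Finset.mem_filter] at hxy
    rw [Finset.mem_coe, Finset.mem_product, Finset.mem_filter]
    exact ⟨⟨Finset.mem_univ _, hP _ _ (hm1 x y) hxy.1.2, hQ _ _ (hm2 x y) hxy.2.2⟩,
      Finset.mem_univ _⟩
  · rintro ⟨z, w⟩ _
    change (mix (mix z w) (mix w z), mix (mix w z) (mix z w)) = (z, w)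
    rw [hmm, hmm]
  · rintro ⟨x, y⟩ _
    change (mix (mix x y) (mix y x), mix (mix y x) (mix x y)) = (x, y)
    rw [hmm, hmm]

end Pool.H6.LD
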