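import Mathlib
import Pool.Agent.H6.LD.Wor
import Pool.Agent.H6.LD.Pra

set_option autoImplicit false
set_option linter.unusedSectionVars false

/-!
# Module PRB (THEOREM LD): a random state hits all tests

`hitall`. PROOF. Weights: for `U ⊆ univ` put `μ U = (1 / q) ^ U.card * (1 - 1 / q) ^ (n - U.card)`, `∑ U, μ U = 1` (`Finset.sum_pow_mul_eq_add_pow`).
(1) `P(W ⊆ U) = ∑_{U ⊇ W} μ U = (1 / q) ^ W.card` (sum over `U \ W`).
(2) For a test `t` with disjoint sets and `a p ∈ [0, 1]`: `∑ U, μ U * ∏ p ∈ t with p.1 ⊆ U, (1 - a p) = ∏ p ∈ t, (1 - a p * (1 / q) ^ p.1.card)`: write the left product as `∏ p ∈ t, (1 - a p * [p.1 ⊆ U])`, expand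
(`Finset.prod_one_sub'`/`Finset.prod_add` style: sum over `J ⊆ t` of `∏ p ∈ J, (- a p)` times `[⋃ J ⊆ U]`), use (1) with `(⋃ J).card = ∑ p ∈ J, p.1.card` (disjoint), and contract again. Used with `a p = (1 / 2) ^ p.1.card`:
the right side is `wt q t`.
(3) For `U.card ≤ k ≤ K` and a good test `t`: the number of `x` with `Con U x` that do not hit `t` is at most `∏ p ∈ t with p.1 ⊆ U, (1 - (1 / 2) ^ p.1.card)` times `#{x | Con U x}`. PROOF: `J = {p ∈ t | p.1 ⊆ U}`,
`W = ⋃ J ⊆ U`; not hitting is `∀ p ∈ J, ¬ (x = p.2 on p.1)`, depends only on `W`; by `xun` it is enough to bound it in `{x | Con W x}` (`xpos`). By `GT.ind` and `mono` `Con W x ↔ ∀ p ∈ J, Con p.1 x`. Independence of disjoint sets of coordinates: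
if `P` depends only on `V1`, `Q` only on `V2`, disjoint, then `#{P ∧ Q} * 2 ^ n = #{P} * #{Q}` (bijection `(x, y) ↦ (x on V1, y elsewhere; y on V1, x elsewhere)` from `{P} × {Q}` to `{P ∧ Q} × all`). By induction on `J`:
`#{∀ p ∈ J, Con p.1 x ∧ ¬ (x = p.2 on p.1)} ≤ ∏ (1 - 2 ^ (- p.1.card)) * #{∀ p ∈ J, Con p.1 x}`, since for one `p`: `#{Con p.1 x ∧ x = p.2 on p.1} = 2 ^ (n - p.1.card) ≥ 2 ^ (- p.1.card) * #{Con p.1 x}` (`GT.con`, `Wld.cong`).
(4) Markov: `∑_{U.card > k} μ U ≤ (n / q) / k ≤ 1 / 2` (`∑ U, μ U * U.card = n / q` by (1) for singletons; `k ≥ 1`, if `k = 0` then `n = 0` and `U.card > 0` is impossible).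
(5) If no `U` with `U.card ≤ k` had `∑ t ∈ T, (fraction not hit) < 1` then `1 / 2 ≤ ∑_{U.card ≤ k} μ U ≤ ∑_{U.card ≤ k} μ U * ∑ t, ∏ .. ≤ ∑ t, wt q t < 1 / 2`. For such an `U` the number of `x` with `Con U x` which miss some `t ∈ T` is less than
`#{x | Con U x}`, so some `x` hits all.
-/

namespace Pool.H6.LD

open Finset Classical Pool.Agent.H3.Frg Pool.Agent.H3.Frg2 Pool.Agent.H3.Frg4 Pool.Agent.H55.QT

variable {n m K r : ℕ} {B : Fin m → Finset (Fin n)} {b : Fin m → Bool}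

private theorem prb_E (V : Finset (Fin n)) (β : Fin n → Bool) :
    (univ.filter fun x : Fin n → Bool => ∀ v ∈ V, x v = β v).card * 2 ^ V.card = 2 ^ n := by
  have h1 : (univ.filter fun x : Fin n → Bool => ∀ v ∈ V, x v = β v) =
      Fintype.piFinset (fun v => if v ∈ V then ({β v} : Finset Bool) else univ) := by
    ext x
    rw [mem_filter, Fintype.mem_piFinset]
    constructor
    · rintro ⟨-, h⟩ v
      by_cases hv : v ∈ V
      · rw [if_pos hv, mem_singleton]
        exact h v hv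
      · rw [if_neg hv]
        exact mem_univ _
    · intro h
      refine ⟨mem_univ _, fun v hv => ?_⟩
      have h2 := h v
      rw [if_pos hv, mem_singleton] at h2
      exact h2
  have h2 : (2 : ℕ) ^ V.card = ∏ v : Fin n, if v ∈ V then 2 else 1 := by
    rw [Finset.prod_ite_mem, univ_inter, prod_const]
  rw [h1, Fintype.card_piFinset, h2, ← Finset.prod_mul_distrib]
  have h3 : ∀ v : Fin n, (if v ∈ V then ({β v} : Finset Bool) else univ).card *
      (if v ∈ V then 2 else 1) = 2 := by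
    intro v
    by_cases hv : v ∈ V
    · rw [if_pos hv, if_pos hv, card_singleton]
    · rw [if_neg hv, if_neg hv, card_univ, Fintype.card_bool]
  rw [prod_congr rfl fun v _ => h3 v, prod_const, card_univ, Fintype.card_fin]

private theorem prb_one {C : (Fin n → Bool) → Prop} (V : Finset (Fin n)) (β : Fin n → Bool)
    (hE : ∀ x, (∀ v ∈ V, x v = β v) → C x) :
    ((univ.filter fun x => C x ∧ ¬ ∀ v ∈ V, x v = β v).card : ℝ) ≤
      (1 - (1 / 2 : ℝ) ^ V.card) * (univ.filter fun x => C x).card := by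
  have h1 : (univ.filter fun x => C x ∧ ∀ v ∈ V, x v = β v).card +
      (univ.filter fun x => C x ∧ ¬ ∀ v ∈ V, x v = β v).card = (univ.filter fun x => C x).card := by
    rw [← Finset.filter_filter, ← Finset.filter_filter]
    exact Finset.card_filter_add_card_filter_not _
  have h2 : (univ.filter fun x => C x ∧ ∀ v ∈ V, x v = β v) =
      univ.filter fun x : Fin n → Bool => ∀ v ∈ V, x v = β v := by
    ext x
    rw [mem_filter, mem_filter]
    exact ⟨fun h => ⟨h.1, h.2.2⟩, fun h => ⟨h.1, hE x h.2, h.2⟩⟩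
  have h3 := prb_E V β
  have h4 : (univ.filter fun x => C x).card ≤ 2 ^ n := by
    refine (card_le_univ _).trans (le_of_eq ?_)
    rw [Fintype.card_fun, Fintype.card_bool, Fintype.card_fin]
  rw [h2] at h1
  have h5 : ((univ.filter fun x : Fin n → Bool => ∀ v ∈ V, x v = β v).card : ℝ) =
      (1 / 2 : ℝ) ^ V.card * 2 ^ n := by
    have h6 : ((univ.filter fun x : Fin n → Bool => ∀ v ∈ V, x v = β v).card : ℝ) *
      2 ^ V.card = 2 ^ n := by exact_mod_cast h3
    rw [← h6, mul_comm, mul_assoc, ← mul_pow]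
    norm_num
  have h6 : ((univ.filter fun x : Fin n → Bool => ∀ v ∈ V, x v = β v).card : ℝ) +
      ((univ.filter fun x => C x ∧ ¬ ∀ v ∈ V, x v = β v).card : ℝ) =
      ((univ.filter fun x => C x).card : ℝ) := by exact_mod_cast h1
  have h7 : ((univ.filter fun x => C x).card : ℝ) ≤ 2 ^ n := by exact_mod_cast h4
  have h8 : (0 : ℝ) ≤ (1 / 2 : ℝ) ^ V.card := by positivity
  have h9 := mul_le_mul_of_nonneg_left h7 h8
  linarith

private theorem prb_nn (V : Finset (Fin n)) : (0 : ℝ) ≤ 1 - (1 / 2 : ℝ) ^ V.card := by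
  have h := pow_le_one₀ (n := V.card) (show (0 : ℝ) ≤ 1 / 2 by norm_num) (by norm_num)
  linarith

private theorem prb_indu (C : Finset (Fin n) → (Fin n → Bool) → Prop)
    (hcong : ∀ D x y, (∀ v ∈ D, x v = y v) → C D x → C D y) (J : Tst n)
    (hd : ∀ p ∈ J, ∀ p' ∈ J, p ≠ p' → Disjoint p.1 p'.1) (hc : ∀ p ∈ J, C p.1 p.2) :
    ((univ.filter fun x => ∀ p ∈ J, C p.1 x ∧ ¬ ∀ v ∈ p.1, x v = p.2 v).card : ℝ) ≤
      (∏ p ∈ J, (1 - (1 / 2 : ℝ) ^ p.1.card)) *
        (univ.filter fun x => ∀ p ∈ J, C p.1 x).card := by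
  induction J using Finset.induction_on with
  | empty => simp
  | insert p J hp ih =>
    have ih' := ih (fun p₁ h1 p₂ h2 => hd p₁ (mem_insert_of_mem h1) p₂ (mem_insert_of_mem h2))
      (fun p₁ h1 => hc p₁ (mem_insert_of_mem h1))
    have hdis : Disjoint p.1 (J.biUnion Prod.fst) := by
      rw [Finset.disjoint_biUnion_right]
      intro p' hp'
      exact hd p (mem_insert_self _ _) p' (mem_insert_of_mem hp') (fun h => hp (h ▸ hp'))
    have hsub : ∀ p' ∈ J, ∀ v ∈ p'.1, v ∈ J.biUnion Prod.fst := fun p' hp' v hv =>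
      mem_biUnion.2 ⟨p', hp', hv⟩
    have e1 := prb_ind hdis (fun x => C p.1 x ∧ ¬ ∀ v ∈ p.1, x v = p.2 v)
      (fun x => ∀ p' ∈ J, C p'.1 x ∧ ¬ ∀ v ∈ p'.1, x v = p'.2 v)
      (fun x y hxy h => ⟨hcong _ x y hxy h.1, fun h' => h.2 fun v hv => (hxy v hv).trans (h' v hv)⟩)
      (fun x y hxy h p' hp' => ⟨hcong _ x y (fun v hv => hxy v (hsub p' hp' v hv)) (h p' hp').1,
        fun h' => (h p' hp').2 fun v hv => (hxy v (hsub p' hp' v hv)).trans (h' v hv)⟩)
    have e2 := prb_ind hdis (fun x => C p.1 x) (fun x => ∀ p' ∈ J, C p'.1 x)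
      (fun x y hxy h => hcong _ x y hxy h)
      (fun x y hxy h p' hp' => hcong _ x y (fun v hv => hxy v (hsub p' hp' v hv)) (h p' hp'))
    have s1 : (univ.filter fun x => ∀ p' ∈ insert p J, C p'.1 x ∧ ¬ ∀ v ∈ p'.1, x v = p'.2 v) =
        univ.filter fun x => (C p.1 x ∧ ¬ ∀ v ∈ p.1, x v = p.2 v) ∧
          ∀ p' ∈ J, C p'.1 x ∧ ¬ ∀ v ∈ p'.1, x v = p'.2 v := by
      ext x
      rw [mem_filter, mem_filter, Finset.forall_mem_insert]
    have s2 : (univ.filter fun x => ∀ p' ∈ insert p J, C p'.1 x) =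
        univ.filter fun x => C p.1 x ∧ ∀ p' ∈ J, C p'.1 x := by
      ext x
      rw [mem_filter, mem_filter, Finset.forall_mem_insert]
    rw [s1, s2, prod_insert hp]
    have h1 := prb_one (C := C p.1) p.1 p.2
      (fun x h => hcong _ p.2 x (fun v hv => (h v hv).symm) (hc p (mem_insert_self _ _)))
    have e1n : (univ.filter fun x => (C p.1 x ∧ ¬ ∀ v ∈ p.1, x v = p.2 v) ∧
        ∀ p' ∈ J, C p'.1 x ∧ ¬ ∀ v ∈ p'.1, x v = p'.2 v).card * 2 ^ n =
        (univ.filter fun x => C p.1 x ∧ ¬ ∀ v ∈ p.1, x v = p.2 v).card *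
        (univ.filter fun x => ∀ p' ∈ J, C p'.1 x ∧ ¬ ∀ v ∈ p'.1, x v = p'.2 v).card := by
      convert e1
    have e1' : ((univ.filter fun x => (C p.1 x ∧ ¬ ∀ v ∈ p.1, x v = p.2 v) ∧
        ∀ p' ∈ J, C p'.1 x ∧ ¬ ∀ v ∈ p'.1, x v = p'.2 v).card : ℝ) * 2 ^ n =
        ((univ.filter fun x => C p.1 x ∧ ¬ ∀ v ∈ p.1, x v = p.2 v).card : ℝ) *
        ((univ.filter fun x => ∀ p' ∈ J, C p'.1 x ∧ ¬ ∀ v ∈ p'.1, x v = p'.2 v).card : ℝ) := by
      exact_mod_cast e1n
    have e2n : (univ.filter fun x => C p.1 x ∧ ∀ p' ∈ J, C p'.1 x).card * 2 ^ n =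
        (univ.filter fun x => C p.1 x).card *
        (univ.filter fun x => ∀ p' ∈ J, C p'.1 x).card := by
      convert e2
    have e2' : ((univ.filter fun x => C p.1 x ∧ ∀ p' ∈ J, C p'.1 x).card : ℝ) * 2 ^ n =
        ((univ.filter fun x => C p.1 x).card : ℝ) *
        ((univ.filter fun x => ∀ p' ∈ J, C p'.1 x).card : ℝ) := by
      exact_mod_cast e2n
    have hpos : (0 : ℝ) < 2 ^ n := by positivity
    refine le_of_mul_le_mul_right ?_ hpos
    rw [e1', mul_assoc, e2']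
    have h2 := mul_le_mul h1 ih' (Nat.cast_nonneg _)
      (mul_nonneg (prb_nn p.1) (Nat.cast_nonneg _))
    refine h2.trans (le_of_eq ?_)
    ring

theorem prb_miss (hx : ∀ I : Finset (Fin m), I.card ≤ r → I.card ≤ 4 * (par B I).card) (hK : 8 * K ≤ r)
    {U : Finset (Fin n)} (hU : U.card ≤ K) {t : Tst n} (ht : GT (XCon B b r) t) :
    ((univ.filter fun x => XCon B b r U x ∧ ¬ Hit U x t).card : ℝ) ≤
      (∏ p ∈ t.filter (fun p => p.1 ⊆ U), (1 - (1 / 2 : ℝ) ^ p.1.card)) *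
        (univ.filter fun x => XCon B b r U x).card := by
  obtain ⟨J, hJ⟩ : ∃ J : Tst n, J = t.filter (fun p => p.1 ⊆ U) := ⟨_, rfl⟩
  have hJt : J ⊆ t := by
    rw [hJ]
    exact filter_subset _ _
  have hJU : ∀ p ∈ J, p.1 ⊆ U := fun p hp => by
    rw [hJ, mem_filter] at hp
    exact hp.2
  obtain ⟨W, hW⟩ : ∃ W : Finset (Fin n), W = J.biUnion Prod.fst := ⟨_, rfl⟩
  have hWU : W ⊆ U := by
    rw [hW]
    exact Finset.biUnion_subset.2 hJU
  have hsub : ∀ p ∈ J, p.1 ⊆ W := fun p hp v hv => by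
    rw [hW]
    exact mem_biUnion.2 ⟨p, hp, hv⟩
  have hw := xwld (b := b) hx hK
  have hCW : ∀ x, XCon B b r W x ↔ ∀ p ∈ J, XCon B b r p.1 x := by
    intro x
    constructor
    · intro h p hp
      exact hw.mono _ _ x (hsub p hp) h
    · intro h
      rw [hW]
      exact ht.ind J hJt x h
  have e1 := xun (b := b) hx hK hWU hU (fun x => ∀ p ∈ J, ¬ ∀ v ∈ p.1, x v = p.2 v)
    (fun x y hxy h p hp h' => h p hp fun v hv => (hxy v (hsub p hp hv)).trans (h' v hv))
  have hWK : W.card ≤ K := (card_le_card hWU).trans hU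
  have hpos := xpos (b := b) hx hK hWK
  have s1 : (univ.filter fun x => XCon B b r U x ∧ ¬ Hit U x t) =
      univ.filter fun x => XCon B b r U x ∧ ∀ p ∈ J, ¬ ∀ v ∈ p.1, x v = p.2 v := by
    ext x
    rw [mem_filter, mem_filter]
    refine and_congr_right fun _ => and_congr_right fun _ => ?_
    unfold Hit
    rw [hJ]
    constructor
    · intro h p hp h'
      rw [mem_filter] at hp
      exact h ⟨p, hp.1, hp.2, h'⟩
    · rintro h ⟨p, hp, hpU, h'⟩
      exact h p (mem_filter.2 ⟨hp, hpU⟩) h'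
  have s2 : (univ.filter fun x => XCon B b r W x ∧ ∀ p ∈ J, ¬ ∀ v ∈ p.1, x v = p.2 v) =
      univ.filter fun x => ∀ p ∈ J, XCon B b r p.1 x ∧ ¬ ∀ v ∈ p.1, x v = p.2 v := by
    ext x
    rw [mem_filter, mem_filter, hCW]
    exact and_congr_right fun _ => ⟨fun h p hp => ⟨h.1 p hp, h.2 p hp⟩,
      fun h => ⟨fun p hp => (h p hp).1, fun p hp => (h p hp).2⟩⟩
  have s3 : (univ.filter fun x => XCon B b r W x) =
      univ.filter fun x => ∀ p ∈ J, XCon B b r p.1 x := by
    ext x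
    rw [mem_filter, mem_filter, hCW]
  have h1 := prb_indu (XCon B b r) hw.cong J
    (fun p hp p' hp' => ht.disj p (hJt hp) p' (hJt hp')) (fun p hp => ht.con p (hJt hp))
  rw [← s2, ← s3] at h1
  rw [s1, ← hJ]
  have hpos' : (0 : ℝ) < ((univ.filter fun x => XCon B b r W x).card : ℝ) := by exact_mod_cast hpos
  have e1n : (univ.filter fun x => XCon B b r U x ∧ ∀ p ∈ J, ¬ ∀ v ∈ p.1, x v = p.2 v).card *
      (univ.filter fun x => XCon B b r W x).card =
      (univ.filter fun x => XCon B b r W x ∧ ∀ p ∈ J, ¬ ∀ v ∈ p.1, x v = p.2 v).card *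
      (univ.filter fun x => XCon B b r U x).card := by
    convert e1
  have e1' : ((univ.filter fun x => XCon B b r U x ∧ ∀ p ∈ J, ¬ ∀ v ∈ p.1, x v = p.2 v).card : ℝ) *
      ((univ.filter fun x => XCon B b r W x).card : ℝ) =
      ((univ.filter fun x => XCon B b r W x ∧ ∀ p ∈ J, ¬ ∀ v ∈ p.1, x v = p.2 v).card : ℝ) *
      ((univ.filter fun x => XCon B b r U x).card : ℝ) := by
    exact_mod_cast e1n
  refine le_of_mul_le_mul_right ?_ hpos'
  rw [e1']
  refine (mul_le_mul_of_nonneg_right h1 (Nat.cast_nonneg _)).trans (le_of_eq ?_)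
  ring

theorem hitall (hx : ∀ I : Finset (Fin m), I.card ≤ r → I.card ≤ 4 * (par B I).card) (hK : 8 * K ≤ r)
    {q k : ℕ} (hq : 1 ≤ q) (hk : k ≤ K) (hn : 2 * n ≤ q * k) : HitAll (XCon B b r) q k := by
  intro T hT hwt
  have hq0 : (0 : ℝ) < q := by exact_mod_cast hq
  have hq1 : (1 : ℝ) ≤ q := by exact_mod_cast hq
  obtain ⟨μ, hμ⟩ : ∃ μ : Finset (Fin n) → ℝ,
      ∀ U, μ U = (1 / q : ℝ) ^ U.card * (1 - 1 / q : ℝ) ^ (n - U.card) := ⟨_, fun _ => rfl⟩
  have hq2 : (0 : ℝ) ≤ 1 - 1 / q := by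
    rw [sub_nonneg, div_le_one hq0]
    exact hq1
  have hμ0 : ∀ U, 0 ≤ μ U := fun U => by
    rw [hμ]
    positivity
  have hmu : ∀ W : Finset (Fin n), ∑ U ∈ univ.filter (fun U : Finset (Fin n) => W ⊆ U), μ U =
      (1 / q : ℝ) ^ W.card := fun W => by
    rw [← prb_mu hq W]
    exact sum_congr rfl fun U _ => hμ U
  have h1 : ∑ U, μ U = 1 := by
    have h := hmu ∅
    rw [card_empty, pow_zero, filter_true_of_mem (fun U _ => empty_subset U)] at h
    exact h
  have h2 : ∑ U, μ U * (U.card : ℝ) = n / q := by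
    have e : ∀ U : Finset (Fin n), μ U * (U.card : ℝ) = ∑ v : Fin n, if v ∈ U then μ U else 0 := by
      intro U
      rw [Finset.sum_ite_mem, univ_inter, sum_const, nsmul_eq_mul, mul_comm]
    rw [sum_congr rfl fun U _ => e U, sum_comm]
    have e2 : ∀ v : Fin n, (∑ U : Finset (Fin n), if v ∈ U then μ U else 0) = 1 / q := by
      intro v
      rw [← sum_filter]
      have h := hmu {v}
      rw [card_singleton, pow_one] at h
      rw [← h]
      refine sum_congr ?_ fun _ _ => rfl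
      ext U
      rw [mem_filter, mem_filter, singleton_subset_iff]
    rw [sum_congr rfl fun v _ => e2 v, sum_const, card_univ, Fintype.card_fin, nsmul_eq_mul]
    ring
  have h3 : ∑ U ∈ univ.filter (fun U : Finset (Fin n) => ¬ U.card ≤ k), μ U ≤ 1 / 2 := by
    rcases Nat.eq_zero_or_pos k with hk0 | hk0
    · have hn0 : n = 0 := by
        rw [hk0, mul_zero] at hn
        omega
      have he : univ.filter (fun U : Finset (Fin n) => ¬ U.card ≤ k) = ∅ := by
        rw [filter_eq_empty_iff]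
        intro U _ h
        apply h
        have h4 := card_le_univ U
        rw [Fintype.card_fin] at h4
        omega
      rw [he, sum_empty]
      norm_num
    · have hk1 : (0 : ℝ) < k := by exact_mod_cast hk0
      have h4 : (k : ℝ) * ∑ U ∈ univ.filter (fun U : Finset (Fin n) => ¬ U.card ≤ k), μ U ≤ n / q := by
        rw [← h2, mul_sum]
        refine le_trans (sum_le_sum fun U hU => ?_)
          (sum_le_sum_of_subset_of_nonneg (filter_subset _ _) fun U _ _ =>
            mul_nonneg (hμ0 U) (Nat.cast_nonneg _))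
        rw [mul_comm]
        refine mul_le_mul_of_nonneg_left ?_ (hμ0 U)
        have h5 := (mem_filter.1 hU).2
        exact_mod_cast (not_le.1 h5).le
      have h5 : (n / q : ℝ) ≤ k / 2 := by
        rw [div_le_iff₀ hq0]
        have h6 : (2 * n : ℝ) ≤ q * k := by exact_mod_cast hn
        linarith
      have h6 := h4.trans h5
      have h7 : (k : ℝ) * ∑ U ∈ univ.filter (fun U : Finset (Fin n) => ¬ U.card ≤ k), μ U ≤
          k * (1 / 2) := by linarith
      exact le_of_mul_le_mul_left h7 hk1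
  obtain ⟨f, hf⟩ : ∃ f : Finset (Fin n) → ℝ, ∀ U, f U = ∑ t ∈ T,
      ∏ p ∈ t.filter (fun p => p.1 ⊆ U), (1 - (1 / 2 : ℝ) ^ p.1.card) := ⟨_, fun _ => rfl⟩
  have hf0 : ∀ U, 0 ≤ f U := fun U => by
    rw [hf]
    exact sum_nonneg fun t _ => prod_nonneg fun p _ => prb_nn p.1
  have h4 : ∑ U, μ U * f U = ∑ t ∈ T, wt q t := by
    have e : ∀ U, μ U * f U = ∑ t ∈ T, (1 / q : ℝ) ^ U.card * (1 - 1 / q : ℝ) ^ (n - U.card) *
        ∏ p ∈ t.filter (fun p => p.1 ⊆ U), (1 - (1 / 2 : ℝ) ^ p.1.card) := by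
      intro U
      rw [hf, hμ, mul_sum]
    rw [sum_congr rfl fun U _ => e U, sum_comm]
    exact sum_congr rfl fun t ht => prb_prod hq (hT t ht).disj
  obtain ⟨U, hUk, hfU⟩ : ∃ U : Finset (Fin n), U.card ≤ k ∧ f U < 1 := by
    by_contra hcon
    push Not at hcon
    have h5 : ∑ U ∈ univ.filter (fun U : Finset (Fin n) => U.card ≤ k), μ U ≤
        ∑ U ∈ univ.filter (fun U : Finset (Fin n) => U.card ≤ k), μ U * f U := by
      refine sum_le_sum fun U hU => ?_
      exact le_mul_of_one_le_right (hμ0 U) (hcon U (mem_filter.1 hU).2)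
    have h6 : ∑ U ∈ univ.filter (fun U : Finset (Fin n) => U.card ≤ k), μ U * f U ≤
        ∑ U, μ U * f U :=
      sum_le_sum_of_subset_of_nonneg (filter_subset _ _) fun U _ _ => mul_nonneg (hμ0 U) (hf0 U)
    have h7 := Finset.sum_filter_add_sum_filter_not (univ : Finset (Finset (Fin n)))
      (fun U => U.card ≤ k) μ
    rw [h1] at h7
    rw [h4] at h6
    linarith
  have hUK : U.card ≤ K := hUk.trans hk
  have hpos := xpos (b := b) hx hK hUK
  have hpos' : (0 : ℝ) < ((univ.filter fun x => XCon B b r U x).card : ℝ) := by exact_mod_cast hpos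
  refine ⟨U, ?_⟩
  by_contra hcon
  push Not at hcon
  have hall : ∀ x, XCon B b r U x → ∃ t ∈ T, ¬ Hit U x t := fun x h => hcon x hUk h
  have h5 : (univ.filter fun x => XCon B b r U x) ⊆
      T.biUnion fun t => univ.filter fun x => XCon B b r U x ∧ ¬ Hit U x t := by
    intro x hx'
    obtain ⟨t, ht, h6⟩ := hall x (mem_filter.1 hx').2
    exact mem_biUnion.2 ⟨t, ht, mem_filter.2 ⟨mem_univ _, (mem_filter.1 hx').2, h6⟩⟩
  have h6 : ((univ.filter fun x => XCon B b r U x).card : ℝ) ≤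
      ∑ t ∈ T, ((univ.filter fun x => XCon B b r U x ∧ ¬ Hit U x t).card : ℝ) := by
    exact_mod_cast (card_le_card h5).trans card_biUnion_le
  have h7 : ∑ t ∈ T, ((univ.filter fun x => XCon B b r U x ∧ ¬ Hit U x t).card : ℝ) ≤
      f U * ((univ.filter fun x => XCon B b r U x).card : ℝ) := by
    rw [hf, sum_mul]
    exact sum_le_sum fun t ht => prb_miss hx hK hUK (hT t ht)
  have h8 : f U * ((univ.filter fun x => XCon B b r U x).card : ℝ) <
      1 * ((univ.filter fun x => XCon B b r U x).card : ℝ) := mul_lt_mul_of_pos_right hfU hpos'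
  rw [one_mul] at h8
  linarith

end Pool.H6.LD
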