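import Mathlib
import Pool.Agent.H6.LD.Kil
import Pool.Agent.H6.LD.Axm
import Pool.Agent.H6.LD.Grd
import Pool.Agent.H6.LD.Prb

set_option autoImplicit false
set_option linter.unusedSectionVars false

/-!
# Module DET (THEOREM LD): the deterministic theorem
-/

namespace Pool.H6.LD

open Finset Classical Pool.Agent.H3.Frg Pool.Agent.H3.Frg2 Pool.Agent.H3.Frg4 Pool.Agent.H55.QT

/-- the deterministic part for one world, with explicit budgets -/
private theorem core {n K : ℕ} {Con : Finset (Fin n) → (Fin n → Bool) → Prop} (h : Wld Con K)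
    {thr : ℕ → ℕ} (hmono : Monotone thr) (h0 : 2 ≤ thr 0) {d k0 kU kc kd : ℕ} {θ C w : ℝ} {q : ℕ}
    (hθ : ∑ i ∈ range d, (thr i : ℝ) / thr (i + 1) ≤ θ) (hθ0 : 0 ≤ θ) (hkd : θ * (C * n) + thr d ≤ kd)
    (hq : 1 ≤ q) (hall : HitAll Con q kU)
    (hkil : ∀ l : List (Fm (Fin n) × Bool), (lvs l : ℝ) ≤ C * n → (∀ p ∈ l, alt p.1 p.2 ≤ d) →
      Kll Con thr q K kc w l)
    (hb1 : kU + kc + kd + kc ≤ K) (hb2 : kU + kc + 3 * k0 * kd ≤ K) (hb3 : kU + kc + k0 ≤ K)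
    {Γ : Set (Fm (Fin n))} (hΓ : ∀ F ∈ Γ, F.leaves ≤ k0 ∧ ∀ y, Con (fv F) y → F.eval y = true)
    {Sch : Set (Fm ℕ)} (hS : ∀ ψ ∈ Sch, ψ.len ≤ k0 ∧ ∀ x : ℕ → Bool, ψ.eval x = true)
    {N : ℕ} {pf : Fin N → Fm (Fin n)} (hpf : IsDer Sch Γ pf) (hc : ∃ i j, pf i = Fm.neg (pf j))
    (hd : ∀ i, alt (pf i) true ≤ d ∧ alt (pf i) false ≤ d ∧ ((pf i).leaves : ℝ) ≤ C * n) :
    1 / 2 ≤ N * w := by
  by_contra hlt
  push Not at hlt
  have hK : ∀ i, Kll Con thr q K kc w [(pf i, false)] := by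
    intro i
    refine hkil _ ?_ ?_
    · simpa [lvs] using (hd i).2.2
    · intro p hp
      rw [List.mem_singleton] at hp
      rw [hp]
      exact (hd i).2.1
  choose T hT1 hT2 hT3 using hK
  have hw0 : ∀ t : Tst n, 0 ≤ wt q t := by
    intro t
    unfold wt
    refine prod_nonneg fun p _ => ?_
    have h1 : (1 : ℝ) ≤ 2 * q := by
      have : (1 : ℝ) ≤ q := by exact_mod_cast hq
      linarith
    have h2 : (1 / (2 * q : ℝ)) ^ p.1.card ≤ 1 :=
      pow_le_one₀ (by positivity) ((div_le_one (by linarith)).2 h1)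
    linarith
  obtain ⟨U, x, hU, hx, hhit⟩ := hall ((univ : Finset (Fin N)).biUnion T) (by
    intro t ht
    obtain ⟨i, _, hi⟩ := mem_biUnion.1 ht
    exact hT1 i t hi) (by
    refine lt_of_le_of_lt ?_ hlt
    have h1 : ∀ S : Finset (Fin N), ∑ t ∈ S.biUnion T, wt q t ≤ ∑ i ∈ S, ∑ t ∈ T i, wt q t := by
      intro S
      induction S using Finset.induction_on with
      | empty => simp
      | insert a S ha ih =>
        rw [biUnion_insert, sum_insert ha]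
        have h7 := sum_union_inter (s₁ := T a) (s₂ := S.biUnion T) (f := wt q)
        have h8 : 0 ≤ ∑ t ∈ T a ∩ S.biUnion T, wt q t := sum_nonneg fun t _ => hw0 t
        linarith
    refine (h1 univ).trans ((sum_le_sum fun i _ => hT2 i).trans ?_)
    rw [sum_const, card_univ, Fintype.card_fin, nsmul_eq_mul])
  have hC : ∀ i, Crt Con thr K kc U x [(pf i, false)] := fun i =>
    hT3 i U x fun t ht => hhit t (mem_biUnion.2 ⟨i, mem_univ _, ht⟩)
  -- false lines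
  let Fls : Fin N → Prop := fun i => ∃ D y, U ⊆ D ∧ (∀ v ∈ U, y v = x v) ∧ Con D y ∧
    D.card ≤ kU + kc + kd ∧ Tr Con thr D y (pf i) false false
  have hex : ∃ i, Fls i := by
    obtain ⟨i, j, hij⟩ := hc
    obtain ⟨D', y, h1, h2, h3, h4, h5⟩ := decide2 h hmono h0 hθ (hd j).1 (hd j).2.1 (hd j).2.2 hkd
      (D := U) (x := x) (by omega) hx
    rcases h5 with h5 | h5
    · refine ⟨i, D', y, h1, h3, h4, by omega, ?_⟩
      rw [hij]
      exact h5
    · exact ⟨j, D', y, h1, h3, h4, by omega, h5⟩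
  obtain ⟨l, hl, hmin⟩ : ∃ l, Fls l ∧ ∀ i, i < l → ¬ Fls i := by
    obtain ⟨i, hi⟩ := hex
    have hne : (univ.filter fun i => Fls i).Nonempty := ⟨i, mem_filter.2 ⟨mem_univ _, hi⟩⟩
    refine ⟨(univ.filter fun i => Fls i).min' hne, (mem_filter.1 (min'_mem _ hne)).2, ?_⟩
    intro i hi hF
    have := min'_le (univ.filter fun i => Fls i) i (mem_filter.2 ⟨mem_univ _, hF⟩)
    exact absurd hi (not_lt.2 this)
  obtain ⟨D1, y1, hUD1, hy1, hc1, hcard1, htr1⟩ := hl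
  obtain ⟨D, y, hDk, hyy, hcy, htr⟩ := hC l D1 y1 hUD1 hy1 hc1 (by omega) (by
    intro p hp
    rw [List.mem_singleton] at hp
    rw [hp]
    exact htr1)
  have htr2 : Tr Con thr D y (pf l) false false := htr _ (List.mem_singleton.2 rfl)
  have hcD : Con (U ∪ D) y := h.mono _ _ _ (union_subset_union hUD1 subset_rfl) hcy
  have hyU : ∀ v ∈ U, y v = x v := fun v hv => (hyy v (hUD1 hv)).trans (hy1 v hv)
  have htrD : Tr Con thr (U ∪ D) y (pf l) false false :=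
    Tr.mono h subset_union_right (fun _ _ => rfl) htr2
  have hcard : (U ∪ D).card ≤ kU + kc := (card_union_le _ _).trans (by omega)
  rcases hpf l with h1 | ⟨ψ, hψ, σ, h1⟩ | ⟨j, k, hj, hk, h1⟩
  · exact cl_not h (hΓ _ h1).2 (by have := (hΓ _ h1).1; omega) hcD htrD
  · obtain ⟨hd1, hd2, hd3⟩ := hd l
    rw [h1] at htrD hd1 hd2 hd3
    exact ax_not_false h hmono h0 hθ hθ0 hkd (hS ψ hψ).1 (hS ψ hψ).2 hd1 hd2 hd3 (by omega) hcD htrD
  · obtain ⟨D', y', h2, h3, h4, h5, h6⟩ := mp_not h hmono h0 hθ hkd (hd j).1 (hd j).2.1 (hd j).2.2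
      (D := U ∪ D) (x := y) (by omega) hcD htrD
    have h7 : U ⊆ D' := subset_union_left.trans h2
    have h8 : ∀ v ∈ U, y' v = x v := fun v hv => (h4 v (mem_union_left _ hv)).trans (hyU v hv)
    rcases h6 with h6 | h6
    · exact hmin j hj ⟨D', y', h7, h8, h5, by omega, h6⟩
    · refine hmin k hk ⟨D', y', h7, h8, h5, by omega, ?_⟩
      rw [h1]
      exact h6

theorem det {L : ℕ → ℝ} (hL : ∀ R, 0 ≤ L R) {κ C : ℝ} (hκ : 0 < κ) (hC : 0 ≤ C) (d k0 : ℕ) :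
    ∃ T : ℝ, 0 < T ∧ ∃ n0 : ℕ, ∀ n, n0 ≤ n → ∀ (m r : ℕ) (B : Fin m → Finset (Fin n))
      (b : Fin m → Bool), (∀ I : Finset (Fin m), I.card ≤ r → I.card ≤ 4 * (par B I).card) →
      κ * n ≤ r → Bls L B →
      ∀ Γ : Set (Fm (Fin n)), (∀ F ∈ Γ, F.leaves ≤ k0 ∧ ∀ y, XCon B b r (fv F) y → F.eval y = true) →
      ∀ Sch : Set (Fm ℕ), (∀ ψ ∈ Sch, ψ.len ≤ k0 ∧ ∀ x : ℕ → Bool, ψ.eval x = true) →
      ∀ (N : ℕ) (pf : Fin N → Fm (Fin n)), IsDer Sch Γ pf → (∃ i j, pf i = Fm.neg (pf j)) →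
      (∀ i, alt (pf i) true ≤ d ∧ alt (pf i) false ≤ d ∧ ((pf i).leaves : ℝ) ≤ C * n) →
      (2 : ℝ) ^ ((n : ℝ) / T) ≤ N := by
  obtain ⟨q, hq⟩ := exists_nat_ge (128 / κ)
  have hq1 : 1 ≤ q := by
    have h1 : 0 < 128 / κ := by positivity
    have h2 : (0 : ℝ) < q := h1.trans_le hq
    exact_mod_cast h2
  have hk0 : (0 : ℝ) ≤ k0 := Nat.cast_nonneg _
  obtain ⟨θ, hθdef⟩ : ∃ θ : ℝ, θ = κ / (384 * (k0 + 1) * (C + 1)) := ⟨_, rfl⟩
  have hθ : 0 < θ := by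
    rw [hθdef]
    positivity
  obtain ⟨thr, hmono, hthr0, hsum, η, hη, n1, hkil⟩ :=
    kil (sub := subf L) (fun A ν hν => subf_pos hL hν) q d hq1 hC
      (show 0 < κ / 64 by positivity) hθ
  obtain ⟨n2, hn2⟩ := exists_nat_ge (2 / η)
  obtain ⟨n3, hn3⟩ := exists_nat_ge ((k0 + 2) * 64 / κ)
  obtain ⟨n4, hn4⟩ := exists_nat_ge ((thr d : ℝ) * (384 * (k0 + 1)) / κ)
  refine ⟨2 / η, by positivity, n1 + n2 + n3 + n4, fun n hn m r B b hx hr hB Γ hΓ Sch hS N pf hpf hcon hd => ?_⟩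
  have hn1' : n1 ≤ n := by omega
  have hn2' : 2 / η ≤ n := hn2.trans (by
    have : n2 ≤ n := by omega
    exact_mod_cast this)
  have hn3' : ((k0 : ℝ) + 2) * 64 / κ ≤ n := hn3.trans (by
    have : n3 ≤ n := by omega
    exact_mod_cast this)
  have hn4' : (thr d : ℝ) * (384 * (k0 + 1)) / κ ≤ n := hn4.trans (by
    have : n4 ≤ n := by omega
    exact_mod_cast this)
  rw [div_le_iff₀ hη] at hn2'
  rw [div_le_iff₀ hκ] at hn3' hn4'
  obtain ⟨a, ha⟩ : ∃ a : ℝ, a = κ * n / 64 := ⟨_, rfl⟩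
  have hn0 : (0 : ℝ) ≤ n := Nat.cast_nonneg _
  have ha0 : 0 ≤ a := by
    rw [ha]
    positivity
  have ha1 : (k0 : ℝ) + 2 ≤ a := by
    rw [ha]
    linarith
  obtain ⟨K, hKdef⟩ : ∃ K : ℕ, K = r / 8 := ⟨_, rfl⟩
  have hK8 : 8 * K ≤ r := by omega
  have hKr : (r : ℝ) ≤ 8 * K + 7 := by
    have : r ≤ 8 * K + 7 := by omega
    exact_mod_cast this
  have hKa : 8 * a - 1 ≤ K := by
    have h1 : κ * n = 64 * a := by
      rw [ha]
      ring
    linarith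
  obtain ⟨kU, hkU⟩ : ∃ kU : ℕ, kU = ⌈a⌉₊ := ⟨_, rfl⟩
  obtain ⟨kd, hkd⟩ : ∃ kd : ℕ, kd = ⌈a / (3 * (k0 + 1))⌉₊ := ⟨_, rfl⟩
  have hkU1 : a ≤ kU := by
    rw [hkU]
    exact Nat.le_ceil _
  have hkU2 : (kU : ℝ) ≤ a + 1 := by
    rw [hkU]
    exact (Nat.ceil_lt_add_one ha0).le
  have hkd1 : a / (3 * (k0 + 1)) ≤ kd := by
    rw [hkd]
    exact Nat.le_ceil _
  have hkd2 : (kd : ℝ) ≤ a / (3 * (k0 + 1)) + 1 := by
    rw [hkd]
    exact (Nat.ceil_lt_add_one (by positivity)).le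
  have hkd3 : 3 * k0 * (kd : ℝ) ≤ a + 3 * k0 := by
    have h1 : 3 * (k0 : ℝ) * kd ≤ 3 * k0 * (a / (3 * (k0 + 1)) + 1) :=
      mul_le_mul_of_nonneg_left hkd2 (by positivity)
    have h2 : 3 * (k0 : ℝ) * (a / (3 * (k0 + 1))) ≤ a := by
      rw [mul_div_assoc', div_le_iff₀ (by positivity)]
      nlinarith
    linarith
  have hkd4 : (kd : ℝ) ≤ a / 3 + 1 := by
    have h1 : a / (3 * ((k0 : ℝ) + 1)) ≤ a / 3 := by
      refine div_le_div_of_nonneg_left ha0 (by norm_num) ?_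
      linarith
    linarith
  have hb1 : kU + kU + kd + kU ≤ K := by
    have : (kU : ℝ) + kU + kd + kU ≤ K := by linarith
    exact_mod_cast this
  have hb2 : kU + kU + 3 * k0 * kd ≤ K := by
    have : (kU : ℝ) + kU + 3 * k0 * kd ≤ K := by linarith
    exact_mod_cast this
  have hb3 : kU + kU + k0 ≤ K := by
    have : (kU : ℝ) + kU + k0 ≤ K := by linarith
    exact_mod_cast this
  have hdec : θ * (C * n) + thr d ≤ kd := by
    refine le_trans ?_ hkd1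
    have h1 : θ * (C * n) ≤ a / (6 * (k0 + 1)) := by
      have h2 : θ * (C * n) = a / (6 * (k0 + 1)) * (C / (C + 1)) := by
        rw [hθdef, ha]
        field_simp
        ring
      rw [h2]
      have h3 : C / (C + 1) ≤ 1 := (div_le_one (by linarith)).2 (by linarith)
      have h4 : 0 ≤ a / (6 * ((k0 : ℝ) + 1)) := by positivity
      calc _ ≤ a / (6 * ((k0 : ℝ) + 1)) * 1 := mul_le_mul_of_nonneg_left h3 h4
        _ = _ := mul_one _
    have h2 : (thr d : ℝ) ≤ a / (6 * (k0 + 1)) := by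
      rw [ha, le_div_iff₀ (by positivity)]
      linarith
    have h3 : a / (3 * ((k0 : ℝ) + 1)) = a / (6 * (k0 + 1)) + a / (6 * (k0 + 1)) := by
      field_simp
      ring
    rw [h3]
    linarith
  have hw := xwld (b := b) hx hK8
  have hfin := core hw hmono hthr0 (k0 := k0) (kU := kU) (kc := kU) (kd := kd) (C := C)
    (w := 2 ^ (-η * n)) (q := q) hsum hθ.le hdec hq1
    (hitall hx hK8 hq1 (by omega) (by
      have h1 : (2 * n : ℝ) ≤ q * kU := by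
        have h2 : 128 / κ * a = 2 * n := by
          rw [ha]
          field_simp
          ring
        rw [← h2]
        exact mul_le_mul hq hkU1 ha0 (Nat.cast_nonneg _)
      exact_mod_cast h1))
    (fun l hl hdl => hkil n hn1' (XCon B b r) K kU hw (fun A ν hν => xsub hx hL hB A hν) (by
      refine le_trans (le_of_eq ?_) hkU1
      rw [ha]
      ring) l hl hdl)
    hb1 hb2 hb3 hΓ hS hpf hcon hd
  -- conclusion
  have h1 : (n : ℝ) / (2 / η) = η * n / 2 := by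
    field_simp
  rw [h1]
  have h2 : (2 : ℝ) ^ (η * n / 2) ≤ 1 / 2 * 2 ^ (η * n) := by
    have h3 : (1 / 2 : ℝ) = 2 ^ (-1 : ℝ) := by
      rw [Real.rpow_neg_one]
      norm_num
    rw [h3, ← Real.rpow_add (by norm_num)]
    refine Real.rpow_le_rpow_of_exponent_le (by norm_num) ?_
    linarith
  refine h2.trans ?_
  have h3 : (2 : ℝ) ^ (-η * n) * 2 ^ (η * n) = 1 := by
    rw [← Real.rpow_add (by norm_num)]
    norm_num
  have h4 : (0 : ℝ) ≤ 2 ^ (η * n) := by positivity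
  calc 1 / 2 * (2 : ℝ) ^ (η * n) ≤ N * 2 ^ (-η * n) * 2 ^ (η * n) := mul_le_mul_of_nonneg_right hfin h4
    _ = N := by rw [mul_assoc, h3, mul_one]

end Pool.H6.LD
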