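import Mathlib
import Pool.Agent.H6.LD.Det
import Pool.Agent.H6.LD.Bal
import Pool.Agent.H55.QT.RFin

set_option autoImplicit false
set_option linter.unusedSectionVars false

/-!
# Module FIN (THEOREM LD): random 3-CNFs

PROOF. `e' = e / 3` (and `≤ 1`). `card_nexp` with `r = ⌊c n⌋` (as in `RFin.rand3`): all but `e' * total` satisfy `Exp13 r`, which gives by `par_big` (`(cvar c).card = 3`) the hypothesis of `det` with `κ = c / 2`; `card_sat`:
all but `e' * total` are unsatisfiable for large `n`; `bal` with `e'`. `b j := ` the parity of the falsifying assignment of the clause plus 1, i.e. `sm (fun i => !(φ j).2 i) univ + 1` as a Boolean, so that an assignment with `sm x (cvar (φ j)) = b j` does not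
falsify the clause. `Γ = Cls {l | ∃ j, l = clist (φ j)}`: its formulas are `clF a c` with `a :: c = clist (φ j)`; `fv = cvar (φ j) = par B {j}`, leaves 3, `XCon` for `I = {j}` (`1 ≤ r`) gives the equation, so the value is true.
-/

namespace Pool.H6.LD

open Finset Classical Pool.Agent.H3.Frg Pool.Agent.H3.Frg2 Pool.Agent.H3.Frg4 Pool.Agent.H55.QT Pool.H6.QL

private theorem ld_cx {Δ : ℕ} (hΔ : 1 ≤ Δ) : 1 ≤ Cx Δ := by
  unfold Cx
  have h1 : (1 : ℝ) ≤ Δ := by exact_mod_cast hΔ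
  have h2 : (1 : ℝ) ≤ (54 * Δ) ^ 3 := one_le_pow₀ (by linarith)
  linarith

private theorem ld_sat {Δ n : ℕ} (hΔ : 6 ≤ Δ) :
    ((univ.filter fun φ : Fin (Δ * n) → Cl n => Sat φ).card : ℝ) ≤
      (9 / 10 : ℝ) ^ n * Fintype.card (Fin (Δ * n) → Cl n) := by
  have h1 := card_sat (n := n) (m := Δ * n)
  obtain ⟨A, hA⟩ : ∃ A, A = (univ.filter fun φ : Fin (Δ * n) → Cl n => Sat φ).card := ⟨_, rfl⟩
  obtain ⟨T, hT⟩ : ∃ T, T = Fintype.card (Fin (Δ * n) → Cl n) := ⟨_, rfl⟩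
  rw [← hA, ← hT] at h1 ⊢
  have h2 : (8 : ℝ) ^ (Δ * n) * A ≤ 2 ^ n * 7 ^ (Δ * n) * T := by exact_mod_cast h1
  have h3 : (A : ℝ) ≤ (2 ^ n * (7 / 8 : ℝ) ^ (Δ * n)) * T := by
    have h8 : (0 : ℝ) < 8 ^ (Δ * n) := by positivity
    have e1 : (2 ^ n * (7 / 8 : ℝ) ^ (Δ * n)) * T = 2 ^ n * 7 ^ (Δ * n) * T / 8 ^ (Δ * n) := by
      rw [div_pow]
      ring
    rw [e1, le_div_iff₀ h8]
    linarith
  refine h3.trans ?_
  refine mul_le_mul_of_nonneg_right ?_ (Nat.cast_nonneg _)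
  rw [pow_mul, ← mul_pow]
  refine pow_le_pow_left₀ (by positivity) ?_ n
  have h4 : (7 / 8 : ℝ) ^ Δ ≤ (7 / 8 : ℝ) ^ 6 :=
    pow_le_pow_of_le_one (by norm_num) (by norm_num) hΔ
  have h5 : (7 / 8 : ℝ) ^ 6 ≤ 9 / 20 := by norm_num
  linarith

private theorem ld_leaves {V : Type} (a : V × Bool) : (litF a).leaves = 1 := by
  obtain ⟨i, b⟩ := a
  cases b <;> rfl

private theorem ld_fv {V : Type} (a : V × Bool) : fv (litF a) = {a.1} := by
  obtain ⟨i, b⟩ := a
  cases b <;> rfl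

private theorem ld_eval {V : Type} (a : V × Bool) (x : V → Bool) :
    (litF a).eval x = (x a.1 == a.2) := by
  obtain ⟨i, b⟩ := a
  cases b
  · show (!(x i)) = _
    cases x i <;> rfl
  · show x i = _
    cases x i <;> rfl

/-- the right sides -/
private def rs {n : ℕ} (c : Cl n) : Bool := !(xor (xor (!(c.2 0)) (!(c.2 1))) (!(c.2 2)))

private theorem ld_par {n m : ℕ} (B : Fin m → Finset (Fin n)) (j : Fin m) : par B {j} = B j := by
  ext x
  unfold Pool.Agent.H55.QT.par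
  rw [mem_filter, filter_singleton]
  by_cases h : x ∈ B j
  · rw [if_pos h, card_singleton]
    simp [h]
  · rw [if_neg h, card_empty]
    simp [h]

private theorem ld_cl {n m : ℕ} {φ : Fin m → Cl n} {r : ℕ} (hr : 1 ≤ r) (F : Fm (Fin n))
    (hF : F ∈ Cls {l | ∃ j, l = clist (φ j)}) : F.leaves ≤ 3 ∧
      ∀ y, XCon (fun j => cvar (φ j)) (fun j => rs (φ j)) r (fv F) y → F.eval y = true := by
  obtain ⟨a, c, ⟨j, hj⟩, rfl⟩ := hF
  unfold clist at hj
  rw [List.cons.injEq] at hj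
  obtain ⟨rfl, rfl⟩ := hj
  refine ⟨?_, fun y hy => ?_⟩
  · show (litF _).leaves + ((litF _).leaves + (litF _).leaves) ≤ 3
    rw [ld_leaves, ld_leaves, ld_leaves]
  · have h1 := hy {j} (by rw [card_singleton]; exact hr)
    rw [ld_par] at h1
    have h2 : cvar (φ j) ⊆ fv (clF ((φ j).1 0, (φ j).2 0) [((φ j).1 1, (φ j).2 1), ((φ j).1 2, (φ j).2 2)]) := by
      intro x hx
      simp only [clF, fv, ld_fv]
      unfold cvar at hx
      rw [mem_map] at hx
      obtain ⟨i, -, rfl⟩ := hx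
      simp only [mem_union, mem_singleton]
      fin_cases i
      · exact Or.inl rfl
      · exact Or.inr (Or.inl rfl)
      · exact Or.inr (Or.inr rfl)
    have h3 := h1 h2
    unfold sm cvar at h3
    rw [sum_map, Fin.sum_univ_three, sum_singleton] at h3
    unfold rs at h3
    beta_reduce at h3
    show (!(!((litF _).eval y)) || (!(!((litF _).eval y)) || (litF _).eval y)) = true
    rw [ld_eval, ld_eval, ld_eval]
    simp only
    revert h3
    generalize (φ j).2 0 = s0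
    generalize (φ j).2 1 = s1
    generalize (φ j).2 2 = s2
    generalize y ((φ j).1 0) = y0
    generalize y ((φ j).1 1) = y1
    generalize y ((φ j).1 2) = y2
    revert s0 s1 s2 y0 y1 y2
    decide

theorem ld {Δ : ℕ} (hΔ : 6 ≤ Δ) (d k0 : ℕ) {C e : ℝ} (hC : 0 ≤ C) (he : 0 < e) :
    ∃ T : ℝ, 0 < T ∧ ∃ n0 : ℕ, ∀ n : ℕ, n0 ≤ n →
      ((univ.filter fun φ : Fin (Δ * n) → Cl n => ¬ (¬ Sat φ ∧
        ∀ Sch : Set (Fm ℕ), (∀ ψ ∈ Sch, ψ.len ≤ k0 ∧ ∀ x : ℕ → Bool, ψ.eval x = true) →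
        ∀ (N : ℕ) (pf : Fin N → Fm (Fin n)), IsDer Sch (Cls {l | ∃ j, l = clist (φ j)}) pf →
          (∃ i j, pf i = Fm.neg (pf j)) →
          (∀ i, alt (pf i) true ≤ d ∧ alt (pf i) false ≤ d ∧ ((pf i).leaves : ℝ) ≤ C * n) →
          (2 : ℝ) ^ ((n : ℝ) / T) ≤ N)).card : ℝ) ≤
        e * Fintype.card (Fin (Δ * n) → Cl n) := by
  obtain ⟨f, hf⟩ : ∃ f, f = min e 1 := ⟨_, rfl⟩
  have hf0 : 0 < f := by
    rw [hf]
    exact lt_min he one_pos
  have hf1 : f ≤ 1 := by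
    rw [hf]
    exact min_le_right _ _
  have hfe : f ≤ e := by
    rw [hf]
    exact min_le_left _ _
  have hf3 : 0 < f / 3 := by positivity
  have hC1 := ld_cx (by omega : 1 ≤ Δ)
  obtain ⟨C₁, hCe⟩ : ∃ C₁, C₁ = Cx Δ := ⟨_, rfl⟩
  rw [← hCe] at hC1
  have hC0 : 0 < C₁ := by linarith
  obtain ⟨c, hc⟩ : ∃ c, c = f / (18 * C₁) := ⟨_, rfl⟩
  have hc0 : 0 < c := by
    rw [hc]
    positivity
  have hcC : 18 * (c * C₁) = f := by
    rw [hc]
    field_simp
  have hc1 : 18 * c ≤ 1 := by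
    have : 18 * (c * 1) ≤ 18 * (c * C₁) := by gcongr
    linarith
  obtain ⟨T, hT, n₀, hdet⟩ := det (L := Lb Δ (f / 3)) (Lb_nonneg hf3) (half_pos hc0) hC d (max k0 3)
  obtain ⟨n1, hn1⟩ := exists_pow_lt_of_lt_one (y := (9 / 10 : ℝ)) hf3 (by norm_num)
  obtain ⟨n2, hn2⟩ := exists_nat_ge (2 / c)
  refine ⟨T, hT, max n₀ (max n1 n2) + 1, fun n hn => ?_⟩
  have hn0' : n₀ ≤ n := by
    have := le_max_left n₀ (max n1 n2)
    omega
  have hn1' : n1 ≤ n := by
    have := le_max_left n1 n2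
    have := le_max_right n₀ (max n1 n2)
    omega
  have hn2' : n2 ≤ n := by
    have := le_max_right n1 n2
    have := le_max_right n₀ (max n1 n2)
    omega
  have hn0 : 0 < n := by omega
  have hnr : (0 : ℝ) < n := by exact_mod_cast hn0
  have hcn : 2 ≤ c * n := by
    have h1 : 2 / c ≤ n := hn2.trans (by exact_mod_cast hn2')
    rw [div_le_iff₀ hc0] at h1
    linarith
  obtain ⟨r, hr⟩ : ∃ r, r = ⌊c * n⌋₊ := ⟨_, rfl⟩
  have hr1 : 1 ≤ r := by
    rw [hr]
    refine Nat.le_floor ?_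
    rw [Nat.cast_one]
    linarith
  have hrn : (r : ℝ) ≤ c * n := by
    rw [hr]
    exact Nat.floor_le (by positivity)
  have hrl : c / 2 * n ≤ (r : ℝ) := by
    have h1 := Nat.lt_floor_add_one (c * (n : ℝ))
    rw [← hr] at h1
    linarith
  have h2r : 2 * r ≤ n := by
    have h1 : (2 : ℝ) * r ≤ n := by
      have h2 : 18 * c * n ≤ 1 * n := mul_le_mul_of_nonneg_right hc1 hnr.le
      have h3 : 0 ≤ c * n := by positivity
      linarith
    exact_mod_cast h1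
  have hq' : Cx Δ * (r : ℝ) / n ≤ f / 18 := by
    rw [← hCe, div_le_iff₀ hnr]
    have h1 : C₁ * (r : ℝ) ≤ C₁ * (c * n) := by gcongr
    have h2 : C₁ * (c * n) = f / 18 * n := by
      rw [← hcC]
      ring
    linarith
  have hq : Cx Δ * (r : ℝ) / n ≤ 1 / 2 := hq'.trans (by linarith)
  have hex := card_nexp (by omega : 1 ≤ Δ) h2r hq
  have hsat := ld_sat (n := n) hΔ
  have hbal := bal (Δ := Δ) (n := n) hf3
  have hsub : (univ.filter fun φ : Fin (Δ * n) → Cl n => ¬ (¬ Sat φ ∧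
        ∀ Sch : Set (Fm ℕ), (∀ ψ ∈ Sch, ψ.len ≤ k0 ∧ ∀ x : ℕ → Bool, ψ.eval x = true) →
        ∀ (N : ℕ) (pf : Fin N → Fm (Fin n)), IsDer Sch (Cls {l | ∃ j, l = clist (φ j)}) pf →
          (∃ i j, pf i = Fm.neg (pf j)) →
          (∀ i, alt (pf i) true ≤ d ∧ alt (pf i) false ≤ d ∧ ((pf i).leaves : ℝ) ≤ C * n) →
          (2 : ℝ) ^ ((n : ℝ) / T) ≤ N)) ⊆
      ((univ.filter fun φ : Fin (Δ * n) → Cl n => Sat φ) ∪
      (univ.filter fun φ : Fin (Δ * n) → Cl n => ¬ Exp13 r φ)) ∪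
      (univ.filter fun φ : Fin (Δ * n) → Cl n => ¬ Bls (Lb Δ (f / 3)) (fun j => cvar (φ j))) := by
    intro φ hφ
    rw [mem_filter] at hφ
    rw [mem_union, mem_union, mem_filter, mem_filter, mem_filter]
    by_contra hcon
    refine hφ.2 ⟨fun hs => hcon (Or.inl (Or.inl ⟨mem_univ _, hs⟩)), ?_⟩
    have h1 : Exp13 r φ := by
      by_contra h2
      exact hcon (Or.inl (Or.inr ⟨mem_univ _, h2⟩))
    have h2 : Bls (Lb Δ (f / 3)) (fun j => cvar (φ j)) := by
      by_contra h3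
      exact hcon (Or.inr ⟨mem_univ _, h3⟩)
    intro Sch hSch N pf hpf hij hsz
    refine hdet n hn0' (Δ * n) r (fun j => cvar (φ j)) (fun j => rs (φ j)) ?_ hrl h2
      (Cls {l | ∃ j, l = clist (φ j)}) ?_ Sch ?_ N pf hpf hij hsz
    · intro I hI
      refine par_big (fun j => ?_) ((h1 I hI).trans (le_of_eq ?_))
      · show (cvar (φ j)).card = 3
        unfold cvar
        rw [card_map, card_univ, Fintype.card_fin]
      · congr 2
    · intro F hF
      obtain ⟨h3, h4⟩ := ld_cl hr1 F hF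
      exact ⟨h3.trans (le_max_right _ _), h4⟩
    · intro ψ hψ
      obtain ⟨h3, h4⟩ := hSch ψ hψ
      exact ⟨h3.trans (le_max_left _ _), h4⟩
  obtain ⟨W, hW⟩ : ∃ W, W = Fintype.card (Fin (Δ * n) → Cl n) := ⟨_, rfl⟩
  rw [← hW] at hex hsat hbal ⊢
  have hW0 : (0 : ℝ) ≤ W := Nat.cast_nonneg _
  have h9 : (9 / 10 : ℝ) ^ n ≤ f / 3 :=
    (pow_le_pow_of_le_one (by norm_num) (by norm_num) hn1').trans hn1.le
  have hcard := ((card_le_card hsub).trans (card_union_le _ _)).trans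
    (Nat.add_le_add_right (card_union_le _ _) _)
  have hcard' := (Nat.cast_le (α := ℝ)).2 hcard
  push_cast at hcard'
  refine hcard'.trans ?_
  have h5 : 6 * (Cx Δ * (r : ℝ) / n) * W ≤ f / 3 * W := by
    refine mul_le_mul_of_nonneg_right ?_ hW0
    linarith
  have h6 : (9 / 10 : ℝ) ^ n * W ≤ f / 3 * W := mul_le_mul_of_nonneg_right h9 hW0
  have h7 : f * W ≤ e * W := mul_le_mul_of_nonneg_right hfe hW0
  linarith

end Pool.H6.LD
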